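import Pool.Agent.Work.MP_e7996b_gt.Ultra

/-!
# Dim: `X` has covering dimension at most one

For a finite `K : Finset Z` the vertices outside of `K` are mapped to `V` by `ρ` (`cl`), and `bt K u x` is the
corresponding barycentric coordinate; every point has at most two nonzero ones.  The sets
`A u = {1 - 2/(3N) < bt u}` and `B u u' j = {0 < bt u, 0 < bt u', |bt u' - j/N| < 2/(3N)}` cover `X`, three of
them never meet, and they are small.
-/

set_option autoImplicit false
set_option linter.unusedSectionVars false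

namespace Pool.Agent.Work.MP_e7996b_gt

open Set Topology Filter

variable {V Z : Type}

/-- covering dimension at most one (for finite open covers) -/
def DimLeOne (X : Type*) [TopologicalSpace X] : Prop :=
  ∀ 𝒰 : Finset (Set X), (∀ U ∈ 𝒰, IsOpen U) → ⋃₀ (𝒰 : Set (Set X)) = Set.univ →
    ∃ 𝒱 : Finset (Set X), (∀ V ∈ 𝒱, IsOpen V ∧ ∃ U ∈ 𝒰, V ⊆ U) ∧
      ⋃₀ (𝒱 : Set (Set X)) = Set.univ ∧
      ∀ x : X, ∀ V₁ ∈ 𝒱, ∀ V₂ ∈ 𝒱, ∀ V₃ ∈ 𝒱,
        x ∈ V₁ → x ∈ V₂ → x ∈ V₃ → V₁ = V₂ ∨ V₁ = V₃ ∨ V₂ = V₃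

section

variable (F : Frame V Z) (K : Finset Z)

open scoped Classical in
/-- the class of a vertex -/
private noncomputable def cl : V ⊕ Z → V ⊕ Z
  | Sum.inl v => Sum.inl v
  | Sum.inr z => if z ∈ K then Sum.inr z else Sum.inl (F.ρ z)

open scoped Classical in
/-- the barycentric coordinate of the class `u` -/
private noncomputable def bt : V ⊕ Z → (V ⊕ Z → ℝ) → ℝ
  | Sum.inl v, x => x (Sum.inl v) - ∑ z ∈ K with F.ρ z = v, x (Sum.inr z)
  | Sum.inr z, x => x (Sum.inr z)

/-- the classes -/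
private def Kl : Set (V ⊕ Z) := {u | ∀ z, u = Sum.inr z → z ∈ K}

private theorem cl_mem (p : V ⊕ Z) : cl F K p ∈ Kl (V := V) K := by
  classical
  intro z hz
  cases p with
  | inl v => simp [cl] at hz
  | inr y =>
    by_cases h : y ∈ K
    · simp only [cl, if_pos h] at hz
      rwa [← Sum.inr_injective hz]
    · simp [cl, if_neg h] at hz

open scoped Classical in
private theorem bt_pt (p u : V ⊕ Z) (hu : u ∈ Kl (V := V) K) :
    bt F K u (F.pt p) = if cl F K p = u then 1 else 0 := by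
  cases u with
  | inl v =>
    cases p with
    | inl w =>
      show F.pt (Sum.inl w) (Sum.inl v) - ∑ z ∈ K with F.ρ z = v, F.pt (Sum.inl w) (Sum.inr z) = _
      have h1 : ∑ z ∈ K with F.ρ z = v, F.pt (Sum.inl w) (Sum.inr z) = 0 :=
        Finset.sum_eq_zero fun z _ => by rw [F.pt_inr, if_neg]; simp
      rw [h1, F.pt_inl, sub_zero]
      simp [cl]
    | inr y =>
      show F.pt (Sum.inr y) (Sum.inl v) - ∑ z ∈ K with F.ρ z = v, F.pt (Sum.inr y) (Sum.inr z) = _
      have h1 : ∀ z, F.pt (Sum.inr y) (Sum.inr z) = if y = z then 1 else 0 := by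
        intro z
        rw [F.pt_inr]
        simp
      simp_rw [h1]
      rw [Finset.sum_ite_eq, F.pt_inl, F.r_inr]
      by_cases hy : y ∈ K
      · by_cases hv : F.ρ y = v
        · rw [if_pos hv, if_pos (by simp [hy, hv])]
          simp [cl, hy]
        · rw [if_neg hv, if_neg (by simp [hv])]
          simp [cl, hy]
      · rw [if_neg (by simp [hy] : ¬ y ∈ K.filter fun z => F.ρ z = v)]
        simp [cl, hy]
  | inr z =>
    have hz : z ∈ K := hu z rfl
    show F.pt p (Sum.inr z) = _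
    rw [F.pt_inr]
    cases p with
    | inl w => simp [cl]
    | inr y =>
      by_cases hy : y = z
      · subst hy
        simp [cl, hz]
      · rw [if_neg (by simpa using hy)]
        by_cases hyK : y ∈ K
        · simp [cl, hyK, hy]
        · simp [cl, hyK]

private theorem bt_sg (p q u : V ⊕ Z) (s : ℝ) :
    bt F K u (F.sg p q s) = (1 - s) * bt F K u (F.pt p) + s * bt F K u (F.pt q) := by
  classical
  cases u with
  | inl v =>
    show F.sg p q s (Sum.inl v) - ∑ z ∈ K with F.ρ z = v, F.sg p q s (Sum.inr z) =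
      (1 - s) * (F.pt p (Sum.inl v) - ∑ z ∈ K with F.ρ z = v, F.pt p (Sum.inr z)) +
      s * (F.pt q (Sum.inl v) - ∑ z ∈ K with F.ρ z = v, F.pt q (Sum.inr z))
    simp_rw [F.sg_apply]
    rw [Finset.sum_add_distrib, ← Finset.mul_sum, ← Finset.mul_sum]
    ring
  | inr z => rfl

private theorem bt_cont (u : V ⊕ Z) : Continuous fun x : F.X => bt F K u x.1 := by
  classical
  cases u with
  | inl v =>
    show Continuous fun x : F.X => x.1 (Sum.inl v) - ∑ z ∈ K with F.ρ z = v, x.1 (Sum.inr z)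
    exact (F.continuous_coord _).sub (continuous_finsetSum _ fun z _ => F.continuous_coord _)
  | inr z => exact F.continuous_coord _

/-- every point is given by two classes and a parameter -/
private theorem bt_form (x : F.X) : ∃ a ∈ Kl (V := V) K, ∃ b ∈ Kl (V := V) K,
    ∃ s ∈ Icc (0 : ℝ) 1, (a = b ∨ WellOrderingRel a b) ∧
      ∀ u ∈ Kl (V := V) K, ∀ [Decidable (a = u)] [Decidable (b = u)],
        bt F K u x.1 = (1 - s) * (if a = u then 1 else 0) + s * (if b = u then 1 else 0) := by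
  classical
  obtain ⟨p, q, hpq, s, hs, rfl⟩ := F.exists_emb x
  have h1 : ∀ u ∈ Kl (V := V) K, ∀ [Decidable (cl F K p = u)] [Decidable (cl F K q = u)],
      bt F K u (F.sg p q s) =
      (1 - s) * (if cl F K p = u then 1 else 0) + s * (if cl F K q = u then 1 else 0) := by
    intro u hu _ _
    rw [bt_sg, bt_pt F K p u hu, bt_pt F K q u hu]
    congr
  by_cases hab : cl F K p = cl F K q
  · exact ⟨_, cl_mem F K p, _, cl_mem F K q, s, hs, Or.inl hab, h1⟩
  · rcases trichotomous_of WellOrderingRel (cl F K p) (cl F K q) with h2 | h2 | h2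
    · exact ⟨_, cl_mem F K p, _, cl_mem F K q, s, hs, Or.inr h2, h1⟩
    · exact absurd h2 hab
    · refine ⟨_, cl_mem F K q, _, cl_mem F K p, 1 - s, ⟨by linarith [hs.2], by linarith [hs.1]⟩,
        Or.inr h2, ?_⟩
      intro u hu _ _
      rw [F.emb_val, h1 u hu]
      ring


private theorem bt_facts (x : F.X) {u u' : V ⊕ Z} (hu : u ∈ Kl (V := V) K)
    (hu' : u' ∈ Kl (V := V) K) (hne : u ≠ u') :
    0 ≤ bt F K u x.1 ∧ bt F K u x.1 ≤ 1 ∧ bt F K u x.1 + bt F K u' x.1 ≤ 1 ∧
      (0 < bt F K u x.1 → 0 < bt F K u' x.1 → bt F K u x.1 + bt F K u' x.1 = 1 ∧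
        ∀ u'' ∈ Kl (V := V) K, u'' ≠ u → u'' ≠ u' → bt F K u'' x.1 = 0) := by
  classical
  obtain ⟨a, ha, b, hb, s, hs, -, hf⟩ := bt_form F K x
  have hs0 := hs.1
  have hs1 := hs.2
  rw [hf u hu, hf u' hu']
  have h3 : ∀ u'' ∈ Kl (V := V) K, bt F K u'' x.1 =
      (1 - s) * (if a = u'' then 1 else 0) + s * (if b = u'' then 1 else 0) := fun u'' h => hf u'' h
  by_cases h1 : a = u <;> by_cases h2 : b = u <;> by_cases h1' : a = u' <;> by_cases h2' : b = u' <;>
    first
    | exact absurd (h1.symm.trans h1') hne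
    | exact absurd (h2.symm.trans h2') hne
    | (simp only [h1, h2, h1', h2', if_true, if_false, if_pos, if_neg, not_false_eq_true, hne,
        hne.symm]
       refine ⟨by nlinarith, by nlinarith, by nlinarith, fun e1 e2 => ?_⟩
       first
       | (exfalso; nlinarith)
       | (refine ⟨by nlinarith, fun u'' hu'' n1 n2 => ?_⟩
          rw [h3 u'' hu'']
          first
          | (rw [if_neg (by rw [h1]; exact n1.symm), if_neg (by rw [h2']; exact n2.symm)]; ring)
          | (rw [if_neg (by rw [h1']; exact n2.symm), if_neg (by rw [h2]; exact n1.symm)]; ring)))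

/-- the first kind of sets -/
private def fA (N : ℕ) (u : V ⊕ Z) : Set F.X := {x | 1 - 2 / (3 * (N : ℝ)) < bt F K u x.1}

/-- the second kind of sets -/
private def fB (N : ℕ) (u u' : V ⊕ Z) (j : ℕ) : Set F.X :=
  {x | 0 < bt F K u x.1 ∧ 0 < bt F K u' x.1 ∧ |bt F K u' x.1 - j / N| < 2 / (3 * (N : ℝ))}

private theorem fA_open (N : ℕ) (u : V ⊕ Z) : IsOpen (fA F K N u) :=
  isOpen_lt continuous_const (bt_cont F K u)

private theorem fB_open (N : ℕ) (u u' : V ⊕ Z) (j : ℕ) : IsOpen (fB F K N u u' j) :=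
  (isOpen_lt continuous_const (bt_cont F K u)).inter
    ((isOpen_lt continuous_const (bt_cont F K u')).inter
      (isOpen_lt (((bt_cont F K u').sub continuous_const).abs) continuous_const))

/-- the members of the cover -/
private def Fam (N : ℕ) (S : Set F.X) : Prop :=
  (∃ u ∈ Kl (V := V) K, S = fA F K N u) ∨
    ∃ u ∈ Kl (V := V) K, ∃ u' ∈ Kl (V := V) K, WellOrderingRel u u' ∧
      ∃ j, 1 ≤ j ∧ j < N ∧ S = fB F K N u u' j

private theorem Kl_finite [Finite V] : (Kl (V := V) K).Finite := by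
  refine ((Set.finite_range (Sum.inl : V → V ⊕ Z)).union
    ((K.finite_toSet).image (Sum.inr : Z → V ⊕ Z))).subset ?_
  intro u hu
  cases u with
  | inl v => exact Or.inl ⟨v, rfl⟩
  | inr z => exact Or.inr ⟨z, hu z rfl, rfl⟩

private theorem Fam_finite [Finite V] (N : ℕ) : {S | Fam F K N S}.Finite := by
  have h1 : ((fun u => fA F K N u) '' Kl (V := V) K).Finite := (Kl_finite K).image _
  have h2 : ((fun e : ((V ⊕ Z) × (V ⊕ Z)) × ℕ => fB F K N e.1.1 e.1.2 e.2) ''
      ((Kl (V := V) K ×ˢ Kl (V := V) K) ×ˢ Set.Iio N)).Finite :=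
    (((Kl_finite K).prod (Kl_finite K)).prod (Set.finite_Iio N)).image _
  refine (h1.union h2).subset ?_
  rintro S (⟨u, hu, rfl⟩ | ⟨u, hu, u', hu', -, j, -, hj, rfl⟩)
  · exact Or.inl ⟨u, hu, rfl⟩
  · exact Or.inr ⟨((u, u'), j), ⟨⟨hu, hu'⟩, hj⟩, rfl⟩

private theorem Fam_open {N : ℕ} {S : Set F.X} (h : Fam F K N S) : IsOpen S := by
  rcases h with ⟨u, -, rfl⟩ | ⟨u, -, u', -, -, j, -, -, rfl⟩
  · exact fA_open F K N u
  · exact fB_open F K N u u' j

open scoped Classical in
/-- the members at a point -/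
private theorem Fam_form {N : ℕ} (hN : 1 ≤ N) (x : F.X) : ∃ (s : ℝ) (R : ℕ → Set F.X),
    ∀ S, Fam F K N S → x ∈ S → ∃ j : ℕ, |s - j / N| < 2 / (3 * (N : ℝ)) ∧ S = R j := by
  classical
  have hN' : (1 : ℝ) ≤ N := by exact_mod_cast hN
  have hN0 : (0 : ℝ) < N := by linarith
  have hδ : 2 / (3 * (N : ℝ)) ≤ 2 / 3 := by
    rw [div_le_div_iff₀ (by positivity) (by norm_num)]
    nlinarith
  have hδ0 : 0 < 2 / (3 * (N : ℝ)) := by positivity
  obtain ⟨a, ha, b, hb, s, hs, hab, hf⟩ := bt_form F K x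
  have hs0 := hs.1
  have hs1 := hs.2
  rcases hab with rfl | hab
  · refine ⟨0, fun _ => fA F K N a, ?_⟩
    rintro S (⟨u, hu, rfl⟩ | ⟨u, hu, u', hu', hw, j, -, -, rfl⟩) hx
    · refine ⟨0, by simpa using hδ0, ?_⟩
      by_cases h1 : a = u
      · rw [h1]
      · exfalso
        have h2 : 1 - 2 / (3 * (N : ℝ)) < bt F K u x.1 := hx
        rw [hf u hu, if_neg h1] at h2
        linarith
    · exfalso
      have h2 : 0 < bt F K u x.1 := hx.1
      have h3 : 0 < bt F K u' x.1 := hx.2.1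
      have h4 : a = u := by
        by_contra h5
        rw [hf u hu, if_neg h5] at h2
        linarith
      have h5 : a = u' := by
        by_contra h5
        rw [hf u' hu', if_neg h5] at h3
        linarith
      rw [← h4, ← h5] at hw
      exact irrefl_of WellOrderingRel a hw
  · have hne : a ≠ b := by
      rintro rfl
      exact irrefl_of WellOrderingRel a hab
    refine ⟨s, fun j => if j = 0 then fA F K N a else if j = N then fA F K N b
      else fB F K N a b j, ?_⟩
    rintro S (⟨u, hu, rfl⟩ | ⟨u, hu, u', hu', hw, j, hj1, hjN, rfl⟩) hx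
    · have h2 : 1 - 2 / (3 * (N : ℝ)) < bt F K u x.1 := hx
      rw [hf u hu] at h2
      by_cases h1 : a = u
      · subst h1
        refine ⟨0, ?_, by simp⟩
        rw [if_pos rfl, if_neg hne.symm] at h2
        rw [Nat.cast_zero, zero_div, sub_zero, abs_of_nonneg hs0]
        linarith
      · by_cases h3 : b = u
        · subst h3
          refine ⟨N, ?_, ?_⟩
          · rw [if_neg hne, if_pos rfl] at h2
            rw [div_self hN0.ne', abs_of_nonpos (by linarith)]
            linarith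
          · have : N ≠ 0 := by omega
            simp [this]
        · exfalso
          rw [if_neg h1, if_neg h3] at h2
          linarith
    · have h2 : 0 < bt F K u x.1 := hx.1
      have h3 : 0 < bt F K u' x.1 := hx.2.1
      have h4 : |bt F K u' x.1 - j / N| < 2 / (3 * (N : ℝ)) := hx.2.2
      rw [hf u hu] at h2
      rw [hf u' hu'] at h3 h4
      have huu : u ≠ u' := by
        rintro rfl
        exact irrefl_of WellOrderingRel u hw
      have h5 : a = u ∨ b = u := by
        by_contra hc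
        push Not at hc
        rw [if_neg hc.1, if_neg hc.2] at h2
        linarith
      have h6 : a = u' ∨ b = u' := by
        by_contra hc
        push Not at hc
        rw [if_neg hc.1, if_neg hc.2] at h3
        linarith
      rcases h5 with h5 | h5 <;> rcases h6 with h6 | h6
      · exact absurd (h5.symm.trans h6) huu
      · subst h5 h6
        refine ⟨j, ?_, ?_⟩
        · rw [if_neg hne, if_pos rfl] at h4
          simpa using h4
        · have e1 : j ≠ 0 := by omega
          have e2 : j ≠ N := by omega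
          simp [e1, e2]
      · subst h5 h6
        exact absurd hw (asymm_of WellOrderingRel hab)
      · exact absurd (h5.symm.trans h6) huu

private theorem Fam_order {N : ℕ} (hN : 1 ≤ N) (x : F.X) {S₁ S₂ S₃ : Set F.X}
    (h1 : Fam F K N S₁) (h2 : Fam F K N S₂) (h3 : Fam F K N S₃) (x1 : x ∈ S₁) (x2 : x ∈ S₂)
    (x3 : x ∈ S₃) : S₁ = S₂ ∨ S₁ = S₃ ∨ S₂ = S₃ := by
  obtain ⟨s, R, hR⟩ := Fam_form F K hN x
  obtain ⟨j1, e1, r1⟩ := hR S₁ h1 x1
  obtain ⟨j2, e2, r2⟩ := hR S₂ h2 x2
  obtain ⟨j3, e3, r3⟩ := hR S₃ h3 x3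
  have hN0 : (0 : ℝ) < N := by exact_mod_cast hN
  have key : ∀ i j : ℕ, |s - i / N| < 2 / (3 * (N : ℝ)) → |s - j / N| < 2 / (3 * (N : ℝ)) →
      j < i + 2 := by
    intro i j hi hj
    have h4 : ((j : ℝ) - i) / N < 4 / (3 * N) := by
      have h5 := (abs_lt.1 hi).2
      have h6 := (abs_lt.1 hj).1
      have h7 : 4 / (3 * (N : ℝ)) = 2 / (3 * (N : ℝ)) + 2 / (3 * (N : ℝ)) := by ring
      rw [h7, sub_div]
      linarith
    have h5 : (j : ℝ) - i < 2 := by
      rw [div_lt_div_iff₀ hN0 (by positivity)] at h4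
      nlinarith
    have h6 : (j : ℝ) < ((i + 2 : ℕ) : ℝ) := by
      push_cast
      linarith
    exact_mod_cast h6
  have a12 := key _ _ e1 e2
  have a21 := key _ _ e2 e1
  have a13 := key _ _ e1 e3
  have a31 := key _ _ e3 e1
  have a23 := key _ _ e2 e3
  have a32 := key _ _ e3 e2
  by_cases h12 : j1 = j2
  · left
    rw [r1, r2, h12]
  by_cases h13 : j1 = j3
  · right; left
    rw [r1, r3, h13]
  · right; right
    have : j2 = j3 := by omega
    rw [r2, r3, this]

private theorem Fam_cover {N : ℕ} (hN : 1 ≤ N) (x : F.X) : ∃ S, Fam F K N S ∧ x ∈ S := by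
  classical
  have hN' : (1 : ℝ) ≤ N := by exact_mod_cast hN
  have hN0 : (0 : ℝ) < N := by linarith
  have hδ0 : 0 < 2 / (3 * (N : ℝ)) := by positivity
  obtain ⟨a, ha, b, hb, s, hs, hab, hf⟩ := bt_form F K x
  have hs0 := hs.1
  have hs1 := hs.2
  rcases hab with rfl | hab
  · refine ⟨_, Or.inl ⟨a, ha, rfl⟩, ?_⟩
    show 1 - 2 / (3 * (N : ℝ)) < bt F K a x.1
    rw [hf a ha, if_pos rfl]
    linarith
  · have hne : a ≠ b := by
      rintro rfl
      exact irrefl_of WellOrderingRel a hab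
    have ea : bt F K a x.1 = 1 - s := by
      rw [hf a ha, if_pos rfl, if_neg hne.symm]
      ring
    have eb : bt F K b x.1 = s := by
      rw [hf b hb, if_pos rfl, if_neg hne]
      ring
    obtain ⟨j, hj⟩ : ∃ j : ℕ, |s * N - j| ≤ 1 / 2 := by
      have h0 : 0 ≤ round (s * N) := by
        rw [round_eq]
        apply Int.floor_nonneg.2
        positivity
      obtain ⟨j, hj⟩ := Int.eq_ofNat_of_zero_le h0
      refine ⟨j, ?_⟩
      have h1 := abs_sub_round (s * (N : ℝ))
      rw [hj] at h1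
      simpa using h1
    have hj1 := (abs_le.1 hj).1
    have hj2 := (abs_le.1 hj).2
    have hsj : |s - j / N| < 2 / (3 * (N : ℝ)) := by
      have h1 : s - j / N = (s * N - j) / N := by field_simp
      rw [h1, abs_div, abs_of_pos hN0, div_lt_div_iff₀ hN0 (by positivity)]
      nlinarith
    by_cases h0 : j = 0
    · refine ⟨_, Or.inl ⟨a, ha, rfl⟩, ?_⟩
      show 1 - 2 / (3 * (N : ℝ)) < bt F K a x.1
      rw [ea]
      rw [h0, Nat.cast_zero, zero_div, sub_zero, abs_of_nonneg hs0] at hsj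
      linarith
    · by_cases h1 : N ≤ j
      · refine ⟨_, Or.inl ⟨b, hb, rfl⟩, ?_⟩
        show 1 - 2 / (3 * (N : ℝ)) < bt F K b x.1
        rw [eb]
        have h2 : (N : ℝ) ≤ j := by exact_mod_cast h1
        have h3 : 1 ≤ (j : ℝ) / N := by
          rw [le_div_iff₀ hN0]
          linarith
        have h4 := (abs_lt.1 hsj).1
        linarith
      · push Not at h1
        refine ⟨_, Or.inr ⟨a, ha, b, hb, hab, j, by omega, h1, rfl⟩, ?_, ?_, ?_⟩
        · rw [ea]
          have h2 : (j : ℝ) + 1 ≤ N := by exact_mod_cast h1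
          by_contra hc
          push Not at hc
          have : s = 1 := by linarith
          rw [this] at hj1 hj2
          linarith
        · rw [eb]
          have h2 : (1 : ℝ) ≤ j := by exact_mod_cast (by omega : 1 ≤ j)
          by_contra hc
          push Not at hc
          have : s = 0 := by linarith
          rw [this] at hj1 hj2
          linarith
        · rw [eb]
          exact hsj

private theorem Fam_small {N : ℕ} (hN : 1 ≤ N) {S : Set F.X} (h : Fam F K N S) {x y : F.X}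
    (hx : x ∈ S) (hy : y ∈ S) {u : V ⊕ Z} (hu : u ∈ Kl (V := V) K) :
    |bt F K u x.1 - bt F K u y.1| < 4 / (3 * (N : ℝ)) := by
  have hN0 : (0 : ℝ) < N := by exact_mod_cast hN
  have hδ0 : 0 < 2 / (3 * (N : ℝ)) := by positivity
  have h4 : 4 / (3 * (N : ℝ)) = 2 / (3 * (N : ℝ)) + 2 / (3 * (N : ℝ)) := by ring
  rw [h4]
  rcases h with ⟨w, hw, rfl⟩ | ⟨w, hw, w', hw', hww, j, -, -, rfl⟩
  · have hx' : 1 - 2 / (3 * (N : ℝ)) < bt F K w x.1 := hx
    have hy' : 1 - 2 / (3 * (N : ℝ)) < bt F K w y.1 := hy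
    by_cases huw : u = w
    · subst huw
      have h1 : ∀ z : F.X, bt F K u z.1 ≤ 1 := by
        classical
        intro z
        obtain ⟨a, ha, b, hb, s, hs, -, hf⟩ := bt_form F K z
        have hs0 := hs.1
        have hs1 := hs.2
        rw [hf u hu]
        split_ifs <;> linarith
      have h2 := h1 x
      have h3 := h1 y
      rw [abs_lt]
      constructor <;> linarith
    · have h2 := bt_facts F K x hu hw huw
      have h3 := bt_facts F K y hu hw huw
      rw [abs_lt]
      constructor <;> linarith [h2.1, h2.2.2.1, h3.1, h3.2.2.1]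
  · have hne : w ≠ w' := by
      rintro rfl
      exact irrefl_of WellOrderingRel w hww
    have h2 := (bt_facts F K x hw hw' hne).2.2.2 hx.1 hx.2.1
    have h3 := (bt_facts F K y hw hw' hne).2.2.2 hy.1 hy.2.1
    have h5 := abs_lt.1 hx.2.2
    have h6 := abs_lt.1 hy.2.2
    by_cases e1 : u = w
    · subst e1
      rw [abs_lt]
      constructor <;> linarith [h2.1, h3.1, h5.1, h5.2, h6.1, h6.2]
    · by_cases e2 : u = w'
      · subst e2
        rw [abs_lt]
        constructor <;> linarith [h5.1, h5.2, h6.1, h6.2]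
      · rw [h2.2 u hu e1 e2, h3.2 u hu e1 e2]
        simpa using (by positivity : 0 < 2 / (3 * (N : ℝ)) + 2 / (3 * (N : ℝ)))

end

theorem dim_le_one (F : Frame V Z) [Finite V] : DimLeOne F.X := by
  classical
  intro 𝒰 hU hcov
  have hcomp := F.compactSpace_X
  -- a finite set of coordinates and a positive number
  have hloc : ∀ x : F.X, ∃ (J : Finset (V ⊕ Z)) (η : ℝ), 0 < η ∧ ∃ U ∈ 𝒰, ∀ y : F.X,
      (∀ c ∈ J, |x.1 c - y.1 c| < 2 * η) → y ∈ U := by
    intro x
    have hx : x ∈ ⋃₀ (𝒰 : Set (Set F.X)) := by rw [hcov]; trivial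
    obtain ⟨U, hU𝒰, hxU⟩ := hx
    obtain ⟨W, hW, hWU⟩ := isOpen_induced_iff.1 (hU U hU𝒰)
    have hxW : x.1 ∈ W := by
      have : x ∈ Subtype.val ⁻¹' W := by rw [hWU]; exact hxU
      exact this
    rw [isOpen_pi_iff] at hW
    obtain ⟨J, u, hu, hJ⟩ := hW x.1 hxW
    have h1 : ∀ c ∈ J, ∃ η : ℝ, 0 < η ∧ ∀ t, |x.1 c - t| < 2 * η → t ∈ u c := by
      intro c hc
      obtain ⟨ε, hε, hb⟩ := Metric.isOpen_iff.1 (hu c hc).1 (x.1 c) (hu c hc).2
      refine ⟨ε / 2, by positivity, fun t ht => hb ?_⟩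
      rw [Metric.mem_ball, Real.dist_eq, abs_sub_comm]
      linarith
    choose! η hη using h1
    by_cases hJe : J.Nonempty
    · refine ⟨J, J.inf' hJe η, ?_, U, hU𝒰, ?_⟩
      · rw [Finset.lt_inf'_iff]
        exact fun c hc => (hη c hc).1
      · intro y hy
        have : y ∈ Subtype.val ⁻¹' W := by
          refine hJ fun c hc => ?_
          refine (hη c hc).2 _ (lt_of_lt_of_le (hy c hc) ?_)
          have := Finset.inf'_le η hc
          linarith
        rwa [hWU] at this
    · refine ⟨J, 1, one_pos, U, hU𝒰, fun y _ => ?_⟩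
      have : y ∈ Subtype.val ⁻¹' W := by
        refine hJ fun c hc => ?_
        exact absurd ⟨c, hc⟩ hJe
      rwa [hWU] at this
  choose J η hη U' hU' hUs using hloc
  have hopen : ∀ x : F.X, IsOpen {y : F.X | ∀ c ∈ J x, |x.1 c - y.1 c| < η x} := by
    intro x
    have : {y : F.X | ∀ c ∈ J x, |x.1 c - y.1 c| < η x} =
        ⋂ c ∈ J x, {y : F.X | |x.1 c - y.1 c| < η x} := by
      ext y
      simp
    rw [this]
    refine isOpen_biInter_finset fun c _ => ?_
    exact isOpen_lt ((continuous_const.sub (F.continuous_coord c)).abs) continuous_const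
  obtain ⟨t, ht⟩ := isCompact_univ.elim_finite_subcover
    (fun x : F.X => {y : F.X | ∀ c ∈ J x, |x.1 c - y.1 c| < η x}) hopen (by
      intro x _
      rw [Set.mem_iUnion]
      exact ⟨x, fun c _ => by simpa using hη x⟩)
  obtain ⟨ε, hε, hεt⟩ : ∃ ε : ℝ, 0 < ε ∧ ∀ x ∈ t, ε ≤ η x := by
    by_cases hte : t.Nonempty
    · exact ⟨t.inf' hte η, by rw [Finset.lt_inf'_iff]; exact fun x _ => hη x,
        fun x hx => Finset.inf'_le _ hx⟩
    · exact ⟨1, one_pos, fun x hx => absurd ⟨x, hx⟩ hte⟩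
  let J0 : Finset (V ⊕ Z) := t.biUnion J
  let K : Finset Z := J0.preimage Sum.inr (Sum.inr_injective.injOn)
  have hleb : ∀ x : F.X, ∃ U ∈ 𝒰, ∀ y : F.X, (∀ c ∈ J0, |x.1 c - y.1 c| < ε) → y ∈ U := by
    intro x
    have hx := ht (Set.mem_univ x)
    rw [Set.mem_iUnion₂] at hx
    obtain ⟨x0, hx0, hx1⟩ := hx
    refine ⟨U' x0, hU' x0, fun y hy => hUs x0 y fun c hc => ?_⟩
    have h1 : |x0.1 c - x.1 c| < η x0 := hx1 c hc
    have h2 := hy c (Finset.mem_biUnion.2 ⟨x0, hx0, hc⟩)
    have h3 := hεt x0 hx0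
    calc |x0.1 c - y.1 c| = |(x0.1 c - x.1 c) + (x.1 c - y.1 c)| := by ring_nf
      _ ≤ |x0.1 c - x.1 c| + |x.1 c - y.1 c| := abs_add_le _ _
      _ < 2 * η x0 := by linarith
  obtain ⟨N, hN1, hN⟩ : ∃ N : ℕ, 1 ≤ N ∧ ((K.card : ℝ) + 1) * (4 / (3 * (N : ℝ))) < ε := by
    obtain ⟨N, hN⟩ := exists_nat_gt (((K.card : ℝ) + 1) * 4 / (3 * ε))
    refine ⟨N + 1, by omega, ?_⟩
    have h1 : ((K.card : ℝ) + 1) * 4 / (3 * ε) < (N : ℝ) + 1 := by linarith
    rw [div_lt_iff₀ (by positivity)] at h1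
    have h2 : ((K.card : ℝ) + 1) * (4 / (3 * ((N + 1 : ℕ) : ℝ))) =
        (((K.card : ℝ) + 1) * 4) / (3 * ((N : ℝ) + 1)) := by
      push_cast
      ring
    rw [h2, div_lt_iff₀ (by positivity)]
    linarith
  have hsmall : ∀ S, Fam F K N S → ∀ x ∈ S, ∀ y ∈ S, ∀ c ∈ J0, |x.1 c - y.1 c| < ε := by
    intro S hS x hx y hy c hc
    have hz : ∀ z ∈ K, |x.1 (Sum.inr z) - y.1 (Sum.inr z)| < 4 / (3 * (N : ℝ)) := by
      intro z hzK
      exact Fam_small F K hN1 hS hx hy (u := Sum.inr z)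
        (fun z' hz' => by rwa [← Sum.inr_injective hz'])
    have h43 : 0 < 4 / (3 * (N : ℝ)) := by
      have : (0 : ℝ) < N := by exact_mod_cast hN1
      positivity
    cases c with
    | inr z =>
      have hzK : z ∈ K := by
        rw [Finset.mem_preimage]
        exact hc
      have h1 := hz z hzK
      have h2 : (0 : ℝ) ≤ K.card := by positivity
      nlinarith
    | inl v =>
      have h1 : |bt F K (Sum.inl v) x.1 - bt F K (Sum.inl v) y.1| < 4 / (3 * (N : ℝ)) :=
        Fam_small F K hN1 hS hx hy (u := Sum.inl v) (fun z' hz' => by simp at hz')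
      have h2 : ∀ w : V ⊕ Z → ℝ, w (Sum.inl v) = bt F K (Sum.inl v) w +
          ∑ z ∈ K with F.ρ z = v, w (Sum.inr z) := by
        intro w
        simp only [bt]
        ring
      rw [h2 x.1, h2 y.1]
      have h3 : |∑ z ∈ K with F.ρ z = v, x.1 (Sum.inr z) -
          ∑ z ∈ K with F.ρ z = v, y.1 (Sum.inr z)| ≤ K.card * (4 / (3 * (N : ℝ))) := by
        rw [← Finset.sum_sub_distrib]
        calc |∑ z ∈ K with F.ρ z = v, (x.1 (Sum.inr z) - y.1 (Sum.inr z))|
            ≤ ∑ z ∈ K with F.ρ z = v, |x.1 (Sum.inr z) - y.1 (Sum.inr z)| :=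
              Finset.abs_sum_le_sum_abs _ _
          _ ≤ ∑ z ∈ K, |x.1 (Sum.inr z) - y.1 (Sum.inr z)| :=
              Finset.sum_le_sum_of_subset_of_nonneg (Finset.filter_subset _ _)
                fun _ _ _ => abs_nonneg _
          _ ≤ ∑ _z ∈ K, 4 / (3 * (N : ℝ)) := Finset.sum_le_sum fun z hz' => (hz z hz').le
          _ = K.card * (4 / (3 * (N : ℝ))) := by rw [Finset.sum_const, nsmul_eq_mul]
      have h4 : |bt F K (Sum.inl v) x.1 + ∑ z ∈ K with F.ρ z = v, x.1 (Sum.inr z) -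
          (bt F K (Sum.inl v) y.1 + ∑ z ∈ K with F.ρ z = v, y.1 (Sum.inr z))| ≤
          |bt F K (Sum.inl v) x.1 - bt F K (Sum.inl v) y.1| +
          |∑ z ∈ K with F.ρ z = v, x.1 (Sum.inr z) -
            ∑ z ∈ K with F.ρ z = v, y.1 (Sum.inr z)| := by
        refine le_trans (le_of_eq ?_) (abs_add_le _ _)
        congr 1
        ring
      linarith
  refine ⟨(Fam_finite F K N).toFinset.filter fun S => S.Nonempty, ?_, ?_, ?_⟩
  · intro S hS
    rw [Finset.mem_filter, Set.Finite.mem_toFinset] at hS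
    obtain ⟨hS, x, hx⟩ := hS
    refine ⟨Fam_open F K hS, ?_⟩
    obtain ⟨U, hU, hUx⟩ := hleb x
    exact ⟨U, hU, fun y hy => hUx y (hsmall S hS x hx y hy)⟩
  · rw [Set.eq_univ_iff_forall]
    intro x
    obtain ⟨S, hS, hx⟩ := Fam_cover F K hN1 x
    refine ⟨S, ?_, hx⟩
    rw [Finset.mem_coe, Finset.mem_filter, Set.Finite.mem_toFinset]
    exact ⟨hS, x, hx⟩
  · intro x S₁ h1 S₂ h2 S₃ h3 x1 x2 x3
    rw [Finset.mem_filter, Set.Finite.mem_toFinset] at h1 h2 h3
    exact Fam_order F K hN1 x h1.1 h2.1 h3.1 x1 x2 x3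

end Pool.Agent.Work.MP_e7996b_gt
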