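import Pool.Agent.Work.MP_e7996b_gt.Basic

/-!
# Ray: compactifications of the ray by a finite graph

For a walk `ρ : ℕ → V` in `T` the frame `ray T ρ h` has the path with vertices `ℕ` as additional part of `Γ`.
`X` is `T` together with a ray which follows the walk `ρ`; it is not path connected, so not contractible.
-/

set_option autoImplicit false
set_option linter.unusedSectionVars false

namespace Pool.Agent.Work.MP_e7996b_gt

open Set Topology Filter

variable {V : Type}

/-- adjacency for the disjoint union of `T` and a ray -/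
def rayAdj (T : SimpleGraph V) : V ⊕ ℕ → V ⊕ ℕ → Prop
  | Sum.inl v, Sum.inl w => T.Adj v w
  | Sum.inr m, Sum.inr n => n = m + 1 ∨ m = n + 1
  | _, _ => False

/-- the disjoint union of the graph `T` and a ray which is mapped to `T` by the walk `ρ` -/
def ray (T : SimpleGraph V) (ρ : ℕ → V) (h : ∀ n, T.Adj (ρ n) (ρ (n + 1))) : Frame V ℕ where
  T := T
  Γ :=
    { Adj := rayAdj T
      symm := ⟨fun p q hpq => by
        cases p <;> cases q
        · exact SimpleGraph.Adj.symm (G := T) hpq
        · exact hpq
        · exact hpq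
        · exact Or.symm hpq⟩
      loopless := ⟨fun p hp => by
        cases p with
        | inl v => exact T.loopless.irrefl v hp
        | inr n =>
          rcases hp with hp | hp <;> omega⟩ }
  ρ := ρ
  sub := fun _ _ hvw => hvw
  deg := fun n => by
    refine (Set.toFinite {Sum.inr (n + 1), Sum.inr (n - 1)}).subset ?_
    rintro (v | m) hm
    · exact hm.elim
    · rcases hm with hm | hm
      · left
        rw [hm]
      · right
        have : n - 1 = m := by omega
        rw [this]
        rfl
  bad := by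
    refine Set.Finite.subset Set.finite_empty ?_
    rintro ⟨p, q⟩ ⟨hpq, hbad⟩
    exfalso
    apply hbad
    rcases p with v | m <;> rcases q with w | n
    · exact hpq
    · exact hpq.elim
    · exact hpq.elim
    · rcases hpq with hpq | hpq
      · show T.Adj (ρ m) (ρ n)
        rw [hpq]
        exact h m
      · show T.Adj (ρ m) (ρ n)
        rw [hpq]
        exact (h n).symm

section

variable {T : SimpleGraph V} {ρ : ℕ → V} {h : ∀ n, T.Adj (ρ n) (ρ (n + 1))}

/-- the position on the ray, cut off at `n` -/
private noncomputable def pos (n : ℕ) (x : V ⊕ ℕ → ℝ) : ℝ :=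
  n - ∑ k ∈ Finset.range n, ((n : ℝ) - k) * x (Sum.inr k)

private theorem pos_pt_inl (n : ℕ) (v : V) : pos n ((ray T ρ h).pt (Sum.inl v)) = n := by
  classical
  unfold pos
  rw [Finset.sum_eq_zero, sub_zero]
  intro k _
  rw [Frame.pt_inr, if_neg (by simp), mul_zero]

private theorem pos_pt_inr (n m : ℕ) :
    pos n ((ray T ρ h).pt (Sum.inr m)) = if m < n then (m : ℝ) else n := by
  classical
  unfold pos
  have h1 : ∀ k, ((n : ℝ) - k) * (ray T ρ h).pt (Sum.inr m) (Sum.inr k) =
      if m = k then (n : ℝ) - k else 0 := by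
    intro k
    rw [Frame.pt_inr]
    by_cases hk : m = k
    · simp [hk]
    · simp [hk]
  simp_rw [h1]
  rw [Finset.sum_ite_eq]
  simp only [Finset.mem_range]
  split_ifs
  · ring
  · ring

private theorem pos_sg (n : ℕ) (p q : V ⊕ ℕ) (s : ℝ) : pos n ((ray T ρ h).sg p q s) =
    (1 - s) * pos n ((ray T ρ h).pt p) + s * pos n ((ray T ρ h).pt q) := by
  unfold pos
  simp_rw [Frame.sg_apply]
  have : ∀ k, ((n : ℝ) - k) * ((1 - s) * (ray T ρ h).pt p (Sum.inr k) +
      s * (ray T ρ h).pt q (Sum.inr k)) = (1 - s) * (((n : ℝ) - k) *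
      (ray T ρ h).pt p (Sum.inr k)) + s * (((n : ℝ) - k) * (ray T ρ h).pt q (Sum.inr k)) := by
    intro k
    ring
  simp_rw [this]
  rw [Finset.sum_add_distrib, ← Finset.mul_sum, ← Finset.mul_sum]
  ring

private theorem pos_cont (n : ℕ) : Continuous fun x : (ray T ρ h).X => pos n x.1 := by
  unfold pos
  exact continuous_const.sub (continuous_finsetSum _ fun k _ =>
    continuous_const.mul ((ray T ρ h).continuous_coord _))

/-- a point with position `n` is the vertex `n` -/
private theorem eq_vx (n : ℕ) (x : (ray T ρ h).X) (hx : pos (n + 1) x.1 = n) :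
    x.1 = (ray T ρ h).pt (Sum.inr n) := by
  have hsucc : ∀ m : ℕ, pos (n + 1) ((ray T ρ h).pt (Sum.inr m)) =
      if m < n + 1 then (m : ℝ) else ((n + 1 : ℕ) : ℝ) := fun m => pos_pt_inr (n + 1) m
  have key : ∀ m : ℕ, ∀ s ∈ Icc (0 : ℝ) 1,
      pos (n + 1) ((ray T ρ h).sg (Sum.inr m) (Sum.inr (m + 1)) s) = n →
      (ray T ρ h).sg (Sum.inr m) (Sum.inr (m + 1)) s = (ray T ρ h).pt (Sum.inr n) := by
    intro m s hs he
    rw [pos_sg, hsucc, hsucc] at he
    rcases lt_trichotomy m n with hm | hm | hm
    · rw [if_pos (by omega), if_pos (by omega)] at he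
      have h2 : (m : ℝ) + 1 ≤ n := by exact_mod_cast hm
      have h3 : s = 1 := by
        push_cast at he
        have := hs.2
        nlinarith
      subst h3
      have h4 : (m : ℝ) + 1 = n := by
        push_cast at he
        linarith
      have h5 : m + 1 = n := by exact_mod_cast h4
      rw [Frame.sg_one, h5]
    · subst hm
      rw [if_pos (by omega), if_neg (by omega)] at he
      have h3 : s = 0 := by
        push_cast at he
        linarith
      subst h3
      rw [Frame.sg_zero]
    · exfalso
      rw [if_neg (by omega), if_neg (by omega)] at he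
      push_cast at he
      linarith
  obtain ⟨p, q, hpq, s, hs, rfl⟩ := (ray T ρ h).exists_emb x
  rw [Frame.emb_val] at hx ⊢
  rcases p with v | m <;> rcases q with w | k
  · exfalso
    rw [pos_sg, pos_pt_inl, pos_pt_inl] at hx
    push_cast at hx
    linarith
  · exfalso
    rcases hpq with hpq | hpq
    · cases hpq
    · exact hpq
  · exfalso
    rcases hpq with hpq | hpq
    · cases hpq
    · exact hpq
  · rcases hpq with hpq | hpq
    · have hmk : m = k := Sum.inr_injective hpq
      subst hmk
      rw [Frame.sg_self] at hx ⊢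
      rw [hsucc] at hx
      split_ifs at hx with h1
      · have : m = n := by exact_mod_cast hx
        rw [this]
      · exfalso
        push_cast at hx
        linarith
    · rcases hpq with hpq | hpq
      · subst hpq
        exact key m s hs hx
      · subst hpq
        rw [← Frame.sg_symm] at hx ⊢
        exact key k (1 - s) ⟨by linarith [hs.2], by linarith [hs.1]⟩ hx

theorem ray_not_contractible [Finite V] (T : SimpleGraph V) (ρ : ℕ → V) (h : ∀ n, T.Adj (ρ n) (ρ (n + 1))) :
    ¬ ContractibleSpace (ray T ρ h).X := by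
  classical
  intro hcon
  let F := ray T ρ h
  obtain ⟨γ⟩ : Joined (F.vx (Sum.inr 0)) (F.vx (Sum.inl (ρ 0))) :=
    (inferInstance : PathConnectedSpace F.X).joined _ _
  let A : ℕ → Set unitInterval := fun n => {t | (n : ℝ) ≤ pos (n + 1) (γ t).1}
  have hAc : ∀ n, IsClosed (A n) := fun n =>
    isClosed_le continuous_const ((pos_cont (n + 1)).comp γ.continuous)
  have hA1 : ∀ n, (1 : unitInterval) ∈ A n := by
    intro n
    show (n : ℝ) ≤ pos (n + 1) (γ 1).1
    rw [γ.target, Frame.vx_val, pos_pt_inl]
    push_cast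
    linarith
  have hmono : ∀ n, A (n + 1) ⊆ A n := by
    intro n t ht
    have h1 : ((n + 1 : ℕ) : ℝ) ≤ pos (n + 1 + 1) (γ t).1 := ht
    show (n : ℝ) ≤ pos (n + 1) (γ t).1
    obtain ⟨p, q, hpq, s, hs, he⟩ := F.exists_emb (γ t)
    have hs0 := hs.1
    have hs1 := hs.2
    have h2 : ∀ c, pos (n + 1 + 1) (F.pt c) ≤ pos (n + 1) (F.pt c) + 1 := by
      intro c
      rcases c with v | m
      · rw [pos_pt_inl, pos_pt_inl]
        push_cast
        linarith
      · rw [pos_pt_inr, pos_pt_inr]
        split_ifs with h3 h4 h4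
        · linarith
        · have h5 : (m : ℝ) < n + 1 + 1 := by exact_mod_cast h3
          push_cast
          have : m = n + 1 := by omega
          rw [this]
          push_cast
          linarith
        · omega
        · push_cast
          linarith
    rw [he, Frame.emb_val, pos_sg] at h1 ⊢
    have h3 := h2 p
    have h4 := h2 q
    push_cast at h1
    nlinarith
  have hne : ∀ n, (A n).Nonempty := fun n => ⟨1, hA1 n⟩
  choose u hu using fun n => (hAc n).isCompact.exists_isLeast (hne n)
  have humono : Monotone u := monotone_nat_of_le_succ fun n => (hu n).2 (hmono n (hu (n + 1)).1)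
  have hpt : ∀ n, (γ (u n)).1 = F.pt (Sum.inr n) := by
    intro n
    apply eq_vx
    refine le_antisymm ?_ (hu n).1
    by_contra hc
    push Not at hc
    -- there is an earlier time with value exactly `n`
    have hcont : ContinuousOn (fun t : unitInterval => pos (n + 1) (γ t).1) (Icc 0 (u n)) :=
      ((pos_cont (n + 1)).comp γ.continuous).continuousOn
    have h0 : pos (n + 1) (γ 0).1 = 0 := by
      rw [γ.source, Frame.vx_val, pos_pt_inr, if_pos (by omega)]
      simp
    have hmem : (n : ℝ) ∈ Icc (pos (n + 1) (γ 0).1) (pos (n + 1) (γ (u n)).1) := by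
      rw [h0]
      exact ⟨by positivity, hc.le⟩
    obtain ⟨t, ht, hte⟩ := intermediate_value_Icc (unitInterval.nonneg' : (0 : unitInterval) ≤ u n)
      hcont hmem
    have h1 : t ∈ A n := le_of_eq hte.symm
    have h2 : t = u n := le_antisymm ht.2 ((hu n).2 h1)
    rw [h2] at hte
    have h3 : pos (n + 1) (γ (u n)).1 = n := hte
    linarith
  -- convergence
  have hlim : Tendsto u atTop (𝓝 (⨆ n, u n)) := tendsto_atTop_ciSup humono ⟨1, by
    rintro _ ⟨n, rfl⟩
    exact unitInterval.le_one'⟩
  have hγ : Tendsto (fun n => γ (u n)) atTop (𝓝 (γ (⨆ n, u n))) :=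
    (γ.continuous.tendsto _).comp hlim
  have hco : ∀ v : V, Tendsto (fun n => (γ (u n)).1 (Sum.inl v)) atTop
      (𝓝 ((γ (⨆ n, u n)).1 (Sum.inl v))) := fun v =>
    ((F.continuous_coord _).tendsto _).comp hγ
  -- the coordinate is 1 for `v = ρ n` and 0 for `v = ρ (n + 1)`
  have hval : ∀ n v, (γ (u n)).1 (Sum.inl v) = if ρ n = v then 1 else 0 := by
    intro n v
    rw [hpt n, Frame.pt_inl]
    rfl
  have hev : ∀ v : V, ∀ᶠ n in atTop, (ρ n = v ↔ ρ (n + 1) = v) := by
    intro v
    have h1 : ∀ᶠ n in atTop, |(γ (u n)).1 (Sum.inl v) - (γ (⨆ n, u n)).1 (Sum.inl v)| < 1 / 2 := by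
      have := (Metric.tendsto_atTop.1 (hco v)) (1 / 2) (by norm_num)
      obtain ⟨N, hN⟩ := this
      filter_upwards [eventually_ge_atTop N] with n hn
      have := hN n hn
      rwa [Real.dist_eq] at this
    have h2 := (tendsto_add_atTop_nat 1).eventually h1
    filter_upwards [h1, h2] with n e1 e2
    rw [hval] at e1 e2
    by_contra hc
    rw [abs_lt] at e1 e2
    by_cases h3 : ρ n = v
    · have h4 : ρ (n + 1) ≠ v := fun h4 => hc ⟨fun _ => h4, fun _ => h3⟩
      rw [if_pos h3] at e1
      rw [if_neg h4] at e2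
      linarith [e1.1, e1.2, e2.1, e2.2]
    · have h4 : ρ (n + 1) = v := by
        by_contra h4
        exact hc ⟨fun h => absurd h h3, fun h => absurd h h4⟩
      rw [if_neg h3] at e1
      rw [if_pos h4] at e2
      linarith [e1.1, e1.2, e2.1, e2.2]
  obtain ⟨n, hn⟩ := (Filter.eventually_all.2 hev).exists
  have h1 : ρ (n + 1) = ρ n := (hn (ρ n)).1 rfl
  exact (h n).ne h1.symm

private theorem ray_edge {F : Frame V ℕ} {f : F.X → Bool} (hf : Continuous f) {p q : V ⊕ ℕ}
    (hpq : F.Nb p q) {s : ℝ} (hs : s ∈ Icc (0 : ℝ) 1) : f (F.emb hpq hs) = f (F.vx p) := by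
  have h1 : Continuous fun t : Icc (0 : ℝ) 1 => f (F.emb hpq t.2) := hf.comp (F.continuous_emb hpq)
  have h2 := PreconnectedSpace.constant inferInstance h1 (x := ⟨s, hs⟩) (y := ⟨0, by simp⟩)
  rw [← F.emb_zero hpq (by simp)]
  exact h2

private theorem ray_edge' {F : Frame V ℕ} {f : F.X → Bool} (hf : Continuous f) {p q : V ⊕ ℕ}
    (hpq : F.Nb p q) : f (F.vx q) = f (F.vx p) := by
  rw [← F.emb_one hpq (by simp)]
  exact ray_edge hf hpq _

theorem ray_connected [Finite V] (T : SimpleGraph V) (hT : T.Connected) (ρ : ℕ → V)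
    (h : ∀ n, T.Adj (ρ n) (ρ (n + 1))) : ConnectedSpace (ray T ρ h).X := by
  classical
  let F := ray T ρ h
  have hall : ∀ f : F.X → Bool, Continuous f → ∀ x y, f x = f y := by
    intro f hf
    have hTc : ∀ v w, f (F.vx (Sum.inl v)) = f (F.vx (Sum.inl w)) := by
      intro v w
      obtain ⟨p⟩ := hT.preconnected v w
      induction p with
      | nil => rfl
      | @cons a b _ hadj _ ih =>
        rw [← ih]
        exact (ray_edge' (F := F) (p := Sum.inl a) (q := Sum.inl b) hf (Or.inr hadj)).symm
    have hR : ∀ n, f (F.vx (Sum.inr n)) = f (F.vx (Sum.inr 0)) := by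
      intro n
      induction n with
      | zero => rfl
      | succ n ih =>
        rw [← ih]
        exact ray_edge' hf (Or.inr (Or.inl rfl))
    obtain ⟨v, hv⟩ := Finite.exists_infinite_fiber ρ
    have hinf : (ρ ⁻¹' {v}).Infinite := Set.infinite_coe_iff.1 hv
    have hlim : Tendsto (fun n : ℕ => F.vx (Sum.inr (Nat.nth (fun n => ρ n = v) n))) atTop
        (𝓝 (F.vx (Sum.inl v))) := by
      have hnth : ∀ n, ρ (Nat.nth (fun n => ρ n = v) n) = v := fun n =>
        Nat.nth_mem_of_infinite hinf n
      have hmono : StrictMono (Nat.nth fun n => ρ n = v) := Nat.nth_strictMono hinf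
      rw [tendsto_subtype_rng, tendsto_pi_nhds]
      intro c
      simp only [Frame.vx_val]
      rcases c with u | k
      · have h1 : ∀ n, F.pt (Sum.inr (Nat.nth (fun n => ρ n = v) n)) (Sum.inl u) =
            F.pt (Sum.inl v) (Sum.inl u) := by
          intro n
          rw [Frame.pt_inl, Frame.pt_inl]
          show (if ρ (Nat.nth (fun n => ρ n = v) n) = u then (1 : ℝ) else 0) =
            if v = u then 1 else 0
          rw [hnth n]
        simp_rw [h1]
        exact tendsto_const_nhds
      · have h1 : F.pt (Sum.inl v) (Sum.inr k) = 0 := by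
          rw [Frame.pt_inr, if_neg (by simp)]
        rw [h1]
        refine tendsto_const_nhds.congr' ?_
        filter_upwards [eventually_gt_atTop k] with n hn
        rw [Frame.pt_inr, if_neg]
        intro h2
        have h3 : Nat.nth (fun n => ρ n = v) n = k := Sum.inr_injective h2
        have h4 : n ≤ Nat.nth (fun n => ρ n = v) n := hmono.id_le n
        omega
    have hTR : f (F.vx (Sum.inl v)) = f (F.vx (Sum.inr 0)) := by
      have h1 := (hf.tendsto _).comp hlim
      have h2 : (f ∘ fun n : ℕ => F.vx (Sum.inr (Nat.nth (fun n => ρ n = v) n))) =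
          fun _ => f (F.vx (Sum.inr 0)) := by
        funext n
        exact hR _
      rw [h2] at h1
      exact tendsto_nhds_unique h1 tendsto_const_nhds
    have hvx : ∀ p : V ⊕ ℕ, f (F.vx p) = f (F.vx (Sum.inr 0)) := by
      intro p
      rcases p with w | n
      · rw [← hTR]
        exact hTc w v
      · exact hR n
    intro x y
    obtain ⟨p, q, hpq, s, hs, rfl⟩ := F.exists_emb x
    obtain ⟨p', q', hpq', s', hs', rfl⟩ := F.exists_emb y
    rw [ray_edge hf hpq, ray_edge hf hpq', hvx p, hvx p']
  have : PreconnectedSpace F.X := preconnectedSpace_of_forall_constant hall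
  exact { toNonempty := ⟨F.vx (Sum.inr 0)⟩ }

end

end Pool.Agent.Work.MP_e7996b_gt
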