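import Pool.Agent.Work.MP_e7996b_gt.Basic

/-!
# Rep (S-M): the two representations of a point of `X`

`IsV u p q s`: the point with parameter `s` on `[p, q]` is the vertex `u`.
`pt_injective`: if `p = inr z` look at the coordinate `inr z`, otherwise both are `inl` and look at `inl`.
`sg_of_IsV`: immediate.
`rep`: compare the coordinates.  For `0 < s < 1`, `p ≠ q` (the other cases give the third alternative for the left
side; show it for both sides or reduce): the weights `wt x (inr z) = x (inr z)` and
`wt x (inl v) = x (inl v) - Σᶠ_{z, ρ z = v} x (inr z)` satisfy `wt (F.sg p q s) = (1-s) δ_p + s δ_q`; so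
`(1-s) δ_p + s δ_q = (1-s') δ_p' + s' δ_q'`.
(Alternatively: `(1-s) [p = inr z] + s [q = inr z]` for all `z` and `(1-s) [r p = v] + s [r q = v]` for all `v`
are equal for both sides; case distinction on which of `p, q, p', q'` are in `V`.)
-/

set_option autoImplicit false
set_option linter.unusedSectionVars false

namespace Pool.Agent.Work.MP_e7996b_gt

open Set Topology Filter

variable {V Z : Type}

/-- the point with parameter `s` on the segment from `p` to `q` is the vertex `u` -/
def IsV (u p q : V ⊕ Z) (s : ℝ) : Prop := (p = u ∧ (q = u ∨ s = 0)) ∨ (q = u ∧ s = 1)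

theorem pt_injective (F : Frame V Z) : Function.Injective F.pt := by
  classical
  have key : ∀ (z : Z) (q : V ⊕ Z), F.pt (Sum.inr z) = F.pt q → Sum.inr z = q := by
    intro z q h
    have h1 := congrFun h (Sum.inr z)
    rw [F.pt_inr, F.pt_inr, if_pos rfl] at h1
    by_contra hne
    rw [if_neg fun h => hne h.symm] at h1
    norm_num at h1
  intro p q h
  cases p with
  | inr z => exact key z q h
  | inl v =>
    cases q with
    | inr z => exact (key z _ h.symm).symm
    | inl w =>
      have h1 := congrFun h (Sum.inl v)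
      rw [F.pt_inl, F.pt_inl, F.r_inl, F.r_inl, if_pos rfl] at h1
      by_contra hne
      have : w ≠ v := fun h => hne (by rw [h])
      rw [if_neg this] at h1
      norm_num at h1

theorem sg_of_IsV (F : Frame V Z) {u p q : V ⊕ Z} {s : ℝ} (h : IsV u p q s) : F.sg p q s = F.pt u := by
  rcases h with ⟨rfl, rfl | rfl⟩ | ⟨rfl, rfl⟩
  · exact F.sg_self _ _
  · exact F.sg_zero _ _
  · exact F.sg_one _ _

open scoped Classical in
private theorem split (F : Frame V Z) (A : Finset (V ⊕ Z)) {p : V ⊕ Z} (hp : p ∈ A) (v : V) :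
    (if F.r p = v then (1 : ℝ) else 0) = (if p = Sum.inl v then 1 else 0) +
      ∑ z ∈ A.toRight, if F.ρ z = v then (if p = Sum.inr z then (1 : ℝ) else 0) else 0 := by
  cases p with
  | inl w =>
    rw [F.r_inl, Finset.sum_eq_zero, add_zero]
    · simp
    · intro z _
      simp
  | inr z0 =>
    rw [F.r_inr, Finset.sum_eq_single z0]
    · simp
    · intro z _ hz
      have : z0 ≠ z := fun h => hz h.symm
      simp [this]
    · exact fun h => absurd (Finset.mem_toRight.2 hp) h

open scoped Classical in
private theorem coef (F : Frame V Z) {p q p' q' : V ⊕ Z} {s s' : ℝ}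
    (e : F.sg p q s = F.sg p' q' s') (u : V ⊕ Z) :
    (1 - s) * (if p = u then 1 else 0) + s * (if q = u then 1 else 0) =
      (1 - s') * (if p' = u then 1 else 0) + s' * (if q' = u then 1 else 0) := by
  have hz : ∀ z, (1 - s) * (if p = Sum.inr z then 1 else 0) + s * (if q = Sum.inr z then 1 else 0) =
      (1 - s') * (if p' = Sum.inr z then 1 else 0) + s' * (if q' = Sum.inr z then 1 else 0) := by
    intro z
    have h1 := congrFun e (Sum.inr z)
    simp only [F.sg_apply, F.pt_inr] at h1
    exact h1
  cases u with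
  | inr z => exact hz z
  | inl v =>
    have h1 := congrFun e (Sum.inl v)
    simp only [F.sg_apply, F.pt_inl] at h1
    let A : Finset (V ⊕ Z) := {p, q, p', q'}
    have hp := split F A (p := p) (by simp [A]) v
    have hq := split F A (p := q) (by simp [A]) v
    have hp' := split F A (p := p') (by simp [A]) v
    have hq' := split F A (p := q') (by simp [A]) v
    rw [hp, hq, hp', hq'] at h1
    have h2 : (1 - s) * (∑ z ∈ A.toRight, if F.ρ z = v then (if p = Sum.inr z then (1 : ℝ) else 0) else 0) +
        s * (∑ z ∈ A.toRight, if F.ρ z = v then (if q = Sum.inr z then (1 : ℝ) else 0) else 0) =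
        (1 - s') * (∑ z ∈ A.toRight, if F.ρ z = v then (if p' = Sum.inr z then (1 : ℝ) else 0) else 0) +
        s' * (∑ z ∈ A.toRight, if F.ρ z = v then (if q' = Sum.inr z then (1 : ℝ) else 0) else 0) := by
      rw [Finset.mul_sum, Finset.mul_sum, Finset.mul_sum, Finset.mul_sum, ← Finset.sum_add_distrib,
        ← Finset.sum_add_distrib]
      refine Finset.sum_congr rfl fun z _ => ?_
      by_cases hv : F.ρ z = v
      · simp only [if_pos hv]
        exact hz z
      · simp only [if_neg hv, mul_zero]
    linarith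

theorem rep (F : Frame V Z) {p q p' q' : V ⊕ Z} {s s' : ℝ} (hs : s ∈ Icc (0 : ℝ) 1)
    (hs' : s' ∈ Icc (0 : ℝ) 1) (e : F.sg p q s = F.sg p' q' s') :
    (p = p' ∧ q = q' ∧ s = s') ∨ (p = q' ∧ q = p' ∧ s' = 1 - s) ∨
      ∃ u, IsV u p q s ∧ IsV u p' q' s' := by
  classical
  have hc := coef F e
  -- one vertex carries everything
  have key : ∀ u, IsV u p q s → (1 - s) * (if p = u then 1 else 0) + s * (if q = u then 1 else 0) = 1 →
      ∃ u, IsV u p q s ∧ IsV u p' q' s' := by
    intro u hu h1
    refine ⟨u, hu, ?_⟩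
    rw [hc u] at h1
    by_cases h2 : p' = u <;> by_cases h3 : q' = u
    · exact Or.inl ⟨h2, Or.inl h3⟩
    · rw [if_pos h2, if_neg h3] at h1
      exact Or.inl ⟨h2, Or.inr (by linarith)⟩
    · rw [if_neg h2, if_pos h3] at h1
      exact Or.inr ⟨h3, by linarith⟩
    · rw [if_neg h2, if_neg h3] at h1
      norm_num at h1
  by_cases hpq : p = q
  · right; right
    exact key p (Or.inl ⟨rfl, Or.inl hpq.symm⟩) (by rw [if_pos rfl, if_pos hpq.symm]; ring)
  by_cases hs0 : s = 0
  · right; right
    exact key p (Or.inl ⟨rfl, Or.inr hs0⟩) (by rw [if_pos rfl, hs0]; ring)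
  by_cases hs1 : s = 1
  · right; right
    exact key q (Or.inr ⟨rfl, hs1⟩) (by rw [if_pos rfl, hs1]; ring)
  have hs0' : 0 < s := lt_of_le_of_ne hs.1 (Ne.symm hs0)
  have hs1' : s < 1 := lt_of_le_of_ne hs.2 hs1
  have h1 := hc p
  have h2 := hc q
  rw [if_pos rfl, if_neg fun h => hpq h.symm] at h1
  rw [if_neg hpq, if_pos rfl] at h2
  by_cases h3 : p' = p
  · have h4 : p' ≠ q := fun h => hpq (h3.symm.trans h)
    by_cases h5 : q' = q
    · have h6 : q' ≠ p := fun h => hpq (h.symm.trans h5)
      rw [if_pos h3, if_neg h6] at h1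
      exact Or.inl ⟨h3.symm, h5.symm, by linarith⟩
    · rw [if_neg h4, if_neg h5] at h2
      exfalso
      linarith
  · by_cases h4 : q' = p
    · have h5 : q' ≠ q := fun h => hpq (h4.symm.trans h)
      by_cases h6 : p' = q
      · rw [if_neg h3, if_pos h4] at h1
        exact Or.inr (Or.inl ⟨h4.symm, h6.symm, by linarith⟩)
      · rw [if_neg h6, if_neg h5] at h2
        exfalso
        linarith
    · rw [if_neg h3, if_neg h4] at h1
      exfalso
      linarith

end Pool.Agent.Work.MP_e7996b_gt
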