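import Pool.Agent.Work.MP_e7996b_gt.Ultra
import Pool.Agent.Work.MP_e7996b_gt.Rep

/-!
# Glue (M): functions on `X` given on the edges

`exists_glue`: choose for every `x : F.X` a representation (`F.exists_emb`); two representations are related by
`rep`.  In the third alternative both points are the vertex `u`: `h p q s a = h u u 0 a` if `IsV u p q s` (`hpp`, `h0`,
and for `s = 1`: `h p q 1 a = h q p 0 a = h q q 0 a` by `hsymm` with `s = 0`..).
`continuous_glue`: `continuous_iff_ultrafilter`: let `W` be an ultrafilter on `F.X × A` with `W → (x, a)`.  Lift it to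
an ultrafilter `U` on `F.Fl × A` along the surjection `(f, a) ↦ (F.ofFl f, a)`.  Apply `F.ultra` to the image of
`U` in `F.Fl`.  First alternative: eventually `f.1 = e = (p, q)`, and `F.ofFl f → F.emb e.2 s`, so
`x = F.emb e.2 s` (`F.X` is Hausdorff) and the value `h p q f.2 a' → h p q s a` by `hc` (`ContinuousOn` at the point
`(s, a)`, within the set).  Second alternative: eventually `f.1` is not in the finite exceptional set of `late`
(a set of pairs; take its preimage in the subtype), so the value is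
`h (inl v) (inl w) f.2 a' → h (inl v) (inl w) s a`, and `x = F.emb h s`.
-/

set_option autoImplicit false
set_option linter.unusedSectionVars false

namespace Pool.Agent.Work.MP_e7996b_gt

open Set Topology Filter

variable {V Z : Type}

theorem exists_glue {A B : Type*} (F : Frame V Z) (h : V ⊕ Z → V ⊕ Z → ℝ → A → B)
    (hsymm : ∀ p q, F.Γ.Adj p q → ∀ s ∈ Icc (0 : ℝ) 1, ∀ a, h q p (1 - s) a = h p q s a)
    (h0 : ∀ p q, F.Γ.Adj p q → ∀ a, h p q 0 a = h p p 0 a)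
    (hpp : ∀ p, ∀ s ∈ Icc (0 : ℝ) 1, ∀ a, h p p s a = h p p 0 a) :
    ∃ f : F.X × A → B, ∀ p q (hpq : F.Nb p q) s (hs : s ∈ Icc (0 : ℝ) 1) a,
      f (F.emb hpq hs, a) = h p q s a := by
  choose P Q hPQ S hS hx using F.exists_emb
  have key : ∀ (u p q : V ⊕ Z) (s : ℝ) (a : A), F.Nb p q → s ∈ Icc (0 : ℝ) 1 → IsV u p q s →
      h p q s a = h u u 0 a := by
    intro u p q s a hn hs hV
    rcases hV with ⟨rfl, rfl | rfl⟩ | ⟨rfl, rfl⟩
    · exact hpp _ s hs a
    · rcases hn with rfl | hn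
      · rfl
      · exact h0 _ _ hn a
    · rcases hn with rfl | hn
      · exact hpp _ 1 hs a
      · have h1 := hsymm _ _ hn.symm 0 (by simp) a
        rw [sub_zero] at h1
        rw [h1]
        exact h0 _ _ hn.symm a
  refine ⟨fun y => h (P y.1) (Q y.1) (S y.1) y.2, ?_⟩
  intro p q hpq s hs a
  set x : F.X := F.emb hpq hs with hxdef
  have he : F.sg p q s = F.sg (P x) (Q x) (S x) := by
    have h1 := congrArg Subtype.val (hx x)
    exact h1
  show h (P x) (Q x) (S x) a = h p q s a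
  rcases rep F hs (hS x) he with ⟨h1, h2, h3⟩ | ⟨h1, h2, h3⟩ | ⟨u, h1, h2⟩
  · rw [← h1, ← h2, ← h3]
  · rw [← h1, ← h2, h3]
    rcases hpq with e | hpq
    · rw [← e, hpp p s hs a]
      exact hpp p (1 - s) ⟨by linarith [hs.2], by linarith [hs.1]⟩ a
    · exact hsymm p q hpq s hs a
  · rw [key u p q s a hpq hs h1, key u (P x) (Q x) (S x) a (hPQ x) (hS x) h2]

theorem continuous_glue {A B : Type*} [TopologicalSpace A] [TopologicalSpace B] (F : Frame V Z)
    [Finite V] (h : V ⊕ Z → V ⊕ Z → ℝ → A → B)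
    (hc : ∀ p q, F.Nb p q →
      ContinuousOn (fun x : ℝ × A => h p q x.1 x.2) (Icc (0 : ℝ) 1 ×ˢ univ))
    (late : {e : (V ⊕ Z) × (V ⊕ Z) | F.Nb e.1 e.2 ∧ ¬ ∀ s ∈ Icc (0 : ℝ) 1, ∀ a,
      h e.1 e.2 s a = h (Sum.inl (F.r e.1)) (Sum.inl (F.r e.2)) s a}.Finite)
    (f : F.X × A → B) (hf : ∀ p q (hpq : F.Nb p q) s (hs : s ∈ Icc (0 : ℝ) 1) a,
      f (F.emb hpq hs, a) = h p q s a) : Continuous f := by
  rw [continuous_iff_ultrafilter]
  rintro ⟨x, a⟩ W hW
  let π : F.Fl × A → F.X × A := fun y => (F.ofFl y.1, y.2)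
  have hsurj : Function.Surjective π := by
    rintro ⟨x, a⟩
    obtain ⟨p, q, hn, s, hs, rfl⟩ := F.exists_emb x
    exact ⟨((⟨(p, q), hn⟩, ⟨s, hs⟩), a), rfl⟩
  have hne : (comap π (W : Filter (F.X × A))).NeBot := NeBot.comap_of_surj W.neBot hsurj
  let U : Ultrafilter (F.Fl × A) := Ultrafilter.of (comap π (W : Filter (F.X × A)))
  have hU : (U : Filter (F.Fl × A)) ≤ comap π (W : Filter (F.X × A)) := Ultrafilter.of_le _
  have hUW : U.map π = W := Ultrafilter.coe_le_coe.1 (by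
    rw [Ultrafilter.coe_map]
    exact map_le_iff_le_comap.2 hU)
  have hWt : Tendsto π (U : Filter (F.Fl × A)) (𝓝 (x, a)) := by
    have h1 : map π (U : Filter (F.Fl × A)) ≤ 𝓝 (x, a) := by
      rw [← Ultrafilter.coe_map, hUW]
      exact hW
    exact h1
  have hta : Tendsto (fun y : F.Fl × A => y.2) (U : Filter (F.Fl × A)) (𝓝 a) :=
    (continuous_snd.tendsto (x, a)).comp hWt
  have htx : Tendsto (fun y : F.Fl × A => F.ofFl y.1) (U : Filter (F.Fl × A)) (𝓝 x) :=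
    (continuous_fst.tendsto (x, a)).comp hWt
  have goal : Tendsto (fun y : F.Fl × A => h y.1.1.1.1 y.1.1.1.2 y.1.2 y.2)
      (U : Filter (F.Fl × A)) (𝓝 (f (x, a))) := by
    obtain ⟨s, hs, h1 | ⟨v, w, hn, hr, hK, h1⟩⟩ := F.ultra (U.map Prod.fst)
    · obtain ⟨e, he⟩ := h1
      have he' : ∀ᶠ y in (U : Filter (F.Fl × A)), y.1.1 = e := he
      have hs' : Tendsto (fun y : F.Fl × A => y.1.2) (U : Filter (F.Fl × A)) (𝓝 s) := hs
      have h2 : Tendsto (fun y : F.Fl × A => F.emb e.2 y.1.2.2) (U : Filter (F.Fl × A))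
          (𝓝 (F.emb e.2 s.2)) := ((F.continuous_emb e.2).tendsto s).comp hs'
      have h3 : Tendsto (fun y : F.Fl × A => F.ofFl y.1) (U : Filter (F.Fl × A))
          (𝓝 (F.emb e.2 s.2)) := by
        refine h2.congr' ?_
        filter_upwards [he'] with y hy
        obtain ⟨⟨e', t⟩, a'⟩ := y
        have hy' : e' = e := hy
        subst hy'
        rfl
      have hxe : x = F.emb e.2 s.2 := tendsto_nhds_unique htx h3
      have h4 : Tendsto (fun y : F.Fl × A => ((y.1.2 : ℝ), y.2)) (U : Filter (F.Fl × A))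
          (𝓝[Icc (0 : ℝ) 1 ×ˢ univ] ((s : ℝ), a)) := by
        refine tendsto_nhdsWithin_iff.2 ⟨?_, ?_⟩
        · exact ((continuous_subtype_val.tendsto s).comp hs').prodMk_nhds hta
        · exact Eventually.of_forall fun y => ⟨y.1.2.2, mem_univ _⟩
      have h5 := ((hc e.1.1 e.1.2 e.2) ((s : ℝ), a) ⟨s.2, mem_univ _⟩).tendsto.comp h4
      rw [hxe, hf e.1.1 e.1.2 e.2 s s.2 a]
      refine h5.congr' ?_
      filter_upwards [he'] with y hy
      show h e.1.1 e.1.2 y.1.2 y.2 = h y.1.1.1.1 y.1.1.1.2 y.1.2 y.2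
      rw [hy]
    · have hr' : ∀ᶠ y in (U : Filter (F.Fl × A)), F.r y.1.1.1.1 = v ∧ F.r y.1.1.1.2 = w := hr
      have hs' : Tendsto (fun y : F.Fl × A => y.1.2) (U : Filter (F.Fl × A)) (𝓝 s) := hs
      have h1' : Tendsto (fun y : F.Fl × A => F.ofFl y.1) (U : Filter (F.Fl × A))
          (𝓝 (F.emb hn s.2)) := h1
      have hxe : x = F.emb hn s.2 := tendsto_nhds_unique htx h1'
      have hlate := hK (Subtype.val ⁻¹' {e : (V ⊕ Z) × (V ⊕ Z) | F.Nb e.1 e.2 ∧
        ¬ ∀ s ∈ Icc (0 : ℝ) 1, ∀ a, h e.1 e.2 s a = h (Sum.inl (F.r e.1)) (Sum.inl (F.r e.2)) s a})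
        (late.preimage Subtype.val_injective.injOn)
      have hlate' : ∀ᶠ y in (U : Filter (F.Fl × A)), y.1.1 ∉ (Subtype.val ⁻¹'
        {e : (V ⊕ Z) × (V ⊕ Z) | F.Nb e.1 e.2 ∧
        ¬ ∀ s ∈ Icc (0 : ℝ) 1, ∀ a, h e.1 e.2 s a =
          h (Sum.inl (F.r e.1)) (Sum.inl (F.r e.2)) s a} : Set _) := hlate
      have h4 : Tendsto (fun y : F.Fl × A => ((y.1.2 : ℝ), y.2)) (U : Filter (F.Fl × A))
          (𝓝[Icc (0 : ℝ) 1 ×ˢ univ] ((s : ℝ), a)) := by
        refine tendsto_nhdsWithin_iff.2 ⟨?_, ?_⟩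
        · exact ((continuous_subtype_val.tendsto s).comp hs').prodMk_nhds hta
        · exact Eventually.of_forall fun y => ⟨y.1.2.2, mem_univ _⟩
      have h5 := ((hc _ _ hn) ((s : ℝ), a) ⟨s.2, mem_univ _⟩).tendsto.comp h4
      rw [hxe, hf _ _ hn s s.2 a]
      refine h5.congr' ?_
      filter_upwards [hr', hlate'] with y hy hy2
      show h (Sum.inl v) (Sum.inl w) y.1.2 y.2 = h y.1.1.1.1 y.1.1.1.2 y.1.2 y.2
      have h6 : ∀ s ∈ Icc (0 : ℝ) 1, ∀ a, h y.1.1.1.1 y.1.1.1.2 s a =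
          h (Sum.inl (F.r y.1.1.1.1)) (Sum.inl (F.r y.1.1.1.2)) s a := by
        by_contra hcon
        exact hy2 ⟨y.1.1.2, hcon⟩
      rw [h6 y.1.2 y.1.2.2 y.2, hy.1, hy.2]
  have hfin : Tendsto f (W : Filter (F.X × A)) (𝓝 (f (x, a))) := by
    rw [← hUW, Ultrafilter.coe_map, tendsto_map'_iff]
    refine goal.congr fun y => ?_
    exact (hf y.1.1.1.1 y.1.1.1.2 y.1.1.2 y.1.2 y.1.2.2 y.2).symm
  exact hfin

end Pool.Agent.Work.MP_e7996b_gt
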