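import Pool.Agent.Work.MP_e7996b_gt.Coll
import Pool.Agent.Work.MP_e7996b_gt.Glue

/-!
# Alpha (M): the collapse map

`h p q s (_ : Unit) = hc.frame.sg (hc.g p) (hc.g q) s`.  `exists_glue` (for the values in
`({x // x ≠ v} ⊕ {z // z ∉ S}) → ℝ`; `sg_symm`, `sg_zero`, `sg_self`), the values are in `hc.frame.X` by `nb_g`.
Continuity: in every coordinate `c` (`continuous_pi`, `Continuous.subtype_mk`) `continuous_glue` for
`fun p q s _ => hc.frame.sg (hc.g p) (hc.g q) s c`.  `late` for `c = inl u`: the value depends only on `hc.frame.r (hc.g p)`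
and `hc.frame.r (hc.g q)`, so by `r_g` only on `r p`, `r q`: no exceptions.  `c = inr y`: the value at
`(inl (r p), inl (r q))` is 0 (`hc.g (inl x)` is an `inl`), the value at `(p, q)` is 0 unless `hc.g p = inr y` or
`hc.g q = inr y`; the set of all `p` with `hc.g p = inr y` is finite, contained in `Z` (`p = inr y` or a neighbour of
`inr y`), so the set of pairs `(p, q)` with `F.Nb p q` and one of them in it is finite (`F.deg`).
Surjective: `exists_nb`.
`alpha_St`: `x.1 = F.sg p a s`, `mov p = a`, so `a` is not moved and `x = F.emb (nb_mov p) s`; `hc.g p = hc.g a`.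
-/

set_option autoImplicit false
set_option linter.unusedSectionVars false

namespace Pool.Agent.Work.MP_e7996b_gt

open Set Topology Filter

variable {V Z : Type}

namespace Col

variable {F : Frame V Z} {v w : V} {S : Set Z} {m : Z → V ⊕ Z} (hc : Col F v w S m)

private theorem g_inl_ne (x : V) (y : {z : Z // z ∉ S}) : hc.g (Sum.inl x) ≠ Sum.inr y := by
  intro h
  have h1 : mov v w S m (Sum.inl x) = Sum.inr y.1 := by
    rw [← hc.up_g, h]
    rfl
  by_cases hx : x = v
  · rw [hx, mov_v] at h1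
    exact absurd h1 (by simp)
  · have h2 : ¬ Mv v S (Sum.inl x : V ⊕ Z) := hx
    rw [mov_of_not h2] at h1
    exact absurd h1 (by simp)

private theorem fib_inr (y : {z : Z // z ∉ S}) {p : V ⊕ Z} (hp : hc.g p = Sum.inr y) :
    ∃ z : Z, p = Sum.inr z ∧ (z = y.1 ∨ F.Γ.Adj (Sum.inr y.1) (Sum.inr z)) := by
  cases p with
  | inl x => exact absurd hp (hc.g_inl_ne x y)
  | inr z =>
    refine ⟨z, rfl, ?_⟩
    have h1 : mov v w S m (Sum.inr z) = Sum.inr y.1 := by
      rw [← hc.up_g, hp]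
      rfl
    by_cases hz : z ∈ S
    · right
      rw [mov_z hz] at h1
      rw [← h1]
      exact (hc.madj z hz).symm
    · left
      have h2 : ¬ Mv v S (Sum.inr z) := hz
      rw [mov_of_not h2] at h1
      exact Sum.inr_injective h1

private theorem fib_finite (y : {z : Z // z ∉ S}) : {z : Z | hc.g (Sum.inr z) = Sum.inr y}.Finite := by
  have h1 : {z : Z | F.Γ.Adj (Sum.inr y.1) (Sum.inr z)}.Finite :=
    (F.deg y.1).preimage (Sum.inr_injective.injOn)
  refine ((Set.finite_singleton y.1).union h1).subset ?_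
  intro z hz
  obtain ⟨z', e, h⟩ := hc.fib_inr y hz
  obtain rfl := Sum.inr_injective e
  exact h

private theorem nb_finite (z : Z) : {a | F.Nb (Sum.inr z) a}.Finite := by
  refine ((Set.finite_singleton (Sum.inr z : V ⊕ Z)).union (F.deg z)).subset ?_
  rintro a (rfl | h)
  · exact Or.inl rfl
  · exact Or.inr h

private theorem pairs_finite (y : {z : Z // z ∉ S}) : {e : (V ⊕ Z) × (V ⊕ Z) | F.Nb e.1 e.2 ∧
    (hc.g e.1 = Sum.inr y ∨ hc.g e.2 = Sum.inr y)}.Finite := by
  have h1 : (⋃ z ∈ {z : Z | hc.g (Sum.inr z) = Sum.inr y}, (fun a => ((Sum.inr z : V ⊕ Z), a)) ''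
      {a | F.Nb (Sum.inr z) a}).Finite := (hc.fib_finite y).biUnion fun z _ => (nb_finite z).image _
  have h2 : (⋃ z ∈ {z : Z | hc.g (Sum.inr z) = Sum.inr y}, (fun a => (a, (Sum.inr z : V ⊕ Z))) ''
      {a | F.Nb (Sum.inr z) a}).Finite := (hc.fib_finite y).biUnion fun z _ => (nb_finite z).image _
  refine (h1.union h2).subset ?_
  rintro ⟨p, q⟩ ⟨hpq, h | h⟩
  · left
    obtain ⟨z, rfl, -⟩ := hc.fib_inr y h
    simp only [Set.mem_iUnion]
    exact ⟨z, h, q, hpq, rfl⟩
  · right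
    obtain ⟨z, rfl, -⟩ := hc.fib_inr y h
    simp only [Set.mem_iUnion]
    exact ⟨z, h, p, hpq.symm, rfl⟩

private theorem r_g_inl (p : V ⊕ Z) : hc.frame.r (hc.g (Sum.inl (F.r p))) = hc.frame.r (hc.g p) :=
  Subtype.ext (by rw [r_g, r_g, Frame.r_inl])

private theorem late_alpha (c : {x : V // x ≠ v} ⊕ {z : Z // z ∉ S}) :
    {e : (V ⊕ Z) × (V ⊕ Z) | F.Nb e.1 e.2 ∧ ¬ ∀ s ∈ Icc (0 : ℝ) 1, ∀ _ : Unit,
      hc.frame.sg (hc.g e.1) (hc.g e.2) s c =
        hc.frame.sg (hc.g (Sum.inl (F.r e.1))) (hc.g (Sum.inl (F.r e.2))) s c}.Finite := by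
  cases c with
  | inl u =>
    convert Set.finite_empty
    apply Set.eq_empty_of_forall_notMem
    rintro ⟨p, q⟩ ⟨-, h⟩
    apply h
    intro s _ _
    have h3 : ∀ p, hc.frame.pt (hc.g (Sum.inl (F.r p))) (Sum.inl u) =
        hc.frame.pt (hc.g p) (Sum.inl u) := fun p => by
      rw [Frame.pt_inl, Frame.pt_inl, hc.r_g_inl]
    simp only [Frame.sg_apply, h3]
  | inr y =>
    refine (hc.pairs_finite y).subset ?_
    rintro ⟨p, q⟩ ⟨hpq, h⟩
    refine ⟨hpq, ?_⟩
    by_contra hne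
    rw [not_or] at hne
    apply h
    intro s _ _
    have h1 := hc.g_inl_ne (F.r p) y
    have h2 := hc.g_inl_ne (F.r q) y
    simp only [Frame.sg_apply, Frame.pt_inr]
    rw [if_neg h1, if_neg h2, if_neg hne.1, if_neg hne.2]

theorem exists_alpha [Finite V] : ∃ α : F.X → hc.frame.X, Continuous α ∧ Function.Surjective α ∧
    ∀ p q (h : F.Nb p q) s (hs : s ∈ Icc (0 : ℝ) 1),
      α (F.emb h hs) = hc.frame.emb (hc.nb_g h) hs := by
  obtain ⟨f, hf⟩ := exists_glue (A := Unit) F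
    (fun p q s _ => hc.frame.sg (hc.g p) (hc.g q) s)
    (fun p q _ s _ _ => hc.frame.sg_symm (hc.g p) (hc.g q) s)
    (fun p q _ _ => by rw [hc.frame.sg_zero, hc.frame.sg_zero])
    (fun p s _ _ => by rw [hc.frame.sg_self, hc.frame.sg_self])
  have hmem : ∀ x : F.X, f (x, ()) ∈ hc.frame.X := by
    intro x
    obtain ⟨p, q, h, s, hs, rfl⟩ := F.exists_emb x
    rw [hf]
    exact ⟨_, _, hc.nb_g h, s, hs, rfl⟩
  have hval : ∀ p q (h : F.Nb p q) s (hs : s ∈ Icc (0 : ℝ) 1),
      (⟨f (F.emb h hs, ()), hmem _⟩ : hc.frame.X) = hc.frame.emb (hc.nb_g h) hs := by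
    intro p q h s hs
    apply Subtype.ext
    rw [Frame.emb_val]
    exact hf p q h s hs ()
  refine ⟨fun x => ⟨f (x, ()), hmem x⟩, ?_, ?_, hval⟩
  · refine Continuous.subtype_mk (continuous_pi fun c => ?_) _
    have h1 : Continuous fun x : F.X × Unit => f x c := by
      refine continuous_glue F (fun p q s _ => hc.frame.sg (hc.g p) (hc.g q) s c) ?_
        (hc.late_alpha c) _ ?_
      · intro p q _
        simp only [Frame.sg_apply]
        fun_prop
      · intro p q hpq s hs a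
        exact congrFun (hf p q hpq s hs a) c
    exact h1.comp (by fun_prop : Continuous fun x : F.X => (x, ()))
  · intro y
    obtain ⟨a, b, h, s, hs, rfl⟩ := hc.frame.exists_emb y
    obtain ⟨p, q, hpq, rfl, rfl⟩ := hc.exists_nb h
    exact ⟨F.emb hpq hs, hval p q hpq s hs⟩

theorem alpha_St {α : F.X → hc.frame.X} (hα : ∀ p q (h : F.Nb p q) s (hs : s ∈ Icc (0 : ℝ) 1),
    α (F.emb h hs) = hc.frame.emb (hc.nb_g h) hs) {a : V ⊕ Z} {x : F.X} (h : St F v w S m a x) :
    α x = hc.frame.vx (hc.g a) := by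
  obtain ⟨p, rfl, s, hs, hx⟩ := h
  have hx' : x = F.emb (hc.nb_mov p) hs := Subtype.ext hx
  have hg : hc.g p = hc.g (mov v w S m p) := by
    rw [hc.g_eq_iff, hc.mov_mov]
  rw [hx', hα]
  apply Subtype.ext
  rw [Frame.emb_val, Frame.vx_val, hg, Frame.sg_self]

end Col

end Pool.Agent.Work.MP_e7996b_gt
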