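import Pool.Agent.Work.MP_e7996b_gt.Defs

/-!
# MP_e7996b_gt: basic lemmas (proved)
-/

set_option autoImplicit false
set_option linter.unusedSectionVars false

namespace Pool.Agent.Work.MP_e7996b_gt

open Set Topology

variable {V Z : Type}

theorem PH.pc {X : Type*} {C : Type} [TopologicalSpace X] [TopologicalSpace C] [CompactSpace C]
    [T2Space C] [ConnectedSpace C] {H : X × C → X} {a b : C} {p : X} (h : PH H a b p) : PC X :=
  ⟨C, inferInstance, inferInstance, inferInstance, inferInstance, a, b, p, H, h⟩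

namespace Frame

variable (F : Frame V Z)

@[simp] theorem r_inl (v : V) : F.r (Sum.inl v) = v := rfl

@[simp] theorem r_inr (z : Z) : F.r (Sum.inr z) = F.ρ z := rfl

open scoped Classical in
theorem pt_inl (p : V ⊕ Z) (v : V) : F.pt p (Sum.inl v) = if F.r p = v then 1 else 0 := rfl

open scoped Classical in
theorem pt_inr (p : V ⊕ Z) (z : Z) : F.pt p (Sum.inr z) = if p = Sum.inr z then 1 else 0 := rfl

theorem sg_apply (p q : V ⊕ Z) (s : ℝ) (c : V ⊕ Z) :
    F.sg p q s c = (1 - s) * F.pt p c + s * F.pt q c := rfl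

theorem sg_self (p : V ⊕ Z) (s : ℝ) : F.sg p p s = F.pt p := by
  funext c
  rw [sg_apply]
  ring

theorem sg_zero (p q : V ⊕ Z) : F.sg p q 0 = F.pt p := by
  funext c
  rw [sg_apply]
  ring

theorem sg_one (p q : V ⊕ Z) : F.sg p q 1 = F.pt q := by
  funext c
  rw [sg_apply]
  ring

theorem sg_symm (p q : V ⊕ Z) (s : ℝ) : F.sg q p (1 - s) = F.sg p q s := by
  funext c
  rw [sg_apply, sg_apply]
  ring

theorem Nb.symm {F : Frame V Z} {p q : V ⊕ Z} (h : F.Nb p q) : F.Nb q p :=
  h.elim (fun e => Or.inl e.symm) fun e => Or.inr e.symm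

theorem Nb.refl (p : V ⊕ Z) : F.Nb p p := Or.inl rfl

@[simp] theorem emb_val {p q : V ⊕ Z} (h : F.Nb p q) {s : ℝ} (hs : s ∈ Icc (0 : ℝ) 1) :
    (F.emb h hs).1 = F.sg p q s := rfl

@[simp] theorem vx_val (p : V ⊕ Z) : (F.vx p).1 = F.pt p := F.sg_zero p p

theorem emb_zero {p q : V ⊕ Z} (h : F.Nb p q) (hs : (0 : ℝ) ∈ Icc (0 : ℝ) 1) :
    F.emb h hs = F.vx p := Subtype.ext (by rw [emb_val, vx_val, sg_zero])

theorem emb_one {p q : V ⊕ Z} (h : F.Nb p q) (hs : (1 : ℝ) ∈ Icc (0 : ℝ) 1) :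
    F.emb h hs = F.vx q := Subtype.ext (by rw [emb_val, vx_val, sg_one])

theorem emb_self {p : V ⊕ Z} (h : F.Nb p p) {s : ℝ} (hs : s ∈ Icc (0 : ℝ) 1) :
    F.emb h hs = F.vx p := Subtype.ext (by rw [emb_val, vx_val, sg_self])

theorem exists_emb (x : F.X) : ∃ (p q : V ⊕ Z) (h : F.Nb p q) (s : ℝ) (hs : s ∈ Icc (0 : ℝ) 1),
    x = F.emb h hs := by
  obtain ⟨x, p, q, h, s, hs, rfl⟩ := x
  exact ⟨p, q, h, s, hs, rfl⟩

theorem pt_nonneg (p c : V ⊕ Z) : 0 ≤ F.pt p c := by
  cases c with
  | inl v => rw [pt_inl]; split_ifs <;> norm_num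
  | inr z => rw [pt_inr]; split_ifs <;> norm_num

theorem pt_le_one (p c : V ⊕ Z) : F.pt p c ≤ 1 := by
  cases c with
  | inl v => rw [pt_inl]; split_ifs <;> norm_num
  | inr z => rw [pt_inr]; split_ifs <;> norm_num

theorem sg_nonneg (p q : V ⊕ Z) {s : ℝ} (hs : s ∈ Icc (0 : ℝ) 1) (c : V ⊕ Z) : 0 ≤ F.sg p q s c := by
  rw [sg_apply]
  have h1 := F.pt_nonneg p c
  have h2 := F.pt_nonneg q c
  have := hs.1
  have := hs.2
  nlinarith

theorem sg_le_one (p q : V ⊕ Z) {s : ℝ} (hs : s ∈ Icc (0 : ℝ) 1) (c : V ⊕ Z) : F.sg p q s c ≤ 1 := by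
  rw [sg_apply]
  have h1 := F.pt_le_one p c
  have h2 := F.pt_le_one q c
  have := hs.1
  have := hs.2
  nlinarith

/-- the map from a segment to `X` is continuous -/
theorem continuous_emb {p q : V ⊕ Z} (h : F.Nb p q) :
    Continuous fun s : Icc (0 : ℝ) 1 => F.emb h s.2 := by
  refine Continuous.subtype_mk (continuous_pi fun c => ?_) _
  show Continuous fun s : Icc (0 : ℝ) 1 => (1 - s.1) * F.pt p c + s.1 * F.pt q c
  fun_prop

theorem continuous_coord (c : V ⊕ Z) : Continuous fun x : F.X => x.1 c :=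
  (continuous_apply c).comp continuous_subtype_val

end Frame

theorem up_low {v : V} {S : Set Z} (p : V ⊕ Z) (h : ¬ Mv v S p) : up (low v S p h) = p := by
  cases p <;> rfl

theorem up_injective {v : V} {S : Set Z} :
    Function.Injective (up : {x : V // x ≠ v} ⊕ {z : Z // z ∉ S} → V ⊕ Z) :=
  Sum.map_injective.2 ⟨Subtype.val_injective, Subtype.val_injective⟩

theorem not_Mv_up {v : V} {S : Set Z} (a : {x : V // x ≠ v} ⊕ {z : Z // z ∉ S}) :
    ¬ Mv v S (up a) := by
  cases a with
  | inl x => exact x.2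
  | inr z => exact z.2

theorem mov_of_not {v w : V} {S : Set Z} {m : Z → V ⊕ Z} {p : V ⊕ Z} (h : ¬ Mv v S p) :
    mov v w S m p = p := by
  cases p with
  | inl x => exact if_neg h
  | inr z => exact if_neg h

theorem mov_v {v w : V} {S : Set Z} {m : Z → V ⊕ Z} : mov v w S m (Sum.inl v) = Sum.inl w :=
  if_pos rfl

theorem mov_z {v w : V} {S : Set Z} {m : Z → V ⊕ Z} {z : Z} (h : z ∈ S) :
    mov v w S m (Sum.inr z) = m z := if_pos h

namespace Col

variable {F : Frame V Z} {v w : V} {S : Set Z} {m : Z → V ⊕ Z} (hc : Col F v w S m)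

include hc

theorem ne : v ≠ w := hc.adj.ne

/-- the image of a vertex is not moved -/
theorem not_Mv (p : V ⊕ Z) : ¬ Mv v S (mov v w S m p) := by
  classical
  by_cases hp : Mv v S p
  · have key : F.r (mov v w S m p) = w := by
      cases p with
      | inl x =>
        have hx : x = v := hp
        rw [hx, mov_v]
        rfl
      | inr z => rw [mov_z hp, hc.mover z hp]
    intro h
    cases hq : mov v w S m p with
    | inl y =>
      rw [hq] at h key
      have h1 : y = v := h
      have h2 : y = w := key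
      exact hc.ne (h1.symm.trans h2)
    | inr y =>
      rw [hq] at h key
      have h1 : F.ρ y = v := hc.overv y h
      have h2 : F.ρ y = w := key
      exact hc.ne (h1.symm.trans h2)
  · rwa [mov_of_not hp]

theorem mov_mov (p : V ⊕ Z) : mov v w S m (mov v w S m p) = mov v w S m p :=
  mov_of_not (hc.not_Mv p)

/-- a moved vertex is adjacent to its image -/
theorem adj_mov {p : V ⊕ Z} (hp : Mv v S p) : F.Γ.Adj p (mov v w S m p) := by
  cases p with
  | inl x =>
    have hx : x = v := hp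
    rw [hx, mov_v]
    exact F.sub v w hc.adj
  | inr z =>
    rw [mov_z hp]
    exact hc.madj z hp

theorem nb_mov (p : V ⊕ Z) : F.Nb p (mov v w S m p) := by
  by_cases hp : Mv v S p
  · exact Or.inr (hc.adj_mov hp)
  · rw [mov_of_not hp]
    exact Or.inl rfl

/-- a moved vertex lies over `v` -/
theorem r_of_Mv {p : V ⊕ Z} (hp : Mv v S p) : F.r p = v := by
  cases p with
  | inl x => exact hp
  | inr z => exact hc.overv z hp

/-- the image of a moved vertex lies over `w` -/
theorem r_mov_of_Mv {p : V ⊕ Z} (hp : Mv v S p) : F.r (mov v w S m p) = w := by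
  cases p with
  | inl x =>
    have hx : x = v := hp
    rw [hx, mov_v]
    rfl
  | inr z => rw [mov_z hp, hc.mover z hp]

/-- two moved vertices are not adjacent -/
theorem not_adj {p q : V ⊕ Z} (hp : Mv v S p) (hq : Mv v S q) : ¬ F.Γ.Adj p q := by
  intro h
  cases p with
  | inr z => exact hc.indep z hp q h (hc.r_of_Mv hq)
  | inl x =>
    cases q with
    | inr z => exact hc.indep z hq _ h.symm (hc.r_of_Mv hp)
    | inl y =>
      have h1 : x = v := hp
      have h2 : y = v := hq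
      rw [h1, h2] at h
      exact h.ne rfl

/-- the map of the vertices -/
noncomputable def g (p : V ⊕ Z) : {x : V // x ≠ v} ⊕ {z : Z // z ∉ S} :=
  low v S (mov v w S m p) (hc.not_Mv p)

theorem up_g (p : V ⊕ Z) : up (hc.g p) = mov v w S m p := up_low _ _

theorem g_up (a : {x : V // x ≠ v} ⊕ {z : Z // z ∉ S}) : hc.g (up a) = a :=
  up_injective (by rw [up_g, mov_of_not (not_Mv_up a)])

theorem g_eq_iff (p q : V ⊕ Z) : hc.g p = hc.g q ↔ mov v w S m p = mov v w S m q := by
  rw [← hc.up_g, ← hc.up_g]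
  exact up_injective.eq_iff.symm

end Col

end Pool.Agent.Work.MP_e7996b_gt
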