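import Pool.Agent.Work.MP_e7996b_gt.Basic

/-!
# Bend (S-M): bends outside of a finite set

`¬ FinB v w`: one of the two sets is infinite.
First case: infinitely many `z` over `v` with two neighbours `a ≠ b` over `w`.  Choose such a `z` outside of the finite
set of all `z ∈ K` and all `z` with `inr z` adjacent to some `inr k`, `k ∈ K` (`F.deg k` for `k ∈ K`).
`u = inr z`: `NotT` because `u` is not in `V`.
Second case: infinitely many `z` over `w` adjacent to `inl v`: choose one outside of `K`; `u = inl v`, `a = inr z`,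
`b = inl w` (`F.sub`).
-/

set_option autoImplicit false
set_option linter.unusedSectionVars false

namespace Pool.Agent.Work.MP_e7996b_gt

open Set Topology Filter

variable {V Z : Type}

theorem exists_bend (F : Frame V Z) {v w : V} (hvw : F.T.Adj v w) (h : ¬ F.FinB v w) {K : Set Z}
    (hK : K.Finite) : ∃ u a b : V ⊕ Z, a ≠ b ∧ F.Γ.Adj u a ∧ F.Γ.Adj u b ∧ F.r u = v ∧ F.r a = w ∧
      F.r b = w ∧ F.NotT u a ∧ ∀ z ∈ K, u ≠ Sum.inr z ∧ a ≠ Sum.inr z ∧ b ≠ Sum.inr z := by
  unfold Frame.FinB at h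
  rw [not_and_or] at h
  rcases h with h | h
  · have hB : (K ∪ ⋃ k ∈ K, {z | F.Γ.Adj (Sum.inr k) (Sum.inr z)}).Finite := by
      refine hK.union (hK.biUnion fun k _ => ?_)
      exact (F.deg k).preimage (Sum.inr_injective.injOn)
    obtain ⟨z, hz, hzB⟩ := (Set.Infinite.sdiff (s := _) h hB).nonempty
    obtain ⟨h1, a, b, hab, ha, hb, hra, hrb⟩ := hz
    have hzK : z ∉ K := fun hk => hzB (Or.inl hk)
    have key : ∀ c, F.Γ.Adj (Sum.inr z) c → ∀ z' ∈ K, c ≠ Sum.inr z' := by
      intro c hc z' hz' hcz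
      rw [hcz] at hc
      exact hzB (Or.inr (Set.mem_biUnion hz' hc.symm))
    refine ⟨Sum.inr z, a, b, hab, ha, hb, h1, hra, hrb, ?_, ?_⟩
    · intro v' w' h2
      cases h2
    · intro z' hz'
      refine ⟨?_, key a ha z' hz', key b hb z' hz'⟩
      intro h2
      rw [Sum.inr_injective h2] at hzK
      exact hzK hz'
  · obtain ⟨z, hz, hzK⟩ := (Set.Infinite.sdiff (s := _) h hK).nonempty
    obtain ⟨h1, h2⟩ := hz
    refine ⟨Sum.inl v, Sum.inr z, Sum.inl w, ?_, h2, F.sub v w hvw, rfl, h1, rfl, ?_, ?_⟩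
    · intro h3
      cases h3
    · intro v' w' _ h3
      cases h3
    · intro z' hz'
      refine ⟨?_, ?_, ?_⟩
      · intro h3
        cases h3
      · intro h3
        rw [Sum.inr_injective h3] at hzK
        exact hzK hz'
      · intro h3
        cases h3

end Pool.Agent.Work.MP_e7996b_gt
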