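import Mathlib

/-!
# Sink (S-M): pure combinatorics (Mathlib only)

Start at `w 0` not isolated, `w (i+1) = n (w i)` (all adjacent).  `V` is finite: `w i = w j`, `i < j`.  Suppose there is no
`x` with `T.Adj x (n x)` and `n (n x) = x`.  Take `g` from `hlog` for the edge `(w i, w (i+1))`.  For every `l`:
`g (w (l+1)) - g (w l)` is 1 if `(w l, w (l+1)) = (w i, w (i+1))`; the case
`(w l, w (l+1)) = (w (i+1), w i)` is impossible (`n (w (i+1)) = w i`, `n (w i) = w (i+1)`); otherwise it is 0.  So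
`l ↦ g (w l)` is monotone and `g (w i) + 1 = g (w (i+1)) ≤ g (w j) = g (w i)`, contradiction.
-/

set_option autoImplicit false
set_option linter.unusedSectionVars false

namespace Pool.Agent.Work.MP_e7996b_gt

open Set Topology Filter

theorem sink {V : Type*} [Finite V] (T : SimpleGraph V)
    (hlog : ∀ w0 w1, T.Adj w0 w1 → ∃ g : V → ℝ, g w1 = g w0 + 1 ∧
      ∀ a b, T.Adj a b → ¬ (a = w0 ∧ b = w1) → ¬ (a = w1 ∧ b = w0) → g a = g b)
    (n : V → V) (hn : ∀ w, (∃ v, T.Adj w v) → T.Adj w (n w)) (hne : ∃ v w, T.Adj v w) :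
    ∃ w, T.Adj w (n w) ∧ n (n w) = w := by
  classical
  by_contra hcon
  push Not at hcon
  obtain ⟨v0, v1, h01⟩ := hne
  have hadj : ∀ i : ℕ, T.Adj (n^[i] v0) (n (n^[i] v0)) := by
    intro i
    induction i with
    | zero => exact hn _ ⟨v1, h01⟩
    | succ i ih =>
      rw [Function.iterate_succ_apply']
      exact hn _ ⟨_, ih.symm⟩
  obtain ⟨i, j, hij, heq⟩ : ∃ i j : ℕ, i < j ∧ n^[i] v0 = n^[j] v0 := by
    obtain ⟨a, b, hab, h⟩ := Finite.exists_ne_map_eq_of_infinite (fun i : ℕ => n^[i] v0)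
    rcases lt_or_gt_of_ne hab with h' | h'
    · exact ⟨a, b, h', h⟩
    · exact ⟨b, a, h', h.symm⟩
  obtain ⟨g, hg1, hg2⟩ := hlog _ _ (hadj i)
  have hmono : Monotone fun l : ℕ => g (n^[l] v0) := by
    refine monotone_nat_of_le_succ fun l => ?_
    show g (n^[l] v0) ≤ g (n^[l + 1] v0)
    rw [Function.iterate_succ_apply']
    by_cases h1 : n^[l] v0 = n^[i] v0
    · rw [h1, hg1]
      linarith
    · by_cases h2 : n^[l] v0 = n (n^[i] v0) ∧ n (n^[l] v0) = n^[i] v0
      · exfalso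
        have h3 := h2.2
        rw [h2.1] at h3
        exact hcon _ (hadj i) h3
      · exact (hg2 _ _ (hadj l) (fun h => h1 h.1) h2).le
  have h1 := hmono (Nat.succ_le_of_lt hij)
  have h2 : g (n^[i + 1] v0) ≤ g (n^[j] v0) := h1
  rw [Function.iterate_succ_apply', hg1, ← heq] at h2
  linarith

end Pool.Agent.Work.MP_e7996b_gt
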