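import Pool.Agent.Work.MP_e7996b_gt.Basic

/-!
# Fold (S): the folded path at a bend

`fold σ`, `σ ∈ [-1,1]`: the point with parameter `σ` on `[u, a]` if `σ ≥ 0`, with parameter `-σ` on `[u, b]` if
`σ ≤ 0`.  E.g. `fold σ = if 0 ≤ σ then F.emb (u,a) (min σ 1) else F.emb (u,b) (min (-σ) 1)` for all real `σ`;
continuous: coordinates are `(1 - m) pt u c + m pt a c`, `m = min (|σ|) 1`, ... (`Continuous.if_le`).
-/

set_option autoImplicit false
set_option linter.unusedSectionVars false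

namespace Pool.Agent.Work.MP_e7996b_gt

open Set Topology Filter

variable {V Z : Type}

theorem exists_fold (F : Frame V Z) {u a b : V ⊕ Z} (ha : F.Γ.Adj u a) (hb : F.Γ.Adj u b) :
    ∃ f : ℝ → F.X, Continuous f ∧ (∀ σ ∈ Icc (0 : ℝ) 1, (f σ).1 = F.sg u a σ) ∧
      ∀ σ ∈ Icc (-1 : ℝ) 0, (f σ).1 = F.sg u b (-σ) := by
  have hpos : ∀ σ : ℝ, 0 ≤ σ → (fun c => (1 - min |σ| 1) * F.pt u c +
      min (max σ 0) 1 * F.pt a c + min (max (-σ) 0) 1 * F.pt b c) = F.sg u a (min σ 1) := by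
    intro σ h
    funext c
    rw [F.sg_apply, abs_of_nonneg h, max_eq_left h, max_eq_right (by linarith : -σ ≤ 0),
      min_eq_left (zero_le_one : (0 : ℝ) ≤ 1)]
    ring
  have hneg : ∀ σ : ℝ, σ ≤ 0 → (fun c => (1 - min |σ| 1) * F.pt u c +
      min (max σ 0) 1 * F.pt a c + min (max (-σ) 0) 1 * F.pt b c) = F.sg u b (min (-σ) 1) := by
    intro σ h
    funext c
    rw [F.sg_apply, abs_of_nonpos h, max_eq_right h, max_eq_left (by linarith : (0 : ℝ) ≤ -σ),
      min_eq_left (zero_le_one : (0 : ℝ) ≤ 1)]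
    ring
  have hmem : ∀ σ : ℝ, (fun c => (1 - min |σ| 1) * F.pt u c +
      min (max σ 0) 1 * F.pt a c + min (max (-σ) 0) 1 * F.pt b c) ∈ F.X := by
    intro σ
    rcases le_total 0 σ with h | h
    · rw [hpos σ h]
      exact ⟨u, a, Or.inr ha, _, ⟨le_min h zero_le_one, min_le_right _ _⟩, rfl⟩
    · rw [hneg σ h]
      exact ⟨u, b, Or.inr hb, _, ⟨le_min (by linarith) zero_le_one, min_le_right _ _⟩, rfl⟩
  refine ⟨fun σ => ⟨_, hmem σ⟩, ?_, ?_, ?_⟩
  · refine Continuous.subtype_mk (continuous_pi fun c => ?_) _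
    fun_prop
  · intro σ hσ
    show (fun c => (1 - min |σ| 1) * F.pt u c +
      min (max σ 0) 1 * F.pt a c + min (max (-σ) 0) 1 * F.pt b c) = _
    rw [hpos σ hσ.1, min_eq_left hσ.2]
  · intro σ hσ
    show (fun c => (1 - min |σ| 1) * F.pt u c +
      min (max σ 0) 1 * F.pt a c + min (max (-σ) 0) 1 * F.pt b c) = _
    rw [hneg σ hσ.2, min_eq_left (by linarith [hσ.1])]

end Pool.Agent.Work.MP_e7996b_gt
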