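import Pool.Agent.Work.MP_e7996b_gt.Ultra

/-!
# Unif (S-M): uniform continuity

`X` and `C` are compact.  For finite `K : Set Z` and `v : V` let `B K ⊆ F.X × F.X × C × V` be the set of all
`(x, x', c, v)` with equal coordinates in `V` and in `K` and
`ε ≤ |(H (x,c)).1 (inl v) - (H (x',c)).1 (inl v)|`: closed (`V` finite: discrete; or treat every `v` separately and
take the union of the finitely many `K`), decreasing in `K`.  If no `K` works, all `B K` are non-empty, so by compactness
(`IsCompact.nonempty_iInter_of_directed_nonempty_isCompact_isClosed` over `Finset Z`) there is a common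
point, for which `x = x'`: contradiction.
-/

set_option autoImplicit false
set_option linter.unusedSectionVars false

namespace Pool.Agent.Work.MP_e7996b_gt

open Set Topology Filter

variable {V Z : Type}

theorem unif (F : Frame V Z) [Finite V] {C : Type*} [TopologicalSpace C] [CompactSpace C]
    {H : F.X × C → F.X} (hH : Continuous H) {ε : ℝ} (hε : 0 < ε) :
    ∃ K : Set Z, K.Finite ∧ ∀ x x' : F.X, (∀ v, x.1 (Sum.inl v) = x'.1 (Sum.inl v)) →
      (∀ z ∈ K, x.1 (Sum.inr z) = x'.1 (Sum.inr z)) →
      ∀ c v, |(H (x, c)).1 (Sum.inl v) - (H (x', c)).1 (Sum.inl v)| < ε := by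
  have hX := F.compactSpace_X
  classical
  let B : Finset Z → Set (F.X × F.X × C) := fun K =>
    {y | ∀ v, y.1.1 (Sum.inl v) = y.2.1.1 (Sum.inl v)} ∩
      {y | ∀ z ∈ K, y.1.1 (Sum.inr z) = y.2.1.1 (Sum.inr z)} ∩
      ⋃ v : V, {y | ε ≤ |(H (y.1, y.2.2)).1 (Sum.inl v) - (H (y.2.1, y.2.2)).1 (Sum.inl v)|}
  by_contra hcon
  push Not at hcon
  have hne : ∀ K, (B K).Nonempty := by
    intro K
    obtain ⟨x, x', h1, h2, c, v, h3⟩ := hcon (K : Set Z) K.finite_toSet
    exact ⟨(x, x', c), ⟨h1, fun z hz => h2 z hz⟩, mem_iUnion.2 ⟨v, h3⟩⟩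
  have hcl : ∀ K, IsClosed (B K) := by
    intro K
    refine (IsClosed.inter ?_ ?_).inter ?_
    · rw [setOf_forall]
      refine isClosed_iInter fun v => isClosed_eq ?_ ?_
      · exact (F.continuous_coord _).comp continuous_fst
      · exact (F.continuous_coord _).comp (continuous_fst.comp continuous_snd)
    · rw [setOf_forall]
      refine isClosed_iInter fun z => ?_
      rw [setOf_forall]
      refine isClosed_iInter fun _ => isClosed_eq ?_ ?_
      · exact (F.continuous_coord _).comp continuous_fst
      · exact (F.continuous_coord _).comp (continuous_fst.comp continuous_snd)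
    · refine isClosed_iUnion_of_finite fun v => isClosed_le continuous_const ?_
      refine (Continuous.sub ?_ ?_).abs
      · exact (F.continuous_coord _).comp (hH.comp (continuous_fst.prodMk
          (continuous_snd.comp continuous_snd)))
      · exact (F.continuous_coord _).comp (hH.comp ((continuous_fst.comp continuous_snd).prodMk
          (continuous_snd.comp continuous_snd)))
  have hdir : Directed (· ⊇ ·) B := by
    intro K K'
    refine ⟨K ∪ K', ?_, ?_⟩
    · rintro y ⟨⟨h1, h2⟩, h3⟩
      exact ⟨⟨h1, fun z hz => h2 z (Finset.mem_union_left _ hz)⟩, h3⟩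
    · rintro y ⟨⟨h1, h2⟩, h3⟩
      exact ⟨⟨h1, fun z hz => h2 z (Finset.mem_union_right _ hz)⟩, h3⟩
  obtain ⟨y, hy⟩ := IsCompact.nonempty_iInter_of_directed_nonempty_isCompact_isClosed B hdir hne
    (fun K => (hcl K).isCompact) hcl
  rw [mem_iInter] at hy
  obtain ⟨x, x', c⟩ := y
  have hxx : x = x' := by
    refine Subtype.ext (funext fun p => ?_)
    rcases p with v | z
    · exact (hy ∅).1.1 v
    · exact (hy {z}).1.2 z (Finset.mem_singleton_self z)
  obtain ⟨v, hv⟩ := mem_iUnion.1 (hy ∅).2
  have hv' : ε ≤ |(H (x, c)).1 (Sum.inl v) - (H (x', c)).1 (Sum.inl v)| := hv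
  rw [hxx, sub_self, abs_zero] at hv'
  exact absurd hv' (not_le.2 hε)

end Pool.Agent.Work.MP_e7996b_gt
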