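import Pool.Agent.Work.MP_e7996b_gt.EdgeRet
import Pool.Agent.Work.MP_e7996b_gt.Unif
import Pool.Agent.Work.MP_e7996b_gt.Bend
import Pool.Agent.Work.MP_e7996b_gt.Fold

/-!
# StepB (M-L): no opposite bends

Suppose `¬ FinB v w` and `¬ FinB w v`.  `h`: `C, a0, b0, p, H`.  `K` from `unif` with `ε = 1/4`.  Bends (`exists_bend`)
`(u; a, b)` with `r u = v`, `r a = r b = w` and `(u'; a', b')` with `r u' = w`, `r a' = r b' = v`, outside of `K`.
`f`, `f'` from `exists_fold`; `l`, `l'` from `edge_ret` for the edges `(u, a)` and `(u', a')`.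
For `z : Circle`, `z = x + i y`, let `σ = x |x|`, `τ = y |y|`: `|σ| + |τ| = 1`.  The points `f σ` and `f' τ` have the
same coordinates in `V`: `(1 - |σ|) e_v + |σ| e_w = |τ| e_v + (1 - |τ|) e_w`, and coordinates 0 in `K`
(`F.pt_inr`).  `Φ (z, c) = (l (H (f σ, c)) - 1/4) + i (l' (H (f' τ, c)) - 1/4)`, continuous on `Circle × C`.
`Φ ≠ 0`: if `l (..) = 1/4` and `l' (..) = 1/4` then `H (f σ, c) = F.sg u a (1/4)`, with coordinate
`3/4` at `inl v`, and `H (f' τ, c) = F.sg u' a' (1/4)`, with coordinate `1/4` at `inl v` (`v ≠ w`): their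
distance is `1/2`, contradiction to `unif`.
`Φ (z, b0)` is constant, so it has a logarithm; by `exists_log_family` `ζ z = Φ (z, a0)` has one.  But
`ζ z = (l (f σ) - 1/4) + i (l' (f' τ) - 1/4)`, `l (f σ) = max σ 0` (for `σ ≤ 0`: `edge_const` for the edge
`(u, b)`: `l = l (F.vx u) = 0`; `b ≠ a`, `u ≠ a`), `l' (f' τ) = max τ 0`.
`ζ z * conj z ∈ slitPlane`: otherwise `ζ z = -κ z` with `κ ≥ 0` (`z conj z = 1`).
If `x < 0`: `Re ζ = -1/4 < 0 ≤ -κ x`; if `x = 0`: `Re ζ = -1/4 ≠ 0`; so `x > 0`, similarly `y > 0`, and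
`σ - 1/4 = -κ x ≤ 0`, `τ - 1/4 ≤ 0`, so `1 = σ + τ ≤ 1/2`, contradiction.  Now `no_log`.
It is advisable to split: `slit_lemma` (pure: for real `x, y` with `x^2+y^2 = 1`).
-/

set_option autoImplicit false
set_option linter.unusedSectionVars false

namespace Pool.Agent.Work.MP_e7996b_gt

open Set Topology Filter

variable {V Z : Type}

theorem slit_lemma (z : Circle) :
    (((max ((z : ℂ).re * |(z : ℂ).re|) 0 - 1 / 4 : ℝ) : ℂ) +
      ((max ((z : ℂ).im * |(z : ℂ).im|) 0 - 1 / 4 : ℝ) : ℂ) * Complex.I) *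
        (starRingEnd ℂ) (z : ℂ) ∈ Complex.slitPlane := by
  have hz : (z : ℂ).re ^ 2 + (z : ℂ).im ^ 2 = 1 := by
    have h1 : Complex.normSq (z : ℂ) = 1 := z.normSq_coe
    rw [Complex.normSq_apply] at h1
    linarith
  set x := (z : ℂ).re with hx
  set y := (z : ℂ).im with hy
  set A : ℝ := max (x * |x|) 0 - 1 / 4 with hA
  set B : ℝ := max (y * |y|) 0 - 1 / 4 with hB
  rw [Complex.mem_slitPlane_iff]
  have hre : (((A : ℂ) + (B : ℂ) * Complex.I) * (starRingEnd ℂ) (z : ℂ)).re = A * x + B * y := by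
    simp [Complex.mul_re]
    ring
  have him : (((A : ℂ) + (B : ℂ) * Complex.I) * (starRingEnd ℂ) (z : ℂ)).im = B * x - A * y := by
    simp [Complex.mul_im]
    ring
  rw [hre, him]
  by_contra hcon
  push Not at hcon
  obtain ⟨h1, h2⟩ := hcon
  have hA' : A = x * (A * x + B * y) := by
    linear_combination (-A) * hz - y * h2
  have hB' : B = y * (A * x + B * y) := by
    linear_combination (-B) * hz + x * h2
  set R := A * x + B * y with hR
  have hxpos : 0 < x := by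
    by_contra hxn
    push Not at hxn
    have h3 : x * |x| ≤ 0 := mul_nonpos_of_nonpos_of_nonneg hxn (abs_nonneg x)
    have h4 : A = -(1 / 4) := by
      rw [hA, max_eq_right h3]
      norm_num
    have h5 : 0 ≤ x * R := mul_nonneg_of_nonpos_of_nonpos hxn h1
    rw [← hA', h4] at h5
    norm_num at h5
  have hypos : 0 < y := by
    by_contra hyn
    push Not at hyn
    have h3 : y * |y| ≤ 0 := mul_nonpos_of_nonpos_of_nonneg hyn (abs_nonneg y)
    have h4 : B = -(1 / 4) := by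
      rw [hB, max_eq_right h3]
      norm_num
    have h5 : 0 ≤ y * R := mul_nonneg_of_nonpos_of_nonpos hyn h1
    rw [← hB', h4] at h5
    norm_num at h5
  have h6 : A = x ^ 2 - 1 / 4 := by
    rw [hA, abs_of_pos hxpos, max_eq_left (by positivity)]
    ring
  have h7 : B = y ^ 2 - 1 / 4 := by
    rw [hB, abs_of_pos hypos, max_eq_left (by positivity)]
    ring
  have h8 : x * R ≤ 0 := mul_nonpos_of_nonneg_of_nonpos hxpos.le h1
  have h9 : y * R ≤ 0 := mul_nonpos_of_nonneg_of_nonpos hypos.le h1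
  rw [← hA', h6] at h8
  rw [← hB', h7] at h9
  linarith

private theorem sb_abs {x : ℝ} : abs (x * abs x) = x ^ 2 := by
  rw [abs_mul, abs_abs, ← sq, sq_abs]

open scoped Classical in
/-- the coordinates of the folded path -/
private theorem sb_coord (F : Frame V Z) {u a b : V ⊕ Z} {v w : V} (hru : F.r u = v)
    (hra : F.r a = w) (hrb : F.r b = w) {f : ℝ → F.X}
    (hf1 : ∀ σ ∈ Icc (0 : ℝ) 1, (f σ).1 = F.sg u a σ)
    (hf2 : ∀ σ ∈ Icc (-1 : ℝ) 0, (f σ).1 = F.sg u b (-σ)) {σ : ℝ} (hσ : |σ| ≤ 1) (t : V) :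
    (f σ).1 (Sum.inl t) = (1 - |σ|) * (if v = t then 1 else 0) + |σ| * (if w = t then 1 else 0) := by
  rcases le_total 0 σ with h | h
  · rw [abs_of_nonneg h] at hσ ⊢
    rw [hf1 σ ⟨h, hσ⟩, F.sg_apply, F.pt_inl, F.pt_inl, hru, hra]
  · rw [abs_of_nonpos h] at hσ ⊢
    rw [hf2 σ ⟨by linarith, h⟩, F.sg_apply, F.pt_inl, F.pt_inl, hru, hrb]

private theorem sb_zero (F : Frame V Z) {u a b : V ⊕ Z} {z : Z} (hz : u ≠ Sum.inr z ∧
    a ≠ Sum.inr z ∧ b ≠ Sum.inr z) {f : ℝ → F.X}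
    (hf1 : ∀ σ ∈ Icc (0 : ℝ) 1, (f σ).1 = F.sg u a σ)
    (hf2 : ∀ σ ∈ Icc (-1 : ℝ) 0, (f σ).1 = F.sg u b (-σ)) {σ : ℝ} (hσ : |σ| ≤ 1) :
    (f σ).1 (Sum.inr z) = 0 := by
  rcases le_total 0 σ with h | h
  · rw [abs_of_nonneg h] at hσ
    rw [hf1 σ ⟨h, hσ⟩, F.sg_apply, F.pt_inr, F.pt_inr, if_neg hz.1, if_neg hz.2.1]
    ring
  · rw [abs_of_nonpos h] at hσ
    rw [hf2 σ ⟨by linarith, h⟩, F.sg_apply, F.pt_inr, F.pt_inr, if_neg hz.1, if_neg hz.2.2]
    ring

/-- the retraction on the folded path -/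
private theorem sb_l (F : Frame V Z) {u a b : V ⊕ Z} (hab : a ≠ b) (hua : F.Γ.Adj u a)
    (hub : F.Γ.Adj u b) {f : ℝ → F.X}
    (hf1 : ∀ σ ∈ Icc (0 : ℝ) 1, (f σ).1 = F.sg u a σ)
    (hf2 : ∀ σ ∈ Icc (-1 : ℝ) 0, (f σ).1 = F.sg u b (-σ)) {l : F.X → ℝ} (hl : Continuous l)
    (h1 : ∀ x, l x ∈ Icc (0 : ℝ) 1)
    (h3 : ∀ (hn : F.Nb u a) s (hs : s ∈ Icc (0 : ℝ) 1), l (F.emb hn hs) = s)
    (h2 : ∀ x, 0 < l x → l x < 1 → x.1 = F.sg u a (l x)) {σ : ℝ} (hσ : |σ| ≤ 1) :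
    l (f σ) = max σ 0 := by
  have hna : F.Nb u a := Or.inr hua
  have hnb : F.Nb u b := Or.inr hub
  rcases le_total 0 σ with h | h
  · rw [abs_of_nonneg h] at hσ
    have hm : σ ∈ Icc (0 : ℝ) 1 := ⟨h, hσ⟩
    have e : f σ = F.emb hna hm := Subtype.ext (hf1 σ hm)
    rw [e, h3, max_eq_left h]
  · rw [abs_of_nonpos h] at hσ
    have hm : -σ ∈ Icc (0 : ℝ) 1 := ⟨by linarith, hσ⟩
    have e : f σ = F.emb hnb hm := Subtype.ext (hf2 σ ⟨by linarith, h⟩)
    have h4 := edge_const F hua hl h1 h2 hnb (fun h => hab h.2.symm)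
      (fun h => hua.ne h.1) hm
    have h5 : l (F.vx u) = 0 := by
      have h00 : (0 : ℝ) ∈ Icc (0 : ℝ) 1 := ⟨le_rfl, zero_le_one⟩
      have h6 := h3 hna 0 h00
      rwa [F.emb_zero] at h6
    rw [e, h4, h5, max_eq_right h]

theorem stepB (F : Frame V Z) [Finite V] (h : PC F.X) {v w : V} (hvw : F.T.Adj v w) :
    F.FinB v w ∨ F.FinB w v := by
  classical
  by_contra hcon
  push Not at hcon
  obtain ⟨hn1, hn2⟩ := hcon
  have hpc := h
  obtain ⟨C, tC, cC, t2C, connC, a0, b0, p, H, hPH⟩ := h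
  obtain ⟨K, hK, hunif⟩ := unif F hPH.cont (ε := 1 / 4) (by norm_num)
  obtain ⟨u, a, b, hab, hua, hub, hru, hra, hrb, hNT, hKu⟩ := exists_bend F hvw hn1 hK
  obtain ⟨u', a', b', hab', hua', hub', hru', hra', hrb', hNT', hKu'⟩ :=
    exists_bend F hvw.symm hn2 hK
  obtain ⟨f, hfc, hf1, hf2⟩ := exists_fold F hua hub
  obtain ⟨f', hfc', hf1', hf2'⟩ := exists_fold F hua' hub'
  obtain ⟨l, hl, hl1, hl3, hl2⟩ := edge_ret F hpc hua hNT
  obtain ⟨l', hl', hl1', hl3', hl2'⟩ := edge_ret F hpc hua' hNT'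
  have hne : v ≠ w := hvw.ne
  let σ : Circle → ℝ := fun z => (z : ℂ).re * |(z : ℂ).re|
  let τ : Circle → ℝ := fun z => (z : ℂ).im * |(z : ℂ).im|
  have hσc : Continuous σ := by
    show Continuous fun z : Circle => (z : ℂ).re * |(z : ℂ).re|
    fun_prop
  have hτc : Continuous τ := by
    show Continuous fun z : Circle => (z : ℂ).im * |(z : ℂ).im|
    fun_prop
  have hsum : ∀ z, |σ z| + |τ z| = 1 := by
    intro z
    show abs ((z : ℂ).re * abs (z : ℂ).re) + abs ((z : ℂ).im * abs (z : ℂ).im) = 1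
    rw [sb_abs, sb_abs]
    have h1 : Complex.normSq (z : ℂ) = 1 := z.normSq_coe
    rw [Complex.normSq_apply] at h1
    linarith
  have hσ1 : ∀ z, |σ z| ≤ 1 := fun z => by
    have := hsum z
    have := abs_nonneg (τ z)
    linarith
  have hτ1 : ∀ z, |τ z| ≤ 1 := fun z => by
    have := hsum z
    have := abs_nonneg (σ z)
    linarith
  let Φ : Circle × C → ℂ := fun y => ((l (H (f (σ y.1), y.2)) - 1 / 4 : ℝ) : ℂ) +
    ((l' (H (f' (τ y.1), y.2)) - 1 / 4 : ℝ) : ℂ) * Complex.I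
  have hΦc : Continuous Φ := by
    have e1 : Continuous fun y : Circle × C => l (H (f (σ y.1), y.2)) :=
      hl.comp (hPH.cont.comp ((hfc.comp (hσc.comp continuous_fst)).prodMk continuous_snd))
    have e2 : Continuous fun y : Circle × C => l' (H (f' (τ y.1), y.2)) :=
      hl'.comp (hPH.cont.comp ((hfc'.comp (hτc.comp continuous_fst)).prodMk continuous_snd))
    exact (Complex.continuous_ofReal.comp (e1.sub continuous_const)).add
      ((Complex.continuous_ofReal.comp (e2.sub continuous_const)).mul continuous_const)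
  have hΦ0 : ∀ y, Φ y ≠ 0 := by
    rintro ⟨z, c⟩ h0
    have hre : l (H (f (σ z), c)) - 1 / 4 = 0 := by
      have := congrArg Complex.re h0
      simpa [Φ] using this
    have him : l' (H (f' (τ z), c)) - 1 / 4 = 0 := by
      have := congrArg Complex.im h0
      simpa [Φ] using this
    have g1 : l (H (f (σ z), c)) = 1 / 4 := by linarith
    have g2 : l' (H (f' (τ z), c)) = 1 / 4 := by linarith
    have g3 := hl2 (H (f (σ z), c)) (by rw [g1]; norm_num) (by rw [g1]; norm_num)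
    have g4 := hl2' (H (f' (τ z), c)) (by rw [g2]; norm_num) (by rw [g2]; norm_num)
    have g5 := hunif (f (σ z)) (f' (τ z)) (by
        intro t
        rw [sb_coord F hru hra hrb hf1 hf2 (hσ1 z), sb_coord F hru' hra' hrb' hf1' hf2' (hτ1 z)]
        have := hsum z
        have e1 : 1 - |σ z| = |τ z| := by linarith
        have e2 : 1 - |τ z| = |σ z| := by linarith
        rw [e1, e2]
        ring)
      (by
        intro k hk
        rw [sb_zero F (hKu k hk) hf1 hf2 (hσ1 z), sb_zero F (hKu' k hk) hf1' hf2' (hτ1 z)]) c v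
    rw [g3, g4, g1, g2, F.sg_apply, F.sg_apply, F.pt_inl, F.pt_inl, F.pt_inl, F.pt_inl, hru, hra,
      hru', hra', if_pos rfl, if_neg hne.symm] at g5
    norm_num at g5
  obtain ⟨g', hg', hgΦ⟩ := exists_log_family hΦc hΦ0 (a := a0) (b := b0)
    (g := fun _ => Complex.log (((l p - 1 / 4 : ℝ) : ℂ) + ((l' p - 1 / 4 : ℝ) : ℂ) * Complex.I))
    continuous_const (by
      intro z
      have e : Φ (z, b0) = ((l p - 1 / 4 : ℝ) : ℂ) + ((l' p - 1 / 4 : ℝ) : ℂ) * Complex.I := by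
        show ((l (H (f (σ z), b0)) - 1 / 4 : ℝ) : ℂ) +
          ((l' (H (f' (τ z), b0)) - 1 / 4 : ℝ) : ℂ) * Complex.I = _
        rw [hPH.hb, hPH.hb]
      have h0 := hΦ0 (z, b0)
      rw [e] at h0 ⊢
      rw [Complex.exp_log h0])
  have hζ : ∀ z : Circle, Φ (z, a0) = ((max ((z : ℂ).re * |(z : ℂ).re|) 0 - 1 / 4 : ℝ) : ℂ) +
      ((max ((z : ℂ).im * |(z : ℂ).im|) 0 - 1 / 4 : ℝ) : ℂ) * Complex.I := by
    intro z
    show ((l (H (f (σ z), a0)) - 1 / 4 : ℝ) : ℂ) +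
      ((l' (H (f' (τ z), a0)) - 1 / 4 : ℝ) : ℂ) * Complex.I = _
    rw [hPH.ha, hPH.ha, sb_l F hab hua hub hf1 hf2 hl hl1 (fun _ s hs => hl3 s hs) hl2 (hσ1 z),
      sb_l F hab' hua' hub' hf1' hf2' hl' hl1' (fun _ s hs => hl3' s hs) hl2' (hτ1 z)]
  refine no_log (ζ := fun z => Φ (z, a0)) ?_ ?_ ⟨g', hg', hgΦ⟩
  · exact hΦc.comp (by fun_prop)
  · intro z
    have h8 := slit_lemma z
    rw [← hζ z] at h8
    exact h8

end Pool.Agent.Work.MP_e7996b_gt
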