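import Pool.Agent.Work.MP_e7996b_gt.Log
import Pool.Agent.Work.MP_e7996b_gt.Glue

/-!
# TLog (M): the edges of `T`

`φ : X → ℂ`: on the edge `[p, q]` with parameter `s` the value is `exp (2 π i s)` if `(r p, r q) = (w0, w1)`,
`exp (2 π i (1 - s))` if `(r p, r q) = (w1, w0)`, 1 otherwise.  `exists_glue`, `continuous_glue` with
`A = Unit`: the function `h` depends only on `(r p, r q)`, so the exceptional set in `late` is empty.
`X` is compact, so `φ = exp G` with `G` continuous (`PC.exists_log`).  `g v = Im (G (F.vx (inl v))) / (2 π)`.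
On the edge `[inl w0, inl w1]`: `G (F.emb _ s) - 2 π i s` is continuous in `s ∈ [0,1]` with values in
`2 π i ℤ`, so constant: `g w1 = g w0 + 1`.  On the other edges of `T`: `G (F.emb _ s)` is continuous with
values in `2 π i ℤ`, constant.
-/

set_option autoImplicit false
set_option linter.unusedSectionVars false

namespace Pool.Agent.Work.MP_e7996b_gt

open Set Topology Filter

variable {V Z : Type}

private theorem tl_lt {k : Icc (0 : ℝ) 1 → ℂ} (hk : Continuous k) (h1 : ∀ s, Complex.exp (k s) = 1)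
    (a b : Icc (0 : ℝ) 1) : ¬ (k a).im < (k b).im := by
  intro hlt
  have hint : ∀ s, ∃ n : ℤ, (k s).im = n * (2 * Real.pi) := by
    intro s
    obtain ⟨n, hn⟩ := Complex.exp_eq_one_iff.1 (h1 s)
    refine ⟨n, ?_⟩
    rw [hn]
    simp
  obtain ⟨na, hna⟩ := hint a
  obtain ⟨nb, hnb⟩ := hint b
  have hpi := Real.pi_pos
  have hlt' : na < nb := by
    rw [hna, hnb] at hlt
    have := lt_of_mul_lt_mul_right hlt (by positivity)
    exact_mod_cast this
  have hc : (k a).im + Real.pi ∈ range fun s => (k s).im := by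
    refine mem_range_of_exists_le_of_exists_ge (Complex.continuous_im.comp hk) ⟨a, ?_⟩ ⟨b, ?_⟩
    · show (k a).im ≤ (k a).im + Real.pi
      linarith
    · show (k a).im + Real.pi ≤ (k b).im
      rw [hna, hnb]
      have : (na : ℝ) + 1 ≤ nb := by exact_mod_cast hlt'
      nlinarith
  obtain ⟨c, hc⟩ := hc
  obtain ⟨nc, hnc⟩ := hint c
  simp only at hc
  rw [hnc, hna] at hc
  have h2 : (2 * nc : ℝ) = 2 * na + 1 := by
    have h3 : (2 * nc : ℝ) * Real.pi = (2 * na + 1) * Real.pi := by linarith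
    exact mul_right_cancel₀ hpi.ne' h3
  have h4 : 2 * nc = 2 * na + 1 := by exact_mod_cast h2
  omega

private theorem tl_const {k : Icc (0 : ℝ) 1 → ℂ} (hk : Continuous k)
    (h1 : ∀ s, Complex.exp (k s) = 1) (a b : Icc (0 : ℝ) 1) : (k a).im = (k b).im :=
  le_antisymm (not_lt.1 (tl_lt hk h1 b a)) (not_lt.1 (tl_lt hk h1 a b))

open scoped Classical in
private noncomputable def tlh (F : Frame V Z) (w0 w1 : V) (p q : V ⊕ Z) (s : ℝ) (_ : Unit) : ℂ :=
  if F.r p = w0 ∧ F.r q = w1 then Complex.exp (2 * Real.pi * Complex.I * s)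
  else if F.r p = w1 ∧ F.r q = w0 then Complex.exp (2 * Real.pi * Complex.I * (1 - s)) else 1

theorem tedge_log (F : Frame V Z) [Finite V] (h : PC F.X) {w0 w1 : V} (hT : F.T.Adj w0 w1) :
    ∃ g : V → ℝ, g w1 = g w0 + 1 ∧
      ∀ a b, F.T.Adj a b → ¬ (a = w0 ∧ b = w1) → ¬ (a = w1 ∧ b = w0) → g a = g b := by
  classical
  have hne : w0 ≠ w1 := hT.ne
  have hpp1 : ∀ p s a, tlh F w0 w1 p p s a = 1 := by
    intro p s a
    unfold tlh
    rw [if_neg, if_neg]
    · rintro ⟨h1, h2⟩
      exact hne (h2.symm.trans h1)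
    · rintro ⟨h1, h2⟩
      exact hne (h1.symm.trans h2)
  obtain ⟨f, hf⟩ := exists_glue F (tlh F w0 w1)
    (by
      intro p q _ s _ a
      unfold tlh
      by_cases h1 : F.r p = w0 ∧ F.r q = w1
      · rw [if_pos h1, if_neg (by rintro ⟨h2, _⟩; exact hne (h2.symm.trans h1.2)),
          if_pos ⟨h1.2, h1.1⟩]
        congr 1
        push_cast
        ring
      · rw [if_neg h1]
        by_cases h2 : F.r p = w1 ∧ F.r q = w0
        · rw [if_pos h2, if_pos ⟨h2.2, h2.1⟩]
          congr 1
          push_cast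
          ring
        · rw [if_neg h2, if_neg (fun h3 => h2 ⟨h3.2, h3.1⟩), if_neg (fun h3 => h1 ⟨h3.2, h3.1⟩)])
    (by
      intro p q _ a
      rw [hpp1]
      unfold tlh
      split_ifs
      · simp
      · simp
      · rfl)
    (by
      intro p s _ a
      rw [hpp1, hpp1])
  have hcf : Continuous f := by
    refine continuous_glue F (tlh F w0 w1) ?_ ?_ f hf
    · intro p q _
      unfold tlh
      split_ifs
      · exact Continuous.continuousOn (by fun_prop)
      · exact Continuous.continuousOn (by fun_prop)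
      · exact continuousOn_const
    · convert Set.finite_empty (α := (V ⊕ Z) × (V ⊕ Z)) using 1
      ext e
      simp only [Set.mem_ofPred_eq, Set.mem_empty_iff_false, iff_false, not_and, not_not]
      intro _ s _ a
      unfold tlh
      rfl
  have hφ : Continuous fun x : F.X => f (x, ()) := hcf.comp (by fun_prop)
  have h0 : ∀ x : F.X, f (x, ()) ≠ 0 := by
    intro x
    obtain ⟨p, q, hpq, s, hs, rfl⟩ := F.exists_emb x
    rw [hf]
    unfold tlh
    split_ifs
    · exact Complex.exp_ne_zero _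
    · exact Complex.exp_ne_zero _
    · exact one_ne_zero
  have := F.compactSpace_X
  obtain ⟨G, hG, hφG⟩ := h.exists_log hφ h0
  refine ⟨fun v => (G (F.vx (Sum.inl v))).im / (2 * Real.pi), ?_, ?_⟩
  · have hnb : F.Nb (Sum.inl w0) (Sum.inl w1) := Or.inr (F.sub w0 w1 hT)
    have hk : Continuous fun s : Icc (0 : ℝ) 1 =>
        G (F.emb hnb s.2) - 2 * Real.pi * Complex.I * (s : ℝ) := by
      refine (hG.comp (F.continuous_emb hnb)).sub ?_
      fun_prop
    have h1 : ∀ s : Icc (0 : ℝ) 1,
        Complex.exp (G (F.emb hnb s.2) - 2 * Real.pi * Complex.I * (s : ℝ)) = 1 := by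
      intro s
      rw [Complex.exp_sub, ← hφG, hf, tlh, if_pos ⟨rfl, rfl⟩]
      exact div_self (Complex.exp_ne_zero _)
    have h2 := tl_const hk h1 ⟨0, by simp⟩ ⟨1, by simp⟩
    simp only [F.emb_zero, F.emb_one] at h2
    have h3 : (G (F.vx (Sum.inl w0))).im = (G (F.vx (Sum.inl w1))).im - 2 * Real.pi := by
      simpa using h2
    have hpi := Real.pi_pos
    simp only
    rw [h3]
    field_simp
    ring
  · intro a b hab h1 h2
    have hnb : F.Nb (Sum.inl a) (Sum.inl b) := Or.inr (F.sub a b hab)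
    have hk : Continuous fun s : Icc (0 : ℝ) 1 => G (F.emb hnb s.2) :=
      hG.comp (F.continuous_emb hnb)
    have h3 : ∀ s : Icc (0 : ℝ) 1, Complex.exp (G (F.emb hnb s.2)) = 1 := by
      intro s
      rw [← hφG, hf, tlh, F.r_inl, F.r_inl, if_neg h1, if_neg h2]
    have h4 := tl_const hk h3 ⟨0, by simp⟩ ⟨1, by simp⟩
    simp only [F.emb_zero, F.emb_one] at h4
    simp only
    rw [h4]

end Pool.Agent.Work.MP_e7996b_gt
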