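import Pool.Agent.Work.MP_e7996b_gt.StepA
import Pool.Agent.Work.MP_e7996b_gt.StepB
import Pool.Agent.Work.MP_e7996b_gt.TLog
import Pool.Agent.Work.MP_e7996b_gt.Sink

/-!
# Choose (S-M): a collapsible edge

`n w` from `stepA` (for `w` with a neighbour), `sink` with `tedge_log`: `w0` with `T.Adj w0 (n w0)`,
`n (n w0) = w0`.  `stepB`: `FinB w0 (n w0)` or `FinB (n w0) w0`; call it `FinB v w` (so `n v = w`).
`S = {z | ρ z = v ∧ (∃ a, Adj (inr z) a ∧ r a = w ∧ ∀ b, Adj (inr z) b → r b = w → b = a) ∧ ∀ a, Adj (inr z) a → r a ≠ v}`,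
`m z` the neighbour `a` (`Classical.choose`, arbitrary outside of `S`).
`cofin`: if `ρ z = v`, `z ∉ S`, then `z` has no neighbour over `w = n v` (finite, `stepA`), or two different ones
(finite, `FinB`), or a neighbour `a` over `v` (then `(inr z, a)` is in `F.bad`, as `T` has no loops).
-/

set_option autoImplicit false
set_option linter.unusedSectionVars false

namespace Pool.Agent.Work.MP_e7996b_gt

open Set Topology Filter

variable {V Z : Type}

private theorem exists_col_aux (F : Frame V Z) {v w : V} (hadj : F.T.Adj v w)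
    (hA : {z | F.ρ z = v ∧ ∀ a, F.Γ.Adj (Sum.inr z) a → F.r a ≠ w}.Finite) (hB : F.FinB v w) :
    ∃ (v w : V) (S : Set Z) (m : Z → V ⊕ Z), Col F v w S m := by
  classical
  refine ⟨v, w, {z | F.ρ z = v ∧ (∃ a, F.Γ.Adj (Sum.inr z) a ∧ F.r a = w ∧
      ∀ b, F.Γ.Adj (Sum.inr z) b → F.r b = w → b = a) ∧ ∀ a, F.Γ.Adj (Sum.inr z) a → F.r a ≠ v},
    fun z => if h : ∃ a, F.Γ.Adj (Sum.inr z) a ∧ F.r a = w then Classical.choose h else Sum.inr z,
    ?_⟩
  have hm : ∀ z, ∀ h : ∃ a, F.Γ.Adj (Sum.inr z) a ∧ F.r a = w,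
      (if h : ∃ a, F.Γ.Adj (Sum.inr z) a ∧ F.r a = w then Classical.choose h else Sum.inr z) =
        Classical.choose h := fun z h => dif_pos h
  constructor
  · exact hadj
  · rintro z ⟨h1, -, -⟩
    exact h1
  · rintro z ⟨-, ⟨a, ha1, ha2, -⟩, -⟩
    have hz : ∃ a, F.Γ.Adj (Sum.inr z) a ∧ F.r a = w := ⟨a, ha1, ha2⟩
    simp only [hm z hz]
    exact (Classical.choose_spec hz).1
  · rintro z ⟨-, ⟨a, ha1, ha2, -⟩, -⟩
    have hz : ∃ a, F.Γ.Adj (Sum.inr z) a ∧ F.r a = w := ⟨a, ha1, ha2⟩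
    simp only [hm z hz]
    exact (Classical.choose_spec hz).2
  · rintro z ⟨-, ⟨a, ha1, ha2, ha3⟩, -⟩ b hb1 hb2
    have hz : ∃ a, F.Γ.Adj (Sum.inr z) a ∧ F.r a = w := ⟨a, ha1, ha2⟩
    simp only [hm z hz]
    rw [ha3 b hb1 hb2, ha3 _ (Classical.choose_spec hz).1 (Classical.choose_spec hz).2]
  · rintro z ⟨-, -, h3⟩
    exact h3
  · have hC : {z : Z | ∃ a, (Sum.inr z, a) ∈
        {e : (V ⊕ Z) × (V ⊕ Z) | F.Γ.Adj e.1 e.2 ∧ ¬ F.T.Adj (pr F.ρ e.1) (pr F.ρ e.2)}}.Finite := by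
      refine Set.Finite.subset
        (Set.Finite.preimage (f := (Sum.inr : Z → V ⊕ Z)) Sum.inr_injective.injOn
          (F.bad.image Prod.fst)) ?_
      rintro z ⟨a, ha⟩
      exact ⟨(Sum.inr z, a), ha, rfl⟩
    refine ((hA.union hB.1).union hC).subset ?_
    rintro z ⟨hz1, hz2⟩
    by_cases h1 : ∀ a, F.Γ.Adj (Sum.inr z) a → F.r a ≠ w
    · exact Or.inl (Or.inl ⟨hz1, h1⟩)
    push Not at h1
    obtain ⟨a, ha1, ha2⟩ := h1
    by_cases h2 : ∀ b, F.Γ.Adj (Sum.inr z) b → F.r b = w → b = a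
    · right
      by_contra h3
      apply hz2
      refine ⟨hz1, ⟨a, ha1, ha2, h2⟩, ?_⟩
      intro c hc1 hc2
      apply h3
      refine ⟨c, hc1, ?_⟩
      have e1 : pr F.ρ (Sum.inr z) = v := hz1
      have e2 : pr F.ρ c = v := hc2
      show ¬ F.T.Adj (pr F.ρ (Sum.inr z)) (pr F.ρ c)
      rw [e1, e2]
      exact F.T.loopless.irrefl v
    · push Not at h2
      obtain ⟨b, hb1, hb2, hb3⟩ := h2
      exact Or.inl (Or.inr ⟨hz1, b, a, hb3, hb1, ha1, hb2, ha2⟩)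
  · exact hB.2

theorem exists_col (F : Frame V Z) [Finite V] (h : PC F.X) (hT : ∃ v w, F.T.Adj v w) :
    ∃ (v w : V) (S : Set Z) (m : Z → V ⊕ Z), Col F v w S m := by
  classical
  set n : V → V := fun w => if hw : ∃ v, F.T.Adj w v then Classical.choose (stepA F h w hw) else w
    with hn
  have hns : ∀ w, (∃ v, F.T.Adj w v) → F.T.Adj w (n w) ∧
      {z | F.ρ z = w ∧ ∀ a, F.Γ.Adj (Sum.inr z) a → F.r a ≠ n w}.Finite := by
    intro w hw
    have e : n w = Classical.choose (stepA F h w hw) := dif_pos hw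
    rw [e]
    exact Classical.choose_spec (stepA F h w hw)
  obtain ⟨x, hx1, hx2⟩ := sink F.T (fun w0 w1 hw => tedge_log F h hw) n (fun w hw => (hns w hw).1) hT
  rcases stepB F h hx1 with hB | hB
  · exact exists_col_aux F hx1 (hns x ⟨_, hx1⟩).2 hB
  · have h2 := (hns (n x) ⟨_, hx1.symm⟩).2
    rw [hx2] at h2
    exact exists_col_aux F hx1.symm h2 hB

end Pool.Agent.Work.MP_e7996b_gt
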