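import Pool.Agent.Work.MP_e7996b_gt.Basic

/-!
# Coll (M): the frame after the collapse

`fv x = if x = v then w else x`.  `T'`: images of the edges of `T` under `fv`; `Γ'`: images of the edges of `Γ` under
`hc.g`; `ρ' z = fv (ρ z)`.
`r_g'`: `pr ρ' (hc.g p) = fv (F.r p)` for all `p`: cases `Mv p` (`r_of_Mv`, `r_mov_of_Mv`) or not.
`sub'`: from `F.sub` and `hc.g (inl x) = inl (fv x)`.
`deg'`: neighbours of `inr z` (`z ∉ S`) in `Γ'` are images of the neighbours of the `p` with `hc.g p = inr z`: `p = inr z`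
or `p = inr y`, `y ∈ S`, `m y = inr z` (a neighbour of `inr z`; `p = inl v` is mapped to `inl w`): a finite set of
`p`, none in `V`, each of finite degree (`F.deg`).
`bad'`: a pair `(a, b)` in it is `(hc.g p, hc.g q)` with `Γ.Adj p q`.  If `(p, q)` is bad: finitely many.  Otherwise
`T.Adj (r p) (r q)`; if `fv (r p) ≠ fv (r q)` then `(a, b)` is good by `r_g'`.  If `fv (r p) = fv (r q)` then
`{r p, r q} = {v, w}`; say `r p = v`, `r q = w`.  `p = inr z`, `z ∈ S`: `q = m z` by `uniq`, so `hc.g p = hc.g q`,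
impossible.  `p = inr z`, `z ∉ S`: finitely many `z` (`cofin`), finite degree.  `p = inl v`: `q = inl w` is impossible
(`hc.g p = hc.g q`), so `q = inr y`, `y` in the finite set `vfin`.
-/

set_option autoImplicit false
set_option linter.unusedSectionVars false

namespace Pool.Agent.Work.MP_e7996b_gt

open Set Topology Filter

variable {V Z : Type}

namespace Col

variable {F : Frame V Z} {v w : V} {S : Set Z} {m : Z → V ⊕ Z} (hc : Col F v w S m)

open scoped Classical in
/-- the map of `V` -/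
noncomputable def fv (_ : Col F v w S m) (x : V) : V := if x = v then w else x

theorem fv_ne (x : V) : hc.fv x ≠ v := by
  classical
  unfold fv
  split_ifs with h
  · exact hc.ne.symm
  · exact h

/-- the graph `T` after the collapse -/
noncomputable def T' : SimpleGraph {x : V // x ≠ v} where
  Adj a b := a ≠ b ∧ ∃ x y, F.T.Adj x y ∧ hc.fv x = a.1 ∧ hc.fv y = b.1
  symm := ⟨fun _ _ ⟨h, x, y, e, e1, e2⟩ => ⟨h.symm, y, x, e.symm, e2, e1⟩⟩
  loopless := ⟨fun _ h => h.1 rfl⟩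

/-- the graph `Γ` after the collapse -/
noncomputable def Γ' : SimpleGraph ({x : V // x ≠ v} ⊕ {z : Z // z ∉ S}) where
  Adj a b := a ≠ b ∧ ∃ p q, F.Γ.Adj p q ∧ hc.g p = a ∧ hc.g q = b
  symm := ⟨fun _ _ ⟨h, x, y, e, e1, e2⟩ => ⟨h.symm, y, x, e.symm, e2, e1⟩⟩
  loopless := ⟨fun _ h => h.1 rfl⟩

/-- the map `ρ` after the collapse -/
noncomputable def ρ' (z : {z : Z // z ∉ S}) : {x : V // x ≠ v} := ⟨hc.fv (F.ρ z), hc.fv_ne _⟩

private theorem fv_v : hc.fv v = w := by
  classical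
  exact if_pos rfl

private theorem fv_of_ne {x : V} (h : x ≠ v) : hc.fv x = x := by
  classical
  exact if_neg h

private theorem fv_w : hc.fv w = w := hc.fv_of_ne hc.ne.symm

private theorem pr_low (a : V ⊕ Z) (h : ¬ Mv v S a) : (pr hc.ρ' (low v S a h)).1 = hc.fv (F.r a) := by
  cases a with
  | inl x =>
    have hx : x ≠ v := h
    exact (hc.fv_of_ne hx).symm
  | inr z => rfl

theorem r_g' (p : V ⊕ Z) : (pr hc.ρ' (hc.g p)).1 = hc.fv (F.r p) := by
  unfold g
  rw [pr_low]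
  by_cases hp : Mv v S p
  · rw [hc.r_mov_of_Mv hp, hc.r_of_Mv hp, fv_v, fv_w]
  · rw [mov_of_not hp]

private theorem g_inl (x : V) : hc.g (Sum.inl x) = Sum.inl ⟨hc.fv x, hc.fv_ne x⟩ := by
  classical
  apply up_injective
  rw [up_g]
  show mov v w S m (Sum.inl x) = Sum.inl (hc.fv x)
  by_cases h : x = v
  · rw [h, mov_v, fv_v]
  · rw [hc.fv_of_ne h]
    exact mov_of_not (show ¬ Mv v S (Sum.inl x) from h)

theorem sub' (a b : {x : V // x ≠ v}) (h : hc.T'.Adj a b) : hc.Γ'.Adj (Sum.inl a) (Sum.inl b) := by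
  obtain ⟨hne, x, y, e, e1, e2⟩ := h
  refine ⟨fun h => hne (Sum.inl_injective h), Sum.inl x, Sum.inl y, F.sub x y e, ?_, ?_⟩
  · rw [g_inl]
    exact congrArg Sum.inl (Subtype.ext e1)
  · rw [g_inl]
    exact congrArg Sum.inl (Subtype.ext e2)

/-- the vertices which are mapped to a given vertex of `Z` -/
private theorem fib_inr (y : {z : Z // z ∉ S}) {p : V ⊕ Z} (hp : hc.g p = Sum.inr y) :
    ∃ z : Z, p = Sum.inr z ∧ (z = y.1 ∨ F.Γ.Adj (Sum.inr y.1) (Sum.inr z)) := by
  cases p with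
  | inl x =>
    rw [g_inl] at hp
    exact absurd hp (by simp)
  | inr z =>
    refine ⟨z, rfl, ?_⟩
    have h1 : mov v w S m (Sum.inr z) = Sum.inr y.1 := by
      rw [← hc.up_g, hp]
      rfl
    by_cases hz : z ∈ S
    · right
      rw [mov_z hz] at h1
      rw [← h1]
      exact (hc.madj z hz).symm
    · left
      have h2 : ¬ Mv v S (Sum.inr z) := hz
      rw [mov_of_not h2] at h1
      exact Sum.inr_injective h1

private theorem fib_finite (y : {z : Z // z ∉ S}) : {z : Z | hc.g (Sum.inr z) = Sum.inr y}.Finite := by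
  have h1 : {z : Z | F.Γ.Adj (Sum.inr y.1) (Sum.inr z)}.Finite :=
    (F.deg y.1).preimage (Sum.inr_injective.injOn)
  refine ((Set.finite_singleton y.1).union h1).subset ?_
  intro z hz
  obtain ⟨z', e, h⟩ := hc.fib_inr y hz
  obtain rfl := Sum.inr_injective e
  exact h

theorem deg' (z : {z : Z // z ∉ S}) : {a | hc.Γ'.Adj (Sum.inr z) a}.Finite := by
  have h1 : (⋃ y ∈ {y : Z | hc.g (Sum.inr y) = Sum.inr z}, hc.g '' {a | F.Γ.Adj (Sum.inr y) a}).Finite :=
    (hc.fib_finite z).biUnion fun y _ => (F.deg y).image _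
  refine h1.subset ?_
  rintro a ⟨-, p, q, e, e1, e2⟩
  obtain ⟨y, rfl, -⟩ := hc.fib_inr z e1
  simp only [Set.mem_iUnion]
  exact ⟨y, e1, q, e, e2⟩

/-- the edges between vertices over `v` and vertices over `w` which are not collapsed -/
private theorem rest_finite : {e : (V ⊕ Z) × (V ⊕ Z) | F.Γ.Adj e.1 e.2 ∧ F.r e.1 = v ∧ F.r e.2 = w ∧
    hc.g e.1 ≠ hc.g e.2}.Finite := by
  have h1 : (⋃ z ∈ {z | F.ρ z = v ∧ z ∉ S}, (fun a => ((Sum.inr z : V ⊕ Z), a)) ''
      {a | F.Γ.Adj (Sum.inr z) a}).Finite := hc.cofin.biUnion fun z _ => (F.deg z).image _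
  have h2 := hc.vfin.image fun z => ((Sum.inl v : V ⊕ Z), (Sum.inr z : V ⊕ Z))
  refine (h1.union h2).subset ?_
  rintro ⟨p, q⟩ ⟨e, hv, hw, hne⟩
  cases p with
  | inr z =>
    by_cases hz : z ∈ S
    · exfalso
      apply hne
      have h3 := hc.uniq z hz q e hw
      rw [hc.g_eq_iff, mov_z hz, ← h3]
      symm
      rw [h3]
      have h4 := hc.mov_mov (Sum.inr z)
      rwa [mov_z hz] at h4
    · left
      simp only [Set.mem_iUnion]
      exact ⟨z, ⟨hv, hz⟩, q, e, rfl⟩
  | inl x =>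
    have hx : x = v := hv
    subst hx
    cases q with
    | inl y =>
      exfalso
      have hy : y = w := hw
      apply hne
      rw [hy, g_inl, g_inl]
      exact congrArg Sum.inl (Subtype.ext (hc.fv_v.trans hc.fv_w.symm))
    | inr y =>
      right
      exact ⟨y, ⟨hw, e⟩, rfl⟩

theorem bad' : {e : ({x : V // x ≠ v} ⊕ {z : Z // z ∉ S}) × ({x : V // x ≠ v} ⊕ {z : Z // z ∉ S}) |
    hc.Γ'.Adj e.1 e.2 ∧ ¬ hc.T'.Adj (pr hc.ρ' e.1) (pr hc.ρ' e.2)}.Finite := by
  have h1 := F.bad.image fun e => (hc.g e.1, hc.g e.2)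
  have h2 := hc.rest_finite.image fun e => (hc.g e.1, hc.g e.2)
  have h3 := hc.rest_finite.image fun e => (hc.g e.2, hc.g e.1)
  refine ((h1.union h2).union h3).subset ?_
  rintro ⟨a, b⟩ ⟨⟨hne, p, q, e, e1, e2⟩, hT⟩
  have ha := hc.r_g' p
  have hb := hc.r_g' q
  simp only at e1 e2 hT hne
  rw [e1] at ha
  rw [e2] at hb
  by_cases hbad : F.T.Adj (pr F.ρ p) (pr F.ρ q)
  · have hb' : F.T.Adj (F.r p) (F.r q) := hbad
    by_cases hf : hc.fv (F.r p) = hc.fv (F.r q)
    · have hpq : F.r p ≠ F.r q := hb'.ne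
      have hg : hc.g p ≠ hc.g q := by
        rw [e1, e2]
        exact hne
      by_cases hp : F.r p = v
      · left
        right
        have hq : F.r q ≠ v := fun h => hpq (hp.trans h.symm)
        rw [hp, fv_v, hc.fv_of_ne hq] at hf
        exact ⟨(p, q), ⟨e, hp, hf.symm, hg⟩, by simp only [e1, e2]⟩
      · by_cases hq : F.r q = v
        · right
          rw [hq, fv_v, hc.fv_of_ne hp] at hf
          exact ⟨(q, p), ⟨e.symm, hq, hf, hg.symm⟩, by simp only [e1, e2]⟩
        · rw [hc.fv_of_ne hp, hc.fv_of_ne hq] at hf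
          exact absurd hf hpq
    · exfalso
      apply hT
      refine ⟨?_, F.r p, F.r q, hb', ha.symm, hb.symm⟩
      intro h
      apply hf
      rw [← ha, ← hb, h]
  · left
    left
    exact ⟨(p, q), ⟨e, hbad⟩, by simp only [e1, e2]⟩

/-- the frame after the collapse -/
noncomputable def frame : Frame {x : V // x ≠ v} {z : Z // z ∉ S} :=
  ⟨hc.T', hc.Γ', hc.ρ', hc.sub', hc.deg', hc.bad'⟩

theorem r_g (p : V ⊕ Z) : (hc.frame.r (hc.g p)).1 = hc.fv (F.r p) := hc.r_g' p

theorem nb_g {p q : V ⊕ Z} (h : F.Nb p q) : hc.frame.Nb (hc.g p) (hc.g q) := by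
  rcases h with rfl | h
  · exact Or.inl rfl
  · by_cases e : hc.g p = hc.g q
    · exact Or.inl e
    · exact Or.inr ⟨e, p, q, h, rfl, rfl⟩

/-- every pair in the new frame comes from a pair in the old one -/
theorem exists_nb {a b : {x : V // x ≠ v} ⊕ {z : Z // z ∉ S}} (h : hc.frame.Nb a b) :
    ∃ p q, F.Nb p q ∧ hc.g p = a ∧ hc.g q = b := by
  rcases h with rfl | ⟨-, p, q, h, e1, e2⟩
  · exact ⟨up a, up a, Or.inl rfl, hc.g_up a, hc.g_up a⟩
  · exact ⟨p, q, Or.inr h, e1, e2⟩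

theorem full (hZ : IsEmpty Z) (h : F.Full) : hc.frame.Full := by
  rintro a b ⟨hne, p, q, e, e1, e2⟩
  cases p with
  | inr z => exact hZ.elim z
  | inl x =>
    cases q with
    | inr z => exact hZ.elim z
    | inl y =>
      rw [g_inl] at e1 e2
      refine ⟨fun h => hne (congrArg Sum.inl h), x, y, h x y e, ?_, ?_⟩
      · rw [← Sum.inl_injective e1]
      · rw [← Sum.inl_injective e2]

end Col

end Pool.Agent.Work.MP_e7996b_gt
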