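import Mathlib

/-!
# MP_e7996b_gt: pseudo-contractible graph-like continua: definitions (fixed, do not change)

A frame is a finite graph `T` on `V`, a graph `Γ` on `V ⊕ Z` which contains `T`, and a map `ρ : Z → V`, such
that every `z : Z` has finitely many neighbours and all but finitely many edges of `Γ` are mapped to edges
of `T` by the retraction `r = id ∪ ρ : V ⊕ Z → V`.  `F.X ⊆ ℝ^(V ⊕ Z)` is the union of the segments
`[P_p, P_q]`, `pq` an edge of `Γ`, and of the points `P_p`, where `P_v = e_v` for `v : V` and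
`P_z = e_z + e_(ρ z)` for `z : Z`.
-/

set_option autoImplicit false
set_option linter.unusedSectionVars false

namespace Pool.Agent.Work.MP_e7996b_gt

open Set Topology

variable {V Z : Type}

/-- the retraction of `V ⊕ Z` onto `V` -/
def pr (ρ : Z → V) : V ⊕ Z → V := Sum.elim id ρ

/-- A graph `T`, a graph `Γ` which contains it, and the retraction. -/
structure Frame (V Z : Type) where
  T : SimpleGraph V
  Γ : SimpleGraph (V ⊕ Z)
  ρ : Z → V
  sub : ∀ v w, T.Adj v w → Γ.Adj (Sum.inl v) (Sum.inl w)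
  deg : ∀ z, {a | Γ.Adj (Sum.inr z) a}.Finite
  bad : {e : (V ⊕ Z) × (V ⊕ Z) | Γ.Adj e.1 e.2 ∧ ¬ T.Adj (pr ρ e.1) (pr ρ e.2)}.Finite

namespace Frame

variable (F : Frame V Z)

/-- the retraction of the vertices -/
def r (p : V ⊕ Z) : V := pr F.ρ p

open scoped Classical in
/-- the position of the vertex `p` -/
noncomputable def pt (p : V ⊕ Z) : V ⊕ Z → ℝ
  | Sum.inl v => if F.r p = v then 1 else 0
  | Sum.inr z => if p = Sum.inr z then 1 else 0

/-- the point of the segment from `p` to `q` with parameter `s` -/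
noncomputable def sg (p q : V ⊕ Z) (s : ℝ) : V ⊕ Z → ℝ := fun c => (1 - s) * F.pt p c + s * F.pt q c

/-- equal or adjacent -/
def Nb (p q : V ⊕ Z) : Prop := p = q ∨ F.Γ.Adj p q

/-- the realization -/
def X : Set (V ⊕ Z → ℝ) := {x | ∃ p q, F.Nb p q ∧ ∃ s ∈ Icc (0 : ℝ) 1, x = F.sg p q s}

/-- the point of `X` with parameter `s` on the segment from `p` to `q` -/
noncomputable def emb {p q : V ⊕ Z} (h : F.Nb p q) {s : ℝ} (hs : s ∈ Icc (0 : ℝ) 1) : F.X :=
  ⟨F.sg p q s, p, q, h, s, hs, rfl⟩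

/-- the vertex `p` -/
noncomputable def vx (p : V ⊕ Z) : F.X := F.emb (p := p) (q := p) (Or.inl rfl) (s := 0) (by simp)

/-- all edges of `Γ` between vertices in `V` are edges of `T` -/
def Full : Prop := ∀ v w, F.Γ.Adj (Sum.inl v) (Sum.inl w) → F.T.Adj v w

/-- `pq` is not an edge of `T` -/
def NotT (p q : V ⊕ Z) : Prop := ∀ v w, p = Sum.inl v → q = Sum.inl w → ¬ F.T.Adj v w

/-- almost all vertices over `v` have at most one neighbour over `w`, and `v` itself has only finitely
many neighbours in `Z` over `w` -/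
def FinB (v w : V) : Prop :=
  {z | F.ρ z = v ∧ ∃ a b, a ≠ b ∧ F.Γ.Adj (Sum.inr z) a ∧ F.Γ.Adj (Sum.inr z) b ∧ F.r a = w ∧
    F.r b = w}.Finite ∧ {z | F.ρ z = w ∧ F.Γ.Adj (Sum.inl v) (Sum.inr z)}.Finite

end Frame

/-- `H` is a pseudo-homotopy over `C` from the identity to the constant map `p`. -/
structure PH {X C : Type*} [TopologicalSpace X] [TopologicalSpace C] (H : X × C → X) (a b : C)
    (p : X) : Prop where
  cont : Continuous H
  ha : ∀ x, H (x, a) = x
  hb : ∀ x, H (x, b) = p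

/-- pseudo-contractible; the parameter space is an arbitrary compact connected Hausdorff space -/
def PC (X : Type*) [TopologicalSpace X] : Prop :=
  ∃ (C : Type) (_ : TopologicalSpace C) (_ : CompactSpace C) (_ : T2Space C) (_ : ConnectedSpace C)
    (a b : C) (p : X) (H : X × C → X), PH H a b p

/-! ## Collapsing an edge of `T` -/

/-- `S` is a set of vertices over `v`, almost all of them; `m z` is the only neighbour of `z` over `w`. The
vertices `z : S` will be moved to `m z` and `v` will be moved to `w`. -/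
structure Col (F : Frame V Z) (v w : V) (S : Set Z) (m : Z → V ⊕ Z) : Prop where
  adj : F.T.Adj v w
  overv : ∀ z ∈ S, F.ρ z = v
  madj : ∀ z ∈ S, F.Γ.Adj (Sum.inr z) (m z)
  mover : ∀ z ∈ S, F.r (m z) = w
  uniq : ∀ z ∈ S, ∀ a, F.Γ.Adj (Sum.inr z) a → F.r a = w → a = m z
  indep : ∀ z ∈ S, ∀ a, F.Γ.Adj (Sum.inr z) a → F.r a ≠ v
  cofin : {z | F.ρ z = v ∧ z ∉ S}.Finite
  vfin : {z | F.ρ z = w ∧ F.Γ.Adj (Sum.inl v) (Sum.inr z)}.Finite

open scoped Classical in
/-- where the vertices are moved -/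
noncomputable def mov (v w : V) (S : Set Z) (m : Z → V ⊕ Z) : V ⊕ Z → V ⊕ Z
  | Sum.inl x => if x = v then Sum.inl w else Sum.inl x
  | Sum.inr z => if z ∈ S then m z else Sum.inr z

/-- the moved vertices -/
def Mv (v : V) (S : Set Z) : V ⊕ Z → Prop
  | Sum.inl x => x = v
  | Sum.inr z => z ∈ S

/-- the vertices which are not moved -/
def low (v : V) (S : Set Z) : (p : V ⊕ Z) → ¬ Mv v S p → {x : V // x ≠ v} ⊕ {z : Z // z ∉ S}
  | Sum.inl x, h => Sum.inl ⟨x, h⟩
  | Sum.inr z, h => Sum.inr ⟨z, h⟩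

/-- the inclusion of the vertices which are not moved -/
def up {v : V} {S : Set Z} : {x : V // x ≠ v} ⊕ {z : Z // z ∉ S} → V ⊕ Z :=
  Sum.map Subtype.val Subtype.val

/-- `x` lies on the segment from some `p` with `mov p = a` to `a` -/
def St (F : Frame V Z) (v w : V) (S : Set Z) (m : Z → V ⊕ Z) (a : V ⊕ Z) (x : F.X) : Prop :=
  ∃ p, mov v w S m p = a ∧ ∃ s ∈ Icc (0 : ℝ) 1, x.1 = F.sg p a s

end Pool.Agent.Work.MP_e7996b_gt
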