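import Pool.Agent.Work.MP_e7996b_gt.Log
import Pool.Agent.Work.MP_e7996b_gt.Glue

/-!
# EdgeRet (M): an edge which is not in `T` is a retract

`φ : X → ℂ`, `φ = exp (2 π i s)` on the edge `[p, q]` (parameter `s` from `p`), `φ = 1` elsewhere: `exists_glue` and
`continuous_glue` with `A = Unit` and `h p' q' s = exp (2 π i s)` for `(p', q') = (p, q)`,
`exp (2 π i (1 - s))` for `(q, p)`, 1 otherwise; only `(p, q)` and `(q, p)` are exceptional in `late`, because
for every other pair `e` also `(inl (r e.1), inl (r e.2))` is not `(p, q)` or `(q, p)`, UNLESS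
`p = inl v`, `q = inl w`; then `T.Adj v w` is false by `hT`, and all pairs `e` with `r e.1 = v`, `r e.2 = w`, `F.Nb`, are bad
edges (finitely many).
`X` is compact (`compactSpace_X`), so `PC.exists_log`: `φ = exp g`.  `u x = Im (g x - g (F.vx p)) / (2 π)` or
better `u x = (g x - g (F.vx p)) / (2 π i)` has integer values where `φ = 1`, and
`u (F.emb _ s) = s` on the edge (the difference is a continuous function of `s` with integer values, 0 at 0).
`l x = max 0 (min 1 (re (u x)))`.  If `0 < l x < 1` then `φ x ≠ 1`, so `x` is on the edge.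
`edge_const`: `s ↦ l (F.emb _ s)` is continuous on `[0,1]` with values in `{0, 1}` (if `0 < l x < 1` then `x` is an
inner point of `[p,q]`, and by `rep` the pair would be `(p,q)` or `(q,p)`), so constant.
-/

set_option autoImplicit false
set_option linter.unusedSectionVars false

namespace Pool.Agent.Work.MP_e7996b_gt

open Set Topology Filter

variable {V Z : Type}

private theorem er_const {S : Type*} [TopologicalSpace S] [PreconnectedSpace S] {ψ : S → ℂ}
    (hψ : Continuous ψ) (h : ∀ s, Complex.exp (ψ s) = 1) (s t : S) : ψ s = ψ t := by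
  have h1 : ∀ s, ∃ n : ℤ, ψ s = n * (2 * Real.pi * Complex.I) := fun s =>
    Complex.exp_eq_one_iff.1 (h s)
  choose n hn using h1
  have h2 : ∀ s, ((n s : ℤ) : ℝ) = (ψ s / (2 * Real.pi * Complex.I)).re := by
    intro s
    rw [hn s, mul_div_assoc, div_self Complex.two_pi_I_ne_zero, mul_one]
    simp
  have h3 : Continuous n := by
    rw [Int.isClosedEmbedding_coe_real.isInducing.continuous_iff]
    have h4 : ((↑) : ℤ → ℝ) ∘ n = fun s => (ψ s / (2 * Real.pi * Complex.I)).re := by
      funext s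
      exact h2 s
    rw [h4]
    exact Complex.continuous_re.comp (hψ.div_const _)
  rw [hn s, hn t, PreconnectedSpace.constant inferInstance h3 (x := s) (y := t)]

open scoped Classical in
private noncomputable def er_h (p q a b : V ⊕ Z) (s : ℝ) (_ : Unit) : ℂ :=
  if a = p ∧ b = q then Complex.exp (2 * Real.pi * Complex.I * (s : ℂ))
  else if a = q ∧ b = p then Complex.exp (2 * Real.pi * Complex.I * ((1 - s : ℝ) : ℂ)) else 1

theorem edge_ret (F : Frame V Z) [Finite V] (h : PC F.X) {p q : V ⊕ Z} (hpq : F.Γ.Adj p q)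
    (hT : F.NotT p q) : ∃ l : F.X → ℝ, Continuous l ∧ (∀ x, l x ∈ Icc (0 : ℝ) 1) ∧
      (∀ s (hs : s ∈ Icc (0 : ℝ) 1), l (F.emb (Or.inr hpq : F.Nb p q) hs) = s) ∧
      ∀ x, 0 < l x → l x < 1 → x.1 = F.sg p q (l x) := by
  classical
  have hcomp := F.compactSpace_X
  have hne : p ≠ q := hpq.ne
  have e1 : ∀ s u, er_h p q p q s u = Complex.exp (2 * Real.pi * Complex.I * (s : ℂ)) := by
    intro s u
    unfold er_h
    rw [if_pos ⟨rfl, rfl⟩]
  have e2 : ∀ s u, er_h p q q p s u =
      Complex.exp (2 * Real.pi * Complex.I * ((1 - s : ℝ) : ℂ)) := by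
    intro s u
    unfold er_h
    rw [if_neg (fun h => hne h.1.symm), if_pos ⟨rfl, rfl⟩]
  have e3 : ∀ a b s u, ¬ (a = p ∧ b = q) → ¬ (a = q ∧ b = p) → er_h p q a b s u = 1 := by
    intro a b s u n1 n2
    unfold er_h
    rw [if_neg n1, if_neg n2]
  have epp : ∀ a s u, er_h p q a a s u = 1 := by
    intro a s u
    refine e3 a a s u ?_ ?_
    · rintro ⟨h1, h2⟩
      exact hne (h1.symm.trans h2)
    · rintro ⟨h1, h2⟩
      exact hne (h2.symm.trans h1)
  have e0 : ∀ a b u, er_h p q a b 0 u = 1 := by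
    intro a b u
    by_cases n1 : a = p ∧ b = q
    · obtain ⟨rfl, rfl⟩ := n1
      rw [e1]
      simp
    · by_cases n2 : a = q ∧ b = p
      · obtain ⟨rfl, rfl⟩ := n2
        rw [e2]
        rw [sub_zero, Complex.ofReal_one, mul_one, Complex.exp_two_pi_mul_I]
      · exact e3 a b 0 u n1 n2
  obtain ⟨φ', hφ'⟩ := exists_glue F (er_h p q)
    (by
      intro a b _ s _ u
      by_cases n1 : a = p ∧ b = q
      · obtain ⟨rfl, rfl⟩ := n1
        rw [e1, e2]
        rw [sub_sub_cancel]
      · by_cases n2 : a = q ∧ b = p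
        · obtain ⟨rfl, rfl⟩ := n2
          rw [e1, e2]
        · rw [e3 a b s u n1 n2, e3 b a (1 - s) u (fun h => n2 ⟨h.2, h.1⟩) fun h => n1 ⟨h.2, h.1⟩])
    (by
      intro a b _ u
      rw [e0, e0])
    (by
      intro a s _ u
      rw [epp, epp])
  have hcont : Continuous φ' := by
    refine continuous_glue F (er_h p q) ?_ ?_ φ' hφ'
    · intro a b _
      apply Continuous.continuousOn
      by_cases n1 : a = p ∧ b = q
      · obtain ⟨rfl, rfl⟩ := n1
        simp only [e1]
        fun_prop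
      · by_cases n2 : a = q ∧ b = p
        · obtain ⟨rfl, rfl⟩ := n2
          simp only [e2]
          fun_prop
        · simp only [e3 a b _ _ n1 n2]
          exact continuous_const
    · refine ((Set.toFinite {(p, q), (q, p)}).union F.bad).subset ?_
      rintro ⟨a, b⟩ ⟨hab, hx⟩
      by_contra hnot
      rw [Set.mem_union, not_or] at hnot
      apply hx
      intro s hs u
      have n1 : ¬ (a = p ∧ b = q) := by
        rintro ⟨rfl, rfl⟩
        exact hnot.1 (Or.inl rfl)
      have n2 : ¬ (a = q ∧ b = p) := by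
        rintro ⟨rfl, rfl⟩
        exact hnot.1 (Or.inr rfl)
      have key : ∀ v w, Sum.inl v = p → Sum.inl w = q →
          ¬ ((F.r a = v ∧ F.r b = w) ∨ (F.r a = w ∧ F.r b = v)) := by
        intro v w hv hw hr
        have hvw : v ≠ w := by
          rintro rfl
          exact hne (hv.symm.trans hw)
        have hadj : F.Γ.Adj a b := by
          rcases hab with hab | hab
          · exfalso
            have hab' : a = b := hab
            rcases hr with ⟨h1, h2⟩ | ⟨h1, h2⟩
            · rw [hab'] at h1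
              exact hvw (h1.symm.trans h2)
            · rw [hab'] at h1
              exact hvw (h2.symm.trans h1)
          · exact hab
        refine hnot.2 ⟨hadj, fun hTT => ?_⟩
        have hTT' : F.T.Adj (F.r a) (F.r b) := hTT
        rcases hr with ⟨h1, h2⟩ | ⟨h1, h2⟩
        · rw [h1, h2] at hTT'
          exact hT v w hv.symm hw.symm hTT'
        · rw [h1, h2] at hTT'
          exact hT v w hv.symm hw.symm hTT'.symm
      show er_h p q a b s u = er_h p q (Sum.inl (F.r a)) (Sum.inl (F.r b)) s u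
      rw [e3 a b s u n1 n2, e3]
      · rintro ⟨h1, h2⟩
        exact key _ _ h1 h2 (Or.inl ⟨rfl, rfl⟩)
      · rintro ⟨h1, h2⟩
        exact key _ _ h2 h1 (Or.inr ⟨rfl, rfl⟩)
  have hne0 : ∀ x : F.X, φ' (x, ()) ≠ 0 := by
    intro x
    obtain ⟨a, b, hab, s, hs, rfl⟩ := F.exists_emb x
    rw [hφ']
    unfold er_h
    split_ifs
    · exact Complex.exp_ne_zero _
    · exact Complex.exp_ne_zero _
    · exact one_ne_zero
  obtain ⟨g, hg, hgφ⟩ := h.exists_log (φ := fun x => φ' (x, ())) (by fun_prop) hne0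
  have hvp : φ' (F.vx p, ()) = 1 := by
    show φ' (F.emb _ _, ()) = 1
    rw [hφ', epp]
  have hπ := Complex.two_pi_I_ne_zero
  let uR : F.X → ℝ := fun x => ((g x - g (F.vx p)) / (2 * Real.pi * Complex.I)).re
  have huR : Continuous uR := Complex.continuous_re.comp ((hg.sub continuous_const).div_const _)
  have hedge : ∀ s (hs : s ∈ Icc (0 : ℝ) 1), uR (F.emb (Or.inr hpq : F.Nb p q) hs) = s := by
    intro s hs
    let ψ : Icc (0 : ℝ) 1 → ℂ := fun s => g (F.emb (Or.inr hpq : F.Nb p q) s.2) - g (F.vx p) -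
      2 * Real.pi * Complex.I * ((s : ℝ) : ℂ)
    have hψ : Continuous ψ := by
      have h1 : Continuous fun s : Icc (0 : ℝ) 1 => g (F.emb (Or.inr hpq : F.Nb p q) s.2) :=
        hg.comp (F.continuous_emb _)
      have h2 : Continuous fun s : Icc (0 : ℝ) 1 => ((s : ℝ) : ℂ) :=
        Complex.continuous_ofReal.comp continuous_subtype_val
      exact (h1.sub continuous_const).sub (continuous_const.mul h2)
    have hψ1 : ∀ s, Complex.exp (ψ s) = 1 := by
      intro s
      show Complex.exp (g (F.emb (Or.inr hpq : F.Nb p q) s.2) - g (F.vx p) -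
        2 * Real.pi * Complex.I * ((s : ℝ) : ℂ)) = 1
      rw [Complex.exp_sub, Complex.exp_sub, ← hgφ, ← hgφ]
      show φ' (_, ()) / φ' (_, ()) / _ = 1
      rw [hφ', hvp, e1, div_one, div_self (Complex.exp_ne_zero _)]
    have hcon := er_const hψ hψ1 ⟨s, hs⟩ ⟨0, by simp⟩
    have h0 : ψ ⟨0, by simp⟩ = 0 := by
      show g (F.emb _ _) - g (F.vx p) - 2 * Real.pi * Complex.I * (((0 : ℝ)) : ℂ) = 0
      rw [F.emb_zero]
      simp
    rw [h0] at hcon
    have h3 : g (F.emb (Or.inr hpq : F.Nb p q) hs) - g (F.vx p) =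
        2 * Real.pi * Complex.I * ((s : ℝ) : ℂ) := sub_eq_zero.1 hcon
    show ((g (F.emb _ hs) - g (F.vx p)) / (2 * Real.pi * Complex.I)).re = s
    rw [h3, mul_comm, mul_div_assoc, div_self hπ, mul_one, Complex.ofReal_re]
  refine ⟨fun x => max 0 (min 1 (uR x)), ?_, ?_, ?_, ?_⟩
  · exact continuous_const.max (continuous_const.min huR)
  · intro x
    exact ⟨le_max_left _ _, max_le zero_le_one (min_le_left _ _)⟩
  · intro s hs
    show max 0 (min 1 (uR _)) = s
    rw [hedge s hs, min_eq_right hs.2, max_eq_right hs.1]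
  · intro x h0 h1
    have h2 : max 0 (min 1 (uR x)) = uR x := by
      have h3 : 0 < min 1 (uR x) := by
        by_contra hc
        push Not at hc
        have : max 0 (min 1 (uR x)) = 0 := max_eq_left hc
        have h0' : 0 < max 0 (min 1 (uR x)) := h0
        linarith
      have h1' : max 0 (min 1 (uR x)) < 1 := h1
      rw [max_eq_right h3.le] at h1' ⊢
      have h4 : uR x < 1 := by
        by_contra hc
        push Not at hc
        rw [min_eq_left hc] at h1'
        exact lt_irrefl _ h1'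
      exact min_eq_right h4.le
    have h0' : 0 < uR x := by rw [← h2]; exact h0
    have h1' : uR x < 1 := by rw [← h2]; exact h1
    have hφ1 : φ' (x, ()) ≠ 1 := by
      intro h3
      have h4 : Complex.exp (g x - g (F.vx p)) = 1 := by
        rw [Complex.exp_sub, ← hgφ, ← hgφ]
        show φ' (x, ()) / φ' (F.vx p, ()) = 1
        rw [h3, hvp, div_one]
      obtain ⟨n, hn⟩ := Complex.exp_eq_one_iff.1 h4
      have h5 : uR x = n := by
        show ((g x - g (F.vx p)) / (2 * Real.pi * Complex.I)).re = n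
        rw [hn, mul_div_assoc, div_self hπ, mul_one]
        simp
      rw [h5] at h0' h1'
      have h6 : (0 : ℤ) < n := by exact_mod_cast h0'
      have h7 : n < (1 : ℤ) := by exact_mod_cast h1'
      omega
    show x.1 = F.sg p q (max 0 (min 1 (uR x)))
    rw [h2]
    obtain ⟨a, b, hab, s, hs, rfl⟩ := F.exists_emb x
    rw [hφ'] at hφ1
    by_cases n1 : a = p ∧ b = q
    · obtain ⟨rfl, rfl⟩ := n1
      rw [hedge s hs]
      rfl
    · by_cases n2 : a = q ∧ b = p
      · obtain ⟨rfl, rfl⟩ := n2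
        have hs' : 1 - s ∈ Icc (0 : ℝ) 1 := ⟨by linarith [hs.2], by linarith [hs.1]⟩
        have h3 : F.emb hab hs = F.emb (Or.inr hpq) hs' :=
          Subtype.ext (by
            show F.sg a b s = F.sg b a (1 - s)
            rw [F.sg_symm])
        rw [h3, hedge _ hs']
        rfl
      · exact absurd (e3 a b s () n1 n2) hφ1

theorem edge_const (F : Frame V Z) {p q : V ⊕ Z} (hpq : F.Γ.Adj p q) {l : F.X → ℝ}
    (hl : Continuous l)
    (h1 : ∀ x, l x ∈ Icc (0 : ℝ) 1) (h2 : ∀ x, 0 < l x → l x < 1 → x.1 = F.sg p q (l x))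
    {a b : V ⊕ Z} (hab : F.Nb a b) (n1 : ¬ (a = p ∧ b = q)) (n2 : ¬ (a = q ∧ b = p)) {s : ℝ}
    (hs : s ∈ Icc (0 : ℝ) 1) : l (F.emb hab hs) = l (F.vx a) := by
  have hval : ∀ t : Icc (0 : ℝ) 1, l (F.emb hab t.2) = 0 ∨ l (F.emb hab t.2) = 1 := by
    intro t
    by_contra hc
    push Not at hc
    have h3 := h1 (F.emb hab t.2)
    have h4 : 0 < l (F.emb hab t.2) := lt_of_le_of_ne h3.1 hc.1.symm
    have h5 : l (F.emb hab t.2) < 1 := lt_of_le_of_ne h3.2 hc.2
    have h6 : F.sg a b t = F.sg p q (l (F.emb hab t.2)) := h2 _ h4 h5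
    rcases rep F t.2 h3 h6 with ⟨r1, r2, -⟩ | ⟨r1, r2, -⟩ | ⟨u, -, r2⟩
    · exact n1 ⟨r1, r2⟩
    · exact n2 ⟨r1, r2⟩
    · rcases r2 with ⟨r3, r4 | r4⟩ | ⟨r3, r4⟩
      · exact hpq.ne (r3.trans r4.symm)
      · exact hc.1 r4
      · exact hc.2 r4
  have hcont : Continuous fun t : Icc (0 : ℝ) 1 => l (F.emb hab t.2) :=
    hl.comp (F.continuous_emb hab)
  have hall : ∀ t t' : Icc (0 : ℝ) 1, l (F.emb hab t.2) = 0 → l (F.emb hab t'.2) = 1 → False := by
    intro t t' e0 e1
    obtain ⟨t'', ht''⟩ := mem_range_of_exists_le_of_exists_ge hcont (c := 1 / 2)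
      ⟨t, by rw [e0]; norm_num⟩ ⟨t', by rw [e1]; norm_num⟩
    replace ht'' : l (F.emb hab t''.2) = 1 / 2 := ht''
    rcases hval t'' with h3 | h3
    · rw [h3] at ht''
      norm_num at ht''
    · rw [h3] at ht''
      norm_num at ht''
  have h00 : (0 : ℝ) ∈ Icc (0 : ℝ) 1 := by simp
  rw [← F.emb_zero hab h00]
  rcases hval ⟨s, hs⟩ with h3 | h3 <;> rcases hval ⟨0, h00⟩ with h4 | h4
  · exact h3.trans h4.symm
  · exact (hall ⟨s, hs⟩ ⟨0, h00⟩ h3 h4).elim
  · exact (hall ⟨0, h00⟩ ⟨s, hs⟩ h4 h3).elim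
  · exact h3.trans h4.symm

end Pool.Agent.Work.MP_e7996b_gt
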