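import Pool.Agent.Work.MP_e7996b_gt.Uniq
import Pool.Agent.Work.MP_e7996b_gt.Alpha
import Pool.Agent.Work.MP_e7996b_gt.Rep

/-!
# Fib (S-M): the fibres of the collapse map

`x = F.emb h hs` (pair `p, q`, parameter `s`), `x' = F.emb h' hs'` (`p', q', s'`).  `hα`: equality of
`hc.frame.sg (hc.g p) (hc.g q) s` and `hc.frame.sg (hc.g p') (hc.g q') s'`; use `rep` for `hc.frame`.
`St_of`: if `hc.g p = hc.g q` (e.g. `p = q`) then `St (mov p) (F.emb h hs)`: `mov p = mov q`; `p = q`: then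
`x = vx p`, `St` with `s = 0`; otherwise `Γ.Adj p q`, `p` or `q` is moved (not both, `not_adj`), the other one is
its image.  If `IsV a' (hc.g p) (hc.g q) s` then `St (up a') x`: `hc.g p = hc.g q` or `s = 0` or `s = 1`.
First alternative of `rep`: `hc.g p = hc.g p'`, `hc.g q = hc.g q'`, `s = s'`.  If `hc.g p = hc.g q`: both in `St (mov p)`;
otherwise `Γ.Adj p q`, `Γ.Adj p' q'`, `uniq_edge`: `p = p'`, `q = q'`, `x = x'`.  Second alternative: the same with
`(q', p')` and `sg_symm`.  Third alternative: both are in `St (up u)`.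
-/

set_option autoImplicit false
set_option linter.unusedSectionVars false

namespace Pool.Agent.Work.MP_e7996b_gt

open Set Topology Filter

variable {V Z : Type}

namespace Col

variable {F : Frame V Z} {v w : V} {S : Set Z} {m : Z → V ⊕ Z} (hc : Col F v w S m)

include hc in
private theorem st_of {p q : V ⊕ Z} (hpq : F.Nb p q) {s : ℝ} (hs : s ∈ Icc (0 : ℝ) 1)
    (e : hc.g p = hc.g q) : St F v w S m (mov v w S m p) (F.emb hpq hs) := by
  have hm : mov v w S m p = mov v w S m q := (hc.g_eq_iff _ _).1 e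
  rcases hpq with rfl | hadj
  · refine ⟨p, rfl, 0, ⟨le_rfl, zero_le_one⟩, ?_⟩
    rw [F.emb_self, F.vx_val, F.sg_zero]
  · by_cases hp : Mv v S p
    · by_cases hq : Mv v S q
      · exact (hc.not_adj hp hq hadj).elim
      · have h1 : mov v w S m p = q := by rw [hm, mov_of_not hq]
        refine ⟨p, rfl, s, hs, ?_⟩
        rw [h1, F.emb_val]
    · have h1 : mov v w S m p = p := mov_of_not hp
      refine ⟨q, hm.symm, 1 - s, ⟨by linarith [hs.2], by linarith [hs.1]⟩, ?_⟩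
      rw [h1, F.emb_val, F.sg_symm]

include hc in
private theorem st_of_isV {p q : V ⊕ Z} (hpq : F.Nb p q) {s : ℝ} (hs : s ∈ Icc (0 : ℝ) 1)
    {u : {x : V // x ≠ v} ⊕ {z : Z // z ∉ S}} (h : IsV u (hc.g p) (hc.g q) s) :
    St F v w S m (up u) (F.emb hpq hs) := by
  rcases h with ⟨h1, h2 | h2⟩ | ⟨h1, h2⟩
  · rw [← h1, hc.up_g]
    exact hc.st_of hpq hs (h1.trans h2.symm)
  · subst h2
    rw [← h1, hc.up_g]
    refine ⟨p, rfl, 0, ⟨le_rfl, zero_le_one⟩, ?_⟩
    rw [F.emb_zero, F.vx_val, F.sg_zero]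
  · subst h2
    rw [← h1, hc.up_g]
    refine ⟨q, rfl, 0, ⟨le_rfl, zero_le_one⟩, ?_⟩
    rw [F.emb_one, F.vx_val, F.sg_zero]

theorem fib [Finite V] (h : PC F.X) {α : F.X → hc.frame.X}
    (hα : ∀ p q (h : F.Nb p q) s (hs : s ∈ Icc (0 : ℝ) 1),
      α (F.emb h hs) = hc.frame.emb (hc.nb_g h) hs) {x x' : F.X} (e : α x = α x') :
    x = x' ∨ ∃ a, St F v w S m a x ∧ St F v w S m a x' := by
  obtain ⟨p, q, hpq, s, hs, rfl⟩ := F.exists_emb x
  obtain ⟨p', q', hpq', s', hs', rfl⟩ := F.exists_emb x'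
  rw [hα, hα] at e
  have e1 := congrArg Subtype.val e
  rw [Frame.emb_val, Frame.emb_val] at e1
  rcases rep hc.frame hs hs' e1 with ⟨h1, h2, h3⟩ | ⟨h1, h2, h3⟩ | ⟨u, h1, h2⟩
  · subst h3
    by_cases hg : hc.g p = hc.g q
    · refine Or.inr ⟨_, hc.st_of hpq hs hg, ?_⟩
      rw [(hc.g_eq_iff _ _).1 h1]
      exact hc.st_of hpq' hs' (h1.symm.trans (hg.trans h2))
    · have hadj : F.Γ.Adj p q := hpq.resolve_left fun h => hg (by rw [h])
      have hadj' : F.Γ.Adj p' q' := hpq'.resolve_left fun h => hg (by rw [h1, h, h2])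
      obtain ⟨rfl, rfl⟩ := hc.uniq_edge h hadj hadj' h1 h2 hg
      exact Or.inl rfl
  · subst h3
    by_cases hg : hc.g p = hc.g q
    · refine Or.inr ⟨_, hc.st_of hpq hs hg, ?_⟩
      rw [(hc.g_eq_iff _ _).1 (hg.trans h2)]
      exact hc.st_of hpq' hs' (h2.symm.trans (hg.symm.trans h1))
    · have hadj : F.Γ.Adj p q := hpq.resolve_left fun h => hg (by rw [h])
      have hadj' : F.Γ.Adj q' p' := (hpq'.resolve_left fun h => hg (by rw [h1, ← h, h2])).symm
      obtain ⟨rfl, rfl⟩ := hc.uniq_edge h hadj hadj' h1 h2 hg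
      refine Or.inl (Subtype.ext ?_)
      rw [Frame.emb_val, Frame.emb_val, F.sg_symm]
  · exact Or.inr ⟨_, hc.st_of_isV hpq hs h1, hc.st_of_isV hpq' hs' h2⟩

end Col

end Pool.Agent.Work.MP_e7996b_gt
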