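import Mathlib

/-!
# HEq (M): collapsing gives a homotopy equivalence (pure topology, Mathlib only)

`α` is a closed surjective continuous map (compact to Hausdorff), so a quotient map; the same holds for
`Prod.map α id : X × I → Y × I` (`X × I` compact, `Y × I` Hausdorff).  `β : Y → X`, `β (α x) = f (x, 1)`, continuous
(`IsQuotientMap.lift` or `IsQuotientMap.continuous_iff` with `β y = f (surjInv hs y, 1)`).
`β ∘ α` is homotopic to `id` by `f`.  `G : Y × I → Y`, `G (α x, t) = α (f (x, t))`, well defined by `h2`, continuous;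
`G (y, 0) = y`, `G (y, 1) = α (β y)`.
(`I = Icc (0 : ℝ) 1 = unitInterval`.)
-/

set_option autoImplicit false
set_option linter.unusedSectionVars false

namespace Pool.Agent.Work.MP_e7996b_gt

open Set Topology Filter

theorem nonempty_homotopyEquiv {X Y : Type*} [TopologicalSpace X] [TopologicalSpace Y]
    [CompactSpace X] [T2Space Y] {α : X → Y} (hα : Continuous α) (hs : Function.Surjective α)
    {f : X × Icc (0 : ℝ) 1 → X} (hf : Continuous f) (hf0 : ∀ x, f (x, ⟨0, by simp⟩) = x)
    (h1 : ∀ x x', α x = α x' → f (x, ⟨1, by simp⟩) = f (x', ⟨1, by simp⟩))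
    (h2 : ∀ x x' t, α x = α x' → α (f (x, t)) = α (f (x', t))) :
    Nonempty (ContinuousMap.HomotopyEquiv X Y) := by
  have hq : IsQuotientMap α := hα.isClosedMap.isQuotientMap hα hs
  have hq2 : IsQuotientMap (Prod.map (id : Icc (0 : ℝ) 1 → Icc (0 : ℝ) 1) α) := by
    have hc : Continuous (Prod.map (id : Icc (0 : ℝ) 1 → Icc (0 : ℝ) 1) α) := by fun_prop
    exact hc.isClosedMap.isQuotientMap hc (Function.surjective_id.prodMap hs)
  let β : Y → X := fun y => f (Function.surjInv hs y, ⟨1, by simp⟩)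
  have hβα : ∀ x, β (α x) = f (x, ⟨1, by simp⟩) := fun x =>
    h1 _ _ (Function.surjInv_eq hs (α x))
  have hβ : Continuous β := by
    rw [hq.continuous_iff]
    have : β ∘ α = fun x => f (x, ⟨1, by simp⟩) := funext hβα
    rw [this]
    fun_prop
  let G : Icc (0 : ℝ) 1 × Y → Y := fun q => α (f (Function.surjInv hs q.2, q.1))
  have hGα : ∀ t x, G (t, α x) = α (f (x, t)) := fun t x =>
    h2 _ _ t (Function.surjInv_eq hs (α x))
  have hG : Continuous G := by
    rw [hq2.continuous_iff]
    have : G ∘ Prod.map id α = fun q : Icc (0 : ℝ) 1 × X => α (f (q.2, q.1)) :=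
      funext fun q => hGα q.1 q.2
    rw [this]
    fun_prop
  refine ⟨⟨⟨α, hα⟩, ⟨β, hβ⟩, ?_, ?_⟩⟩
  · refine ContinuousMap.Homotopic.symm ⟨⟨⟨fun q => f (q.2, q.1), by fun_prop⟩, ?_, ?_⟩⟩
    · intro x
      exact hf0 x
    · intro x
      exact (hβα x).symm
  · refine ContinuousMap.Homotopic.symm ⟨⟨⟨G, hG⟩, ?_, ?_⟩⟩
    · intro y
      obtain ⟨x, rfl⟩ := hs y
      have h3 := hGα ⟨0, by simp⟩ x
      rw [hf0] at h3
      exact h3
    · intro y
      obtain ⟨x, rfl⟩ := hs y
      have h3 := hGα ⟨1, by simp⟩ x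
      rw [← hβα] at h3
      exact h3

end Pool.Agent.Work.MP_e7996b_gt
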