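import Pool.Agent.Work.MP_e7996b_gt.Glue

/-!
# Homot (M-L): moving the vertices

Put `σ s t = s (1 + t) - t` (for `s, t ∈ [0,1]`: `-t ≤ σ ≤ 1`), `M = mov v w S m`.  `hom p q s t : V ⊕ Z → ℝ`:
* `p`, `q` both moved (only `p = q` matters): `F.sg p (M p) t`
* `p` moved, `q` not, `q = M p`: `F.sg p q (s + t - s t)`
* `p` moved, `q` not, `q ≠ M p`: `F.sg p (M p) (-σ s t)` if `σ s t ≤ 0`, `F.sg p q (σ s t)` otherwise
* `q` moved, `p` not: `hom q p (1-s) t` (i.e. the two previous formulas with `q, p, 1-s`)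
* none moved: `F.sg p q s`
`exists_glue` with `A = Icc 0 1`: `hsymm` (both moved is impossible by `not_adj`), `h0`: `hom p q 0 t = hom p p 0 t`
(`p` moved: both are `F.sg p (M p) t`; `q` moved, `p` not: `σ 1 t = 1`, resp. `1 + t - t = 1`: `F.pt p`), `hpp`.  The
values are in `F.X` (`nb_mov`).
Continuity in every coordinate `c` with `continuous_glue`.  `hc` (continuity for a fixed pair): the formula with two
cases agrees at `σ = 0` (`F.pt p`), `Continuous.if_le`.  `late`: let `E` be the union of `F.bad`, of all pairs with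
one entry `inr z`, `ρ z = v`, `z ∉ S` (finite: `cofin`, `F.deg`), and of all pairs `(inl v, inr z)`, `(inr z, inl v)` with `z` in
`vfin`.  `c = inl u`: outside of `E` the values at `(p, q)` and `(inl (r p), inl (r q))` are equal: the coordinate
`inl u` of `F.sg a b s` depends only on `r a`, `r b`; `p` is moved iff `r p = v` iff `inl (r p)` is moved; `r (M p) = w`
for `p` moved; if `p` is moved and `q` is not: `q = M p` iff `r q = w` (`uniq` for `p = inr z`; for `p = inl v`: `q` over `w`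
is `inl w` or in `vfin`).  `c = inr y`: the value at `(inl (r p), inl (r q))` is 0; the value at `(p, q)` is 0 unless one of
`p, q, M p, M q` is `inr y`; so `p` or `q` is in `{inr y} ∪ {neighbours of inr y in Z}`, finitely many pairs (careful:
`M p = inr y` only for `p = inr z`, `z ∈ S`, or `p = inr y`, never for `p` in `V`).
Remaining claims: `t = 0`: `σ s 0 = s`, `s + 0 - 0 = s`.  `St a x`: `x.1 = F.sg p a s`, `M p = a`: if `p` is moved, `a` is not, `a = M p`:
the value is `F.sg p a (s + t - s t)`, for `t = 1` it is `F.pt a`; if `p` is not moved, `a = p` and `x` stays fixed.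
-/

set_option autoImplicit false
set_option linter.unusedSectionVars false

namespace Pool.Agent.Work.MP_e7996b_gt

open Set Topology Filter

variable {V Z : Type}

section

variable (F : Frame V Z) (v w : V) (S : Set Z) (m : Z → V ⊕ Z)

open scoped Classical in
/-- the motion of the edge from a moved vertex `p` to a vertex `q` which is not moved -/
private noncomputable def A1 (p q : V ⊕ Z) (s t : ℝ) : V ⊕ Z → ℝ :=
  if q = mov v w S m p then F.sg p q (s + t - s * t)
  else if s * (1 + t) - t ≤ 0 then F.sg p (mov v w S m p) (-(s * (1 + t) - t))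
  else F.sg p q (s * (1 + t) - t)

open scoped Classical in
/-- the motion of the edge `pq` -/
private noncomputable def hom (p q : V ⊕ Z) (s t : ℝ) : V ⊕ Z → ℝ :=
  if Mv v S p then (if Mv v S q then F.sg p (mov v w S m p) t else A1 F v w S m p q s t)
  else (if Mv v S q then A1 F v w S m q p (1 - s) t else F.sg p q s)

variable {F v w S m}

private theorem A1_eq {p q : V ⊕ Z} (h : q = mov v w S m p) (s t : ℝ) :
    A1 F v w S m p q s t = F.sg p q (s + t - s * t) := if_pos h

private theorem A1_le {p q : V ⊕ Z} (h : q ≠ mov v w S m p) {s t : ℝ} (hs : s * (1 + t) - t ≤ 0) :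
    A1 F v w S m p q s t = F.sg p (mov v w S m p) (-(s * (1 + t) - t)) := by
  rw [A1, if_neg h, if_pos hs]

private theorem A1_gt {p q : V ⊕ Z} (h : q ≠ mov v w S m p) {s t : ℝ} (hs : ¬ s * (1 + t) - t ≤ 0) :
    A1 F v w S m p q s t = F.sg p q (s * (1 + t) - t) := by
  rw [A1, if_neg h, if_neg hs]

private theorem hom_pp {p q : V ⊕ Z} (hp : Mv v S p) (hq : Mv v S q) (s t : ℝ) :
    hom F v w S m p q s t = F.sg p (mov v w S m p) t := by
  rw [hom, if_pos hp, if_pos hq]

private theorem hom_pn {p q : V ⊕ Z} (hp : Mv v S p) (hq : ¬ Mv v S q) (s t : ℝ) :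
    hom F v w S m p q s t = A1 F v w S m p q s t := by
  rw [hom, if_pos hp, if_neg hq]

private theorem hom_np {p q : V ⊕ Z} (hp : ¬ Mv v S p) (hq : Mv v S q) (s t : ℝ) :
    hom F v w S m p q s t = A1 F v w S m q p (1 - s) t := by
  rw [hom, if_neg hp, if_pos hq]

private theorem hom_nn {p q : V ⊕ Z} (hp : ¬ Mv v S p) (hq : ¬ Mv v S q) (s t : ℝ) :
    hom F v w S m p q s t = F.sg p q s := by
  rw [hom, if_neg hp, if_neg hq]

private theorem A1_zero_left (p q : V ⊕ Z) {t : ℝ} (ht : 0 ≤ t) :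
    A1 F v w S m p q 0 t = F.sg p (mov v w S m p) t := by
  by_cases h : q = mov v w S m p
  · rw [A1_eq h, h]
    congr 1
    ring
  · rw [A1_le h (by linarith)]
    congr 1
    ring

private theorem A1_one_left (p q : V ⊕ Z) (t : ℝ) : A1 F v w S m p q 1 t = F.pt q := by
  by_cases h : q = mov v w S m p
  · rw [A1_eq h, show (1 : ℝ) + t - 1 * t = 1 by ring, F.sg_one]
  · rw [A1_gt h (by linarith), show (1 : ℝ) * (1 + t) - t = 1 by ring, F.sg_one]

private theorem A1_zero_right (p q : V ⊕ Z) {s : ℝ} (hs : 0 ≤ s) :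
    A1 F v w S m p q s 0 = F.sg p q s := by
  by_cases h : q = mov v w S m p
  · rw [A1_eq h]
    congr 1
    ring
  · by_cases h1 : s * (1 + 0) - 0 ≤ 0
    · have h2 : s = 0 := by linarith
      rw [A1_le h h1, h2, show -((0 : ℝ) * (1 + 0) - 0) = 0 by ring, F.sg_zero, F.sg_zero]
    · rw [A1_gt h h1]
      congr 1
      ring

private theorem A1_cont (p q c : V ⊕ Z) :
    Continuous fun x : ℝ × Icc (0 : ℝ) 1 => A1 F v w S m p q x.1 x.2.1 c := by
  by_cases h : q = mov v w S m p
  · have e : (fun x : ℝ × Icc (0 : ℝ) 1 => A1 F v w S m p q x.1 x.2.1 c) =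
        fun x : ℝ × Icc (0 : ℝ) 1 => (1 - (x.1 + x.2.1 - x.1 * x.2.1)) * F.pt p c +
          (x.1 + x.2.1 - x.1 * x.2.1) * F.pt q c := by
      funext x
      rw [A1_eq h, F.sg_apply]
    rw [e]
    fun_prop
  · have e : (fun x : ℝ × Icc (0 : ℝ) 1 => A1 F v w S m p q x.1 x.2.1 c) =
        fun x : ℝ × Icc (0 : ℝ) 1 => if x.1 * (1 + x.2.1) - x.2.1 ≤ 0 then
          F.sg p (mov v w S m p) (-(x.1 * (1 + x.2.1) - x.2.1)) c
          else F.sg p q (x.1 * (1 + x.2.1) - x.2.1) c := by
      funext x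
      by_cases h1 : x.1 * (1 + x.2.1) - x.2.1 ≤ 0
      · rw [if_pos h1, A1_le h h1]
      · rw [if_neg h1, A1_gt h h1]
    rw [e]
    refine Continuous.if_le ?_ ?_ ?_ continuous_const ?_
    · simp only [F.sg_apply]
      fun_prop
    · simp only [F.sg_apply]
      fun_prop
    · fun_prop
    · intro x hx
      rw [hx, neg_zero, F.sg_zero, F.sg_zero]

private theorem A1_mem {p q : V ⊕ Z} (h : F.Nb p q) (h' : F.Nb p (mov v w S m p)) {s t : ℝ}
    (hs : s ∈ Icc (0 : ℝ) 1) (ht : t ∈ Icc (0 : ℝ) 1) : A1 F v w S m p q s t ∈ F.X := by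
  obtain ⟨hs0, hs1⟩ := hs
  obtain ⟨ht0, ht1⟩ := ht
  by_cases hq : q = mov v w S m p
  · rw [A1_eq hq]
    exact ⟨p, q, h, _, ⟨by nlinarith, by nlinarith⟩, rfl⟩
  · by_cases h1 : s * (1 + t) - t ≤ 0
    · rw [A1_le hq h1]
      exact ⟨p, _, h', _, ⟨by linarith, by nlinarith⟩, rfl⟩
    · rw [A1_gt hq h1]
      exact ⟨p, q, h, _, ⟨by linarith, by nlinarith⟩, rfl⟩

/-- finitely many edges at finitely many vertices in `Z` -/
private theorem fin_edges {K : Set Z} (hK : K.Finite) :
    {e : (V ⊕ Z) × (V ⊕ Z) | F.Nb e.1 e.2 ∧ ∃ z ∈ K, e.1 = Sum.inr z ∨ e.2 = Sum.inr z}.Finite := by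
  have h1 : ∀ z : Z, (insert (Sum.inr z) {a : V ⊕ Z | F.Γ.Adj (Sum.inr z) a}).Finite :=
    fun z => (F.deg z).insert _
  refine (hK.biUnion fun z _ => (((finite_singleton (Sum.inr z : V ⊕ Z)).prod (h1 z)).union
    ((h1 z).prod (finite_singleton (Sum.inr z : V ⊕ Z))))).subset ?_
  rintro ⟨p, q⟩ ⟨hpq, z, hz, he⟩
  simp only at hpq he
  rw [mem_iUnion₂]
  refine ⟨z, hz, ?_⟩
  rcases he with he | he
  · subst he
    left
    refine ⟨rfl, ?_⟩
    rcases hpq with h | h
    · left
      exact h.symm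
    · right
      exact h
  · subst he
    right
    refine ⟨?_, rfl⟩
    rcases hpq with h | h
    · left
      exact h
    · right
      exact h.symm

end

private theorem sg_inl (F : Frame V Z) (p q p' q' : V ⊕ Z) (s : ℝ) (u : V) (hp : F.r p = F.r p')
    (hq : F.r q = F.r q') : F.sg p q s (Sum.inl u) = F.sg p' q' s (Sum.inl u) := by
  rw [F.sg_apply, F.sg_apply, F.pt_inl, F.pt_inl, F.pt_inl, F.pt_inl, hp, hq]

private theorem sg_inr_zero (F : Frame V Z) {p q : V ⊕ Z} (s : ℝ) {y : Z} (hp : p ≠ Sum.inr y)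
    (hq : q ≠ Sum.inr y) : F.sg p q s (Sum.inr y) = 0 := by
  rw [F.sg_apply, F.pt_inr, F.pt_inr, if_neg hp, if_neg hq]
  ring

namespace Col

variable {F : Frame V Z} {v w : V} {S : Set Z} {m : Z → V ⊕ Z} (hc : Col F v w S m)

private theorem A1_inr_zero {p q : V ⊕ Z} (s t : ℝ) {y : Z} (hp : p ≠ Sum.inr y)
    (hq : q ≠ Sum.inr y) (hM : mov v w S m p ≠ Sum.inr y) :
    A1 F v w S m p q s t (Sum.inr y) = 0 := by
  by_cases h : q = mov v w S m p
  · rw [A1_eq h, sg_inr_zero F _ hp hq]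
  · by_cases h1 : s * (1 + t) - t ≤ 0
    · rw [A1_le h h1, sg_inr_zero F _ hp hM]
    · rw [A1_gt h h1, sg_inr_zero F _ hp hq]

private theorem hom_inr_zero {p q : V ⊕ Z} (s t : ℝ) {y : Z} (hp : p ≠ Sum.inr y)
    (hq : q ≠ Sum.inr y) (hMp : mov v w S m p ≠ Sum.inr y) (hMq : mov v w S m q ≠ Sum.inr y) :
    hom F v w S m p q s t (Sum.inr y) = 0 := by
  by_cases h1 : Mv v S p <;> by_cases h2 : Mv v S q
  · rw [hom_pp h1 h2, sg_inr_zero F _ hp hMp]
  · rw [hom_pn h1 h2, A1_inr_zero s t hp hq hMp]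
  · rw [hom_np h1 h2, A1_inr_zero _ t hq hp hMq]
  · rw [hom_nn h1 h2, sg_inr_zero F _ hp hq]

private theorem mov_inl_ne (x : V) (y : Z) : mov v w S m (Sum.inl x) ≠ Sum.inr y := by
  by_cases hx : x = v
  · rw [hx, mov_v]
    exact Sum.inl_ne_inr
  · rw [mov_of_not (show ¬ Mv v S (Sum.inl x) from hx)]
    exact Sum.inl_ne_inr

include hc in
private theorem A1_inl {p q : V ⊕ Z} (s t : ℝ) (u : V) (hp : Mv v S p)
    (hq : q = mov v w S m p ↔ F.r q = w) :
    A1 F v w S m p q s t (Sum.inl u) =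
      A1 F v w S m (Sum.inl (F.r p)) (Sum.inl (F.r q)) s t (Sum.inl u) := by
  have hr := hc.r_of_Mv hp
  have hrM := hc.r_mov_of_Mv hp
  have hiff : (Sum.inl (F.r q) : V ⊕ Z) = mov v w S m (Sum.inl (F.r p)) ↔ F.r q = w := by
    rw [hr, mov_v]
    exact Sum.inl_injective.eq_iff
  by_cases h : F.r q = w
  · rw [A1_eq (hq.2 h), A1_eq (hiff.2 h)]
    exact sg_inl F _ _ _ _ _ _ rfl rfl
  · have hn1 : q ≠ mov v w S m p := fun e => h (hq.1 e)
    have hn2 : (Sum.inl (F.r q) : V ⊕ Z) ≠ mov v w S m (Sum.inl (F.r p)) := fun e => h (hiff.1 e)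
    by_cases h1 : s * (1 + t) - t ≤ 0
    · rw [A1_le hn1 h1, A1_le hn2 h1]
      refine sg_inl F _ _ _ _ _ _ rfl ?_
      rw [hrM, hr, mov_v]
      rfl
    · rw [A1_gt hn1 h1, A1_gt hn2 h1]
      exact sg_inl F _ _ _ _ _ _ rfl rfl

include hc in
/-- the exceptional set is finite -/
private theorem late_fin (c : V ⊕ Z) :
    {e : (V ⊕ Z) × (V ⊕ Z) | F.Nb e.1 e.2 ∧ ¬ ∀ s ∈ Icc (0 : ℝ) 1, ∀ a : Icc (0 : ℝ) 1,
      hom F v w S m e.1 e.2 s a.1 c =
        hom F v w S m (Sum.inl (F.r e.1)) (Sum.inl (F.r e.2)) s a.1 c}.Finite := by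
  cases c with
  | inl u =>
    refine ((fin_edges (F := F) (hc.cofin.union hc.vfin))).subset ?_
    rintro ⟨p, q⟩ ⟨hpq, hne⟩
    refine ⟨hpq, ?_⟩
    by_contra hcon
    push Not at hcon
    apply hne
    intro s hs a
    simp only at hpq hcon ⊢
    -- moved vertices are exactly the vertices over `v`
    have hmv : ∀ x : V ⊕ Z, (x = p ∨ x = q) → (Mv v S x ↔ F.r x = v) := by
      intro x hx
      refine ⟨hc.r_of_Mv, fun hr => ?_⟩
      cases x with
      | inl y => exact hr
      | inr z =>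
        by_contra hz
        have hz' : z ∉ S := hz
        have := hcon z (Or.inl ⟨hr, hz'⟩)
        rcases hx with hx | hx
        · exact this.1 hx.symm
        · exact this.2 hx.symm
    have hmv' : ∀ y : V, (Mv v S (Sum.inl y : V ⊕ Z) ↔ y = v) := fun y => Iff.rfl
    have hkey : ∀ x y : V ⊕ Z, ((x = p ∧ y = q) ∨ (x = q ∧ y = p)) → F.Γ.Adj x y → Mv v S x →
        (y = mov v w S m x ↔ F.r y = w) := by
      intro x y hxy hadj hx
      constructor
      · intro h
        rw [h, hc.r_mov_of_Mv hx]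
      · intro h
        cases x with
        | inr z =>
          rw [mov_z hx]
          exact hc.uniq z hx y hadj h
        | inl x =>
          have hxv : x = v := hx
          subst hxv
          rw [mov_v]
          cases y with
          | inl y =>
            have : y = w := h
            rw [this]
          | inr y =>
            exfalso
            have h2 := hcon y (Or.inr ⟨h, hadj⟩)
            rcases hxy with hxy | hxy
            · exact h2.2 hxy.2.symm
            · exact h2.1 hxy.2.symm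
    by_cases h1 : Mv v S p <;> by_cases h2 : Mv v S q
    · have h1' := (hmv p (Or.inl rfl)).1 h1
      have h2' := (hmv q (Or.inr rfl)).1 h2
      rw [hom_pp h1 h2, hom_pp ((hmv' _).2 h1') ((hmv' _).2 h2')]
      refine sg_inl F _ _ _ _ _ _ rfl ?_
      rw [hc.r_mov_of_Mv h1, h1', mov_v]
      rfl
    · have h1' := (hmv p (Or.inl rfl)).1 h1
      have h2' : ¬ F.r q = v := fun e => h2 ((hmv q (Or.inr rfl)).2 e)
      rw [hom_pn h1 h2, hom_pn ((hmv' _).2 h1') (fun e => h2' ((hmv' _).1 e))]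
      have hadj : F.Γ.Adj p q := by
        rcases hpq with h | h
        · exact absurd (h ▸ h1) h2
        · exact h
      exact hc.A1_inl s a.1 u h1 (hkey p q (Or.inl ⟨rfl, rfl⟩) hadj h1)
    · have h1' : ¬ F.r p = v := fun e => h1 ((hmv p (Or.inl rfl)).2 e)
      have h2' := (hmv q (Or.inr rfl)).1 h2
      rw [hom_np h1 h2, hom_np (fun e => h1' ((hmv' _).1 e)) ((hmv' _).2 h2')]
      have hadj : F.Γ.Adj q p := by
        rcases hpq with h | h
        · exact absurd (h ▸ h2) h1
        · exact h.symm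
      exact hc.A1_inl (1 - s) a.1 u h2 (hkey q p (Or.inr ⟨rfl, rfl⟩) hadj h2)
    · have h1' : ¬ F.r p = v := fun e => h1 ((hmv p (Or.inl rfl)).2 e)
      have h2' : ¬ F.r q = v := fun e => h2 ((hmv q (Or.inr rfl)).2 e)
      rw [hom_nn h1 h2, hom_nn (fun e => h1' ((hmv' _).1 e)) (fun e => h2' ((hmv' _).1 e))]
      exact sg_inl F _ _ _ _ _ _ rfl rfl
  | inr y =>
    have hK : (insert y {z : Z | F.Γ.Adj (Sum.inr y) (Sum.inr z)}).Finite := by
      refine Finite.insert _ ?_
      exact (F.deg y).preimage Sum.inr_injective.injOn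
    refine (fin_edges (F := F) hK).subset ?_
    rintro ⟨p, q⟩ ⟨hpq, hne⟩
    refine ⟨hpq, ?_⟩
    by_contra hcon
    push Not at hcon
    apply hne
    intro s hs a
    simp only at hpq hcon ⊢
    have hp : p ≠ Sum.inr y := (hcon y (Or.inl rfl)).1
    have hq : q ≠ Sum.inr y := (hcon y (Or.inl rfl)).2
    have hM : ∀ x : V ⊕ Z, (x = p ∨ x = q) → x ≠ Sum.inr y → mov v w S m x ≠ Sum.inr y := by
      intro x hx hxy he
      cases x with
      | inl x => exact mov_inl_ne x y he
      | inr z =>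
        by_cases hz : Mv v S (Sum.inr z : V ⊕ Z)
        · have hadj := hc.adj_mov hz
          rw [he] at hadj
          have h3 := hcon z (Or.inr hadj.symm)
          rcases hx with hx | hx
          · exact h3.1 hx.symm
          · exact h3.2 hx.symm
        · rw [mov_of_not hz] at he
          exact hxy he
    rw [hom_inr_zero s a.1 hp hq (hM p (Or.inl rfl) hp) (hM q (Or.inr rfl) hq),
      hom_inr_zero s a.1 Sum.inl_ne_inr Sum.inl_ne_inr (mov_inl_ne _ y) (mov_inl_ne _ y)]

include hc in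
theorem exists_homot [Finite V] : ∃ f : F.X × Icc (0 : ℝ) 1 → F.X, Continuous f ∧
    (∀ x, f (x, ⟨0, by simp⟩) = x) ∧
    (∀ a x, St F v w S m a x → ∀ t, St F v w S m a (f (x, t))) ∧
    ∀ a x, St F v w S m a x → f (x, ⟨1, by simp⟩) = F.vx a := by
  obtain ⟨f0, hf0⟩ := exists_glue (A := Icc (0 : ℝ) 1) F (fun p q s t => hom F v w S m p q s t.1)
    (by
      intro p q hpq s hs a
      by_cases h1 : Mv v S p <;> by_cases h2 : Mv v S q
      · exact absurd hpq (hc.not_adj h1 h2)
      · rw [hom_np h2 h1, hom_pn h1 h2, sub_sub_cancel]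
      · rw [hom_pn h2 h1, hom_np h1 h2]
      · rw [hom_nn h2 h1, hom_nn h1 h2, F.sg_symm])
    (by
      intro p q hpq a
      by_cases h1 : Mv v S p <;> by_cases h2 : Mv v S q
      · exact absurd hpq (hc.not_adj h1 h2)
      · rw [hom_pn h1 h2, hom_pp h1 h1, A1_zero_left _ _ a.2.1]
      · rw [hom_np h1 h2, hom_nn h1 h1, sub_zero, A1_one_left, F.sg_self]
      · rw [hom_nn h1 h2, hom_nn h1 h1, F.sg_zero, F.sg_zero])
    (by
      intro p s hs a
      by_cases h1 : Mv v S p
      · rw [hom_pp h1 h1, hom_pp h1 h1]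
      · rw [hom_nn h1 h1, hom_nn h1 h1, F.sg_self, F.sg_self])
  have hmem : ∀ x : F.X × Icc (0 : ℝ) 1, f0 x ∈ F.X := by
    rintro ⟨x, t⟩
    obtain ⟨p, q, h, s, hs, rfl⟩ := F.exists_emb x
    rw [hf0 p q h s hs t]
    have hs' : (1 - s) ∈ Icc (0 : ℝ) 1 := ⟨by linarith [hs.2], by linarith [hs.1]⟩
    by_cases h1 : Mv v S p <;> by_cases h2 : Mv v S q
    · simp only [hom_pp h1 h2]
      exact ⟨p, _, hc.nb_mov p, t.1, t.2, rfl⟩
    · simp only [hom_pn h1 h2]
      exact A1_mem h (hc.nb_mov p) hs t.2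
    · simp only [hom_np h1 h2]
      exact A1_mem h.symm (hc.nb_mov q) hs' t.2
    · simp only [hom_nn h1 h2]
      exact ⟨p, q, h, s, hs, rfl⟩
  have hcont : Continuous f0 := by
    refine continuous_pi fun c => ?_
    refine continuous_glue F (fun p q s t => hom F v w S m p q s t.1 c) ?_ (hc.late_fin c) _ ?_
    · intro p q hpq
      apply Continuous.continuousOn
      by_cases h1 : Mv v S p <;> by_cases h2 : Mv v S q
      · simp only [hom_pp h1 h2, F.sg_apply]
        fun_prop
      · simp only [hom_pn h1 h2]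
        exact A1_cont p q c
      · simp only [hom_np h1 h2]
        exact (A1_cont q p c).comp (f := fun x : ℝ × Icc (0 : ℝ) 1 => (1 - x.1, x.2))
          ((continuous_const.sub continuous_fst).prodMk continuous_snd)
      · simp only [hom_nn h1 h2, F.sg_apply]
        fun_prop
    · intro p q hpq s hs a
      show f0 (F.emb hpq hs, a) c = _
      rw [hf0]
  -- the stars
  have hst : ∀ a x, St F v w S m a x → ∀ t : Icc (0 : ℝ) 1, ∃ p, mov v w S m p = a ∧
      ∃ s' ∈ Icc (0 : ℝ) 1, f0 (x, t) = F.sg p a s' ∧ (t.1 = 1 → f0 (x, t) = F.pt a) := by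
    rintro a x ⟨p, hpa, s, hs, hx⟩ t
    subst hpa
    have hx' : x = F.emb (hc.nb_mov p) hs := Subtype.ext hx
    have hn := hc.not_Mv p
    by_cases h1 : Mv v S p
    · have e : f0 (x, t) = F.sg p (mov v w S m p) (s + t.1 - s * t.1) := by
        rw [hx', hf0]
        simp only [hom_pn h1 hn]
        rw [A1_eq rfl]
      refine ⟨p, rfl, s + t.1 - s * t.1, ?_, e, fun ht => ?_⟩
      · have := hs.1
        have := hs.2
        have := t.2.1
        have := t.2.2
        exact ⟨by nlinarith, by nlinarith⟩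
      · rw [e, ht, show s + 1 - s * 1 = 1 by ring, F.sg_one]
    · have hM := mov_of_not (w := w) (m := m) h1
      have e : f0 (x, t) = F.sg p (mov v w S m p) s := by
        rw [hx', hf0]
        simp only [hom_nn h1 hn]
      refine ⟨p, rfl, s, hs, e, fun _ => ?_⟩
      rw [e, hM, F.sg_self]
  refine ⟨fun x => ⟨f0 x, hmem x⟩, hcont.subtype_mk _, ?_, ?_, ?_⟩
  · intro x
    apply Subtype.ext
    show f0 (x, _) = x.1
    obtain ⟨p, q, h, s, hs, rfl⟩ := F.exists_emb x
    rw [hf0 p q h s hs, F.emb_val]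
    have hs' : 0 ≤ 1 - s := by linarith [hs.2]
    by_cases h1 : Mv v S p <;> by_cases h2 : Mv v S q
    · simp only [hom_pp h1 h2]
      rcases h with h | h
      · rw [← h, F.sg_self, F.sg_zero]
      · exact absurd h (hc.not_adj h1 h2)
    · simp only [hom_pn h1 h2]
      rw [A1_zero_right _ _ hs.1]
    · simp only [hom_np h1 h2]
      rw [A1_zero_right _ _ hs', F.sg_symm]
    · simp only [hom_nn h1 h2]
  · intro a x hx t
    obtain ⟨p, hp, s', hs', he, -⟩ := hst a x hx t
    exact ⟨p, hp, s', hs', he⟩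
  · intro a x hx
    obtain ⟨p, hp, s', hs', -, he⟩ := hst a x hx ⟨1, by simp⟩
    apply Subtype.ext
    rw [F.vx_val]
    exact he rfl

end Col

end Pool.Agent.Work.MP_e7996b_gt
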