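import Pool.Agent.Work.MP_e7996b_gt.Basic

/-!
# Log (M): logarithms along a connected parameter space; connectedness; the circle

`exists_log_family`: `D = {c | ∃ g continuous, ∀ x, Φ (x, c) = exp (g x)}`.  For every `c` there is a neighbourhood
`U` of `c` with `Φ (x, c') / Φ (x, c) ∈ Complex.slitPlane` for all `x : L`, `c' ∈ U` (tube lemma, `L` compact; the
ratio is continuous and 1 for `c' = c`; e.g. `generalized_tube_lemma` or `isCompact_univ` +
`eventually_forall`); then `c ∈ D ↔ c' ∈ D` (`Complex.log` of the ratio is continuous).  So `D` is clopen, `b ∈ D`,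
hence `a ∈ D` (`IsClopen.eq_univ`).
`PC.exists_log`: apply it to `Φ (x, c) = φ (H (x, c))`, `Φ (x, b) = φ p = exp (log (φ p))`.
`PC.preconnected`: for all `x` the set `H ({x} × C)` is connected and contains `x` and `p`.
`no_log`: if `ζ z = exp (g z)` then `z = exp (G z)` with `G z = g z - log (ζ z * conj z)` (`z * conj z = 1`), `G`
continuous.  `θ = Im ∘ G : Circle → ℝ` is continuous, `k z = θ z - θ (-z)` is odd, the circle is connected, so `k`
has a zero `z` (`exists_..._eq` / `mem_range_of_exists_le_of_exists_ge`); as `Re (G z) = 0` for `z` on the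
circle, `z = exp (i θ z) = exp (i θ (-z)) = -z`, impossible.
-/

set_option autoImplicit false
set_option linter.unusedSectionVars false

namespace Pool.Agent.Work.MP_e7996b_gt

open Set Topology Filter

theorem exists_log_family {L C : Type*} [TopologicalSpace L] [CompactSpace L] [TopologicalSpace C]
    [PreconnectedSpace C] {Φ : L × C → ℂ} (hΦ : Continuous Φ) (h0 : ∀ x, Φ x ≠ 0) {a b : C} {g : L → ℂ}
    (hg : Continuous g) (hgb : ∀ x, Φ (x, b) = Complex.exp (g x)) :
    ∃ g' : L → ℂ, Continuous g' ∧ ∀ x, Φ (x, a) = Complex.exp (g' x) := by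
  have key : ∀ c, ∀ᶠ c' in 𝓝 c, ∀ x ∈ (univ : Set L), Φ (x, c') / Φ (x, c) ∈ Complex.slitPlane := by
    intro c
    refine isCompact_univ.eventually_forall_of_forall_eventually fun x _ => ?_
    have hc : Continuous fun z : C × L => Φ (z.2, z.1) / Φ (z.2, c) :=
      (hΦ.comp (continuous_snd.prodMk continuous_fst)).div
        (hΦ.comp (continuous_snd.prodMk continuous_const)) fun z => h0 _
    refine hc.continuousAt.eventually_mem (Complex.isOpen_slitPlane.mem_nhds ?_)
    show Φ (x, c) / Φ (x, c) ∈ _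
    rw [div_self (h0 _)]
    exact Complex.one_mem_slitPlane
  have hcl : IsClopen {c : C | ∃ g' : L → ℂ, Continuous g' ∧ ∀ x, Φ (x, c) = Complex.exp (g' x)} := by
    have hx : ∀ c, Continuous fun x : L => Φ (x, c) := fun c =>
      hΦ.comp (continuous_id.prodMk continuous_const)
    constructor
    · rw [← isOpen_compl_iff, isOpen_iff_mem_nhds]
      intro c hc
      filter_upwards [key c] with c' hc' hD
      apply hc
      obtain ⟨g', hg', h1⟩ := hD
      refine ⟨fun x => g' x - Complex.log (Φ (x, c') / Φ (x, c)), hg'.sub ?_, fun x => ?_⟩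
      · exact ((hx c').div (hx c) fun x => h0 _).clog fun x => hc' x trivial
      · rw [Complex.exp_sub, Complex.exp_log (div_ne_zero (h0 _) (h0 _)), ← h1]
        have h2 := h0 (x, c')
        have h3 := h0 (x, c)
        field_simp
    · rw [isOpen_iff_mem_nhds]
      intro c hc
      filter_upwards [key c] with c' hc'
      obtain ⟨g', hg', h1⟩ := hc
      refine ⟨fun x => g' x + Complex.log (Φ (x, c') / Φ (x, c)), hg'.add ?_, fun x => ?_⟩
      · exact ((hx c').div (hx c) fun x => h0 _).clog fun x => hc' x trivial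
      · rw [Complex.exp_add, Complex.exp_log (div_ne_zero (h0 _) (h0 _)), ← h1]
        have h2 := h0 (x, c')
        have h3 := h0 (x, c)
        field_simp
  have hun := hcl.eq_univ ⟨b, g, hg, hgb⟩
  have ha : a ∈ {c : C | ∃ g' : L → ℂ, Continuous g' ∧ ∀ x, Φ (x, c) = Complex.exp (g' x)} := by
    rw [hun]
    trivial
  exact ha

theorem PC.exists_log {X : Type*} [TopologicalSpace X] [CompactSpace X] (h : PC X) {φ : X → ℂ}
    (hφ : Continuous φ) (h0 : ∀ x, φ x ≠ 0) :
    ∃ g : X → ℂ, Continuous g ∧ ∀ x, φ x = Complex.exp (g x) := by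
  obtain ⟨C, _, _, _, _, a, b, p, H, hH⟩ := h
  obtain ⟨g, hg, h1⟩ := exists_log_family (Φ := fun z => φ (H z)) (hφ.comp hH.cont) (fun z => h0 _)
    (a := a) (b := b) (g := fun _ => Complex.log (φ p)) continuous_const
    (fun x => by simp only [hH.hb, Complex.exp_log (h0 p)])
  refine ⟨g, hg, fun x => ?_⟩
  rw [← h1 x, hH.ha]

theorem PC.preconnected {X : Type*} [TopologicalSpace X] (h : PC X) : PreconnectedSpace X := by
  obtain ⟨C, _, _, _, _, a, b, p, H, hH⟩ := h
  refine ⟨isPreconnected_of_forall p fun x _ => ⟨range fun c => H (x, c), subset_univ _,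
    ⟨b, hH.hb x⟩, ⟨a, hH.ha x⟩, isPreconnected_range ?_⟩⟩
  exact hH.cont.comp (continuous_const.prodMk continuous_id)

theorem no_log {ζ : Circle → ℂ} (hζ : Continuous ζ)
    (hs : ∀ z : Circle, ζ z * (starRingEnd ℂ) (z : ℂ) ∈ Complex.slitPlane) :
    ¬ ∃ g : Circle → ℂ, Continuous g ∧ ∀ z, ζ z = Complex.exp (g z) := by
  rintro ⟨g, hg, h1⟩
  have hzz : ∀ z : Circle, (z : ℂ) * (starRingEnd ℂ) (z : ℂ) = 1 := by
    intro z
    rw [Complex.mul_conj, Circle.normSq_coe]
    simp
  set G : Circle → ℂ := fun z => g z - Complex.log (ζ z * (starRingEnd ℂ) (z : ℂ)) with hG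
  have hGc : Continuous G := by
    refine hg.sub ((hζ.mul ?_).clog hs)
    exact Complex.continuous_conj.comp (by fun_prop)
  have hGe : ∀ z : Circle, Complex.exp (G z) = z := by
    intro z
    have h2 : ζ z * (starRingEnd ℂ) (z : ℂ) ≠ 0 := Complex.slitPlane_ne_zero (hs z)
    rw [hG]
    show Complex.exp (g z - Complex.log (ζ z * (starRingEnd ℂ) (z : ℂ))) = z
    rw [Complex.exp_sub, Complex.exp_log h2, ← h1, div_eq_iff h2]
    calc ζ z = ζ z * ((z : ℂ) * (starRingEnd ℂ) (z : ℂ)) := by rw [hzz, mul_one]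
      _ = _ := by ring
  have hre : ∀ z : Circle, (G z).re = 0 := by
    intro z
    have h2 := congrArg norm (hGe z)
    rw [Complex.norm_exp, Circle.norm_coe] at h2
    exact Real.exp_eq_one_iff _ |>.1 h2
  let f : ℝ → ℝ := fun t => (G (Circle.exp t)).im - (G (Circle.exp (t + Real.pi))).im
  have hf : Continuous f := by
    have h2 : Continuous fun t : ℝ => (G (Circle.exp t)).im :=
      Complex.continuous_im.comp (hGc.comp Circle.exp.continuous)
    exact h2.sub (h2.comp (continuous_id.add continuous_const))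
  have hper : f Real.pi = -f 0 := by
    have h2 : Circle.exp (Real.pi + Real.pi) = Circle.exp 0 := by
      rw [← two_mul, Circle.exp_two_pi, Circle.exp_zero]
    show (G (Circle.exp Real.pi)).im - (G (Circle.exp (Real.pi + Real.pi))).im =
      -((G (Circle.exp 0)).im - (G (Circle.exp (0 + Real.pi))).im)
    rw [h2, zero_add]
    ring
  obtain ⟨t, ht⟩ : (0 : ℝ) ∈ range f := by
    rcases le_total (f 0) 0 with h2 | h2
    · exact mem_range_of_exists_le_of_exists_ge hf ⟨0, h2⟩ ⟨Real.pi, by rw [hper]; linarith⟩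
    · exact mem_range_of_exists_le_of_exists_ge hf ⟨Real.pi, by rw [hper]; linarith⟩ ⟨0, h2⟩
  have h3 : G (Circle.exp t) = G (Circle.exp (t + Real.pi)) := by
    apply Complex.ext
    · rw [hre, hre]
    · exact sub_eq_zero.1 ht
  have h4 : (Circle.exp t : ℂ) = Circle.exp (t + Real.pi) := by
    rw [← hGe, ← hGe (Circle.exp (t + Real.pi)), h3]
  rw [Circle.coe_exp, Circle.coe_exp, Complex.ofReal_add, add_mul, Complex.exp_add,
    Complex.exp_pi_mul_I] at h4
  have h5 := Complex.exp_ne_zero (t * Complex.I)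
  apply h5
  linear_combination h4 / 2

end Pool.Agent.Work.MP_e7996b_gt
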