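import Pool.Agent.Work.MP_e7996b_gt.Basic

/-!
# PCT (M): homotopy invariance

`h`: `C, a, b, p, H`.  `e = (α : X → Y, β : Y → X)`, `α ∘ β` is homotopic to the identity of `Y` by `G : Y × I → Y`,
`G (y, 0) = α (β y)`, `G (y, 1) = y`.  `C' = {(c, t) : C × I | c = a ∨ t = 0}`: closed in `C × I`, so compact and
Hausdorff; connected: union of `C × {0}` and `{a} × I`, which meet in `(a, 0)`.
`H' (y, (c, t)) = α (H (β y, c))` if `t = 0`, `G (y, t)` if `c = a`; for `(a, 0)`: `α (β y)` both.  Continuous: two closed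
pieces (`IsClosed` union, e.g. `Continuous.if` / `continuous_iff_..` / `ContinuousOn.union_of_isClosed` ..).
Start `(a, 1)`: `H' = y`; end `(b, 0)`: `H' = α p`.
(If `b = a` there is a conflict only at `t = 0`, none.)
`PC.of_homeo`: special case.  `pc_of_contractible`: `C = I`.
-/

set_option autoImplicit false
set_option linter.unusedSectionVars false

namespace Pool.Agent.Work.MP_e7996b_gt

open Set Topology Filter

private theorem pieces {P Q : Type*} [TopologicalSpace P] [TopologicalSpace Q] {g g1 g2 : P → Q}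
    {A B : Set P} (hA : IsClosed A) (hB : IsClosed B) (hAB : ∀ x, x ∈ A ∨ x ∈ B)
    (h1 : Continuous g1) (h2 : Continuous g2) (e1 : ∀ x ∈ A, g x = g1 x)
    (e2 : ∀ x ∈ B, g x = g2 x) : Continuous g := by
  rw [continuous_iff_isClosed]
  intro K hK
  have : g ⁻¹' K = (A ∩ g1 ⁻¹' K) ∪ (B ∩ g2 ⁻¹' K) := by
    ext x
    simp only [mem_preimage, mem_union, mem_inter_iff]
    constructor
    · intro hx
      rcases hAB x with h | h
      · exact Or.inl ⟨h, by rw [← e1 x h]; exact hx⟩
      · exact Or.inr ⟨h, by rw [← e2 x h]; exact hx⟩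
    · rintro (⟨h, hx⟩ | ⟨h, hx⟩)
      · rw [e1 x h]; exact hx
      · rw [e2 x h]; exact hx
  rw [this]
  exact (hA.inter (hK.preimage h1)).union (hB.inter (hK.preimage h2))

theorem PC.of_homotopyEquiv {X Y : Type*} [TopologicalSpace X] [TopologicalSpace Y] (h : PC X)
    (e : ContinuousMap.HomotopyEquiv X Y) : PC Y := by
  classical
  obtain ⟨C, tC, cC, t2C, conC, a, b, p, H, hH⟩ := h
  obtain ⟨G⟩ := e.right_inv
  let z : Icc (0 : ℝ) 1 := ⟨0, by simp⟩
  let o : Icc (0 : ℝ) 1 := ⟨1, by simp⟩
  let S : Set (C × Icc (0 : ℝ) 1) := {q | q.1 = a ∨ q.2 = z}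
  have hS : IsClosed S :=
    (isClosed_singleton.preimage continuous_fst : IsClosed {q : C × Icc (0 : ℝ) 1 | q.1 = a}).union
      (isClosed_singleton.preimage continuous_snd)
  have hcomp : CompactSpace S := isCompact_iff_compactSpace.1 hS.isCompact
  let i1 : C → S := fun c => ⟨(c, z), Or.inr rfl⟩
  let i2 : Icc (0 : ℝ) 1 → S := fun t => ⟨(a, t), Or.inl rfl⟩
  have hi1 : Continuous i1 := by
    refine Continuous.subtype_mk ?_ _
    fun_prop
  have hi2 : Continuous i2 := by
    refine Continuous.subtype_mk ?_ _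
    fun_prop
  have hI : PreconnectedSpace (Icc (0 : ℝ) 1) := Subtype.preconnectedSpace isPreconnected_Icc
  have hcon : ConnectedSpace S := by
    have : PreconnectedSpace S := by
      refine ⟨?_⟩
      have hu : (univ : Set S) = range i1 ∪ range i2 := by
        symm
        rw [eq_univ_iff_forall]
        rintro ⟨⟨c, t⟩, hct⟩
        rcases hct with h | h
        · right
          refine ⟨t, Subtype.ext (Prod.ext ?_ rfl)⟩
          exact h.symm
        · left
          refine ⟨c, Subtype.ext (Prod.ext rfl ?_)⟩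
          exact h.symm
      rw [hu]
      exact IsPreconnected.union (i1 a) ⟨a, rfl⟩ ⟨z, rfl⟩ (isPreconnected_range hi1)
        (isPreconnected_range hi2)
    exact ⟨⟨i1 a⟩⟩
  let g1 : Y × S → Y := fun q => e.toFun (H (e.invFun q.1, q.2.1.1))
  let g2 : Y × S → Y := fun q => G (q.2.1.2, q.1)
  have hcH := hH.cont
  have hg1 : Continuous g1 := by
    refine e.toFun.continuous.comp (hcH.comp ?_)
    exact (e.invFun.continuous.comp continuous_fst).prodMk
      (continuous_fst.comp (continuous_subtype_val.comp continuous_snd))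
  have hg2 : Continuous g2 := by
    refine G.continuous.comp ?_
    exact (continuous_snd.comp (continuous_subtype_val.comp continuous_snd)).prodMk continuous_fst
  let H' : Y × S → Y := fun q => if q.2.1.2 = z then g1 q else g2 q
  have e1 : ∀ q ∈ {q : Y × S | q.2.1.2 = z}, H' q = g1 q := fun q hq => if_pos hq
  have e2 : ∀ q ∈ {q : Y × S | q.2.1.1 = a}, H' q = g2 q := by
    intro q hq
    have hq' : q.2.1.1 = a := hq
    by_cases h0 : q.2.1.2 = z
    · rw [e1 q h0]
      show e.toFun (H (e.invFun q.1, q.2.1.1)) = G (q.2.1.2, q.1)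
      rw [hq', h0, hH.ha]
      exact (G.map_zero_left q.1).symm
    · exact if_neg h0
  have hc1 : IsClosed {q : Y × S | q.2.1.2 = z} :=
    isClosed_singleton.preimage
      (continuous_snd.comp (continuous_subtype_val.comp continuous_snd) :
        Continuous fun q : Y × S => q.2.1.2)
  have hc2 : IsClosed {q : Y × S | q.2.1.1 = a} :=
    isClosed_singleton.preimage
      (continuous_fst.comp (continuous_subtype_val.comp continuous_snd) :
        Continuous fun q : Y × S => q.2.1.1)
  have hH' : Continuous H' := by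
    refine pieces hc1 hc2 ?_ hg1 hg2 e1 e2
    intro q
    rcases q.2.2 with h | h
    · exact Or.inr h
    · exact Or.inl h
  refine PH.pc (H := H') (a := i2 o) (b := i1 b) (p := e.toFun p) ⟨hH', ?_, ?_⟩
  · intro y
    rw [e2 (y, i2 o) rfl]
    exact G.map_one_left y
  · intro y
    rw [e1 (y, i1 b) rfl]
    show e.toFun (H (e.invFun y, b)) = e.toFun p
    rw [hH.hb]

theorem PC.of_homeo {X Y : Type*} [TopologicalSpace X] [TopologicalSpace Y] (h : PC X)
    (e : X ≃ₜ Y) : PC Y := h.of_homotopyEquiv e.toHomotopyEquiv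

theorem pc_of_contractible {X : Type*} [TopologicalSpace X] [ContractibleSpace X] : PC X := by
  obtain ⟨p, ⟨F⟩⟩ := id_nullhomotopic X
  have : ConnectedSpace (Icc (0 : ℝ) 1) :=
    Subtype.connectedSpace (isConnected_Icc zero_le_one)
  refine PH.pc (C := Icc (0 : ℝ) 1) (H := fun q => F (q.2, q.1)) (a := ⟨0, by simp⟩)
    (b := ⟨1, by simp⟩) (p := p) ⟨?_, ?_, ?_⟩
  · exact F.continuous.comp (continuous_snd.prodMk continuous_fst)
  · intro x
    exact F.map_zero_left x
  · intro x
    exact F.map_one_left x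

end Pool.Agent.Work.MP_e7996b_gt
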