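import Pool.Agent.Work.MP_e7996b_gt.Basic

/-!
# Reframe (M): a finite graph as a frame without `Z`

`F2 : Frame (V ⊕ Z) Empty`: `T := F.Γ`, `Γ := F.Γ` transported to `(V ⊕ Z) ⊕ Empty`
(`F.Γ.map`/ `Adj a b := ∃ p q, a = inl p ∧ b = inl q ∧ F.Γ.Adj p q`), `ρ = Empty.elim`, everything is finite.
Homeomorphism `F.X ≃ₜ F2.X`: `F2.pt (inl p) (inl c) = [p = c]`.  Map `x ↦ y`, `y (inl (inr z)) = x (inr z)`,
`y (inl (inl v)) = x (inl v) - Σ_{z, ρ z = v} x (inr z)` (finite sum), inverse
`x (inr z) = y (inl (inr z))`, `x (inl v) = y (inl (inl v)) + Σ_{z, ρ z = v} y (inl (inr z))`: both are linear, so they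
map `F.sg p q s` to `F2.sg (inl p) (inl q) s` and back.
-/

set_option autoImplicit false
set_option linter.unusedSectionVars false

namespace Pool.Agent.Work.MP_e7996b_gt

open Set Topology Filter

variable {V Z : Type}

private def fr2 (F : Frame V Z) : Frame (V ⊕ Z) Empty where
  T := F.Γ
  Γ := F.Γ.comap (pr (fun z : Empty => z.elim))
  ρ := fun z => z.elim
  sub := fun v w h => h
  deg := fun z => z.elim
  bad := by
    have : {e : ((V ⊕ Z) ⊕ Empty) × ((V ⊕ Z) ⊕ Empty) |
        (F.Γ.comap (pr (fun z : Empty => z.elim))).Adj e.1 e.2 ∧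
          ¬ F.Γ.Adj (pr (fun z : Empty => z.elim) e.1) (pr (fun z : Empty => z.elim) e.2)} = ∅ := by
      ext e
      simp
    rw [this]
    exact Set.finite_empty

open scoped Classical in
private noncomputable def toL (F : Frame V Z) [Fintype Z] (x : V ⊕ Z → ℝ) :
    (V ⊕ Z) ⊕ Empty → ℝ
  | Sum.inl (Sum.inl v) => x (Sum.inl v) - ∑ z : Z, if F.ρ z = v then x (Sum.inr z) else 0
  | Sum.inl (Sum.inr z) => x (Sum.inr z)
  | Sum.inr e => e.elim

open scoped Classical in
private noncomputable def toM (F : Frame V Z) [Fintype Z] (y : (V ⊕ Z) ⊕ Empty → ℝ) :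
    V ⊕ Z → ℝ
  | Sum.inl v => y (Sum.inl (Sum.inl v)) +
      ∑ z : Z, if F.ρ z = v then y (Sum.inl (Sum.inr z)) else 0
  | Sum.inr z => y (Sum.inl (Sum.inr z))

private theorem toM_toL (F : Frame V Z) [Fintype Z] (x : V ⊕ Z → ℝ) : toM F (toL F x) = x := by
  funext c
  cases c with
  | inl v => simp [toM, toL]
  | inr z => rfl

private theorem toL_toM (F : Frame V Z) [Fintype Z] (y : (V ⊕ Z) ⊕ Empty → ℝ) :
    toL F (toM F y) = y := by
  funext c
  rcases c with (v | z) | e
  · simp [toM, toL]
  · rfl
  · exact e.elim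

private theorem continuous_toL (F : Frame V Z) [Fintype Z] : Continuous (toL F) := by
  classical
  refine continuous_pi fun c => ?_
  rcases c with (v | z) | e
  · show Continuous fun x : V ⊕ Z → ℝ => x (Sum.inl v) - ∑ z : Z, if F.ρ z = v then x (Sum.inr z) else 0
    refine (continuous_apply _).sub (continuous_finsetSum _ fun z _ => ?_)
    split_ifs
    · exact continuous_apply _
    · exact continuous_const
  · exact continuous_apply (Sum.inr z)
  · exact e.elim

private theorem continuous_toM (F : Frame V Z) [Fintype Z] : Continuous (toM F) := by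
  classical
  refine continuous_pi fun c => ?_
  rcases c with v | z
  · show Continuous fun y : (V ⊕ Z) ⊕ Empty → ℝ => y (Sum.inl (Sum.inl v)) +
      ∑ z : Z, if F.ρ z = v then y (Sum.inl (Sum.inr z)) else 0
    refine (continuous_apply _).add (continuous_finsetSum _ fun z _ => ?_)
    split_ifs
    · exact continuous_apply _
    · exact continuous_const
  · exact continuous_apply (Sum.inl (Sum.inr z))

private noncomputable def hom (F : Frame V Z) [Fintype Z] :
    (V ⊕ Z → ℝ) ≃ₜ ((V ⊕ Z) ⊕ Empty → ℝ) where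
  toFun := toL F
  invFun := toM F
  left_inv := toM_toL F
  right_inv := toL_toM F
  continuous_toFun := continuous_toL F
  continuous_invFun := continuous_toM F

private theorem pt_one (F : Frame V Z) {p c : V ⊕ Z} (h : p = c) :
    (fr2 F).pt (Sum.inl p) (Sum.inl c) = 1 := if_pos h

private theorem pt_zero (F : Frame V Z) {p c : V ⊕ Z} (h : p ≠ c) :
    (fr2 F).pt (Sum.inl p) (Sum.inl c) = 0 := if_neg h

private theorem toM_pt (F : Frame V Z) [Fintype Z] (p : V ⊕ Z) :
    toM F ((fr2 F).pt (Sum.inl p)) = F.pt p := by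
  classical
  funext c
  rcases c with v | z
  · show (fr2 F).pt (Sum.inl p) (Sum.inl (Sum.inl v)) +
      (∑ z : Z, if F.ρ z = v then (fr2 F).pt (Sum.inl p) (Sum.inl (Sum.inr z)) else 0) = _
    rcases p with u | z0
    · have h0 : ∀ z : Z, (if F.ρ z = v then
          (fr2 F).pt (Sum.inl (Sum.inl u)) (Sum.inl (Sum.inr z)) else 0) = 0 := by
        intro z
        rw [pt_zero F (Sum.inl_ne_inr), ite_self]
      simp only [h0, Finset.sum_const_zero, add_zero]
      by_cases hu : u = v
      · rw [pt_one F (by rw [hu])]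
        exact (if_pos hu).symm
      · rw [pt_zero F (by simpa using hu)]
        exact (if_neg hu).symm
    · rw [pt_zero F (Sum.inr_ne_inl), zero_add]
      rw [Finset.sum_eq_single z0]
      · rw [pt_one F rfl]
        by_cases hu : F.ρ z0 = v
        · rw [if_pos hu]
          exact (if_pos hu).symm
        · rw [if_neg hu]
          exact (if_neg hu).symm
      · intro z _ hz
        rw [pt_zero F (by simpa using fun h : z0 = z => hz h.symm), ite_self]
      · intro h
        exact absurd (Finset.mem_univ z0) h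
  · show (fr2 F).pt (Sum.inl p) (Sum.inl (Sum.inr z)) = _
    by_cases hp : p = Sum.inr z
    · rw [pt_one F hp]
      exact (if_pos hp).symm
    · rw [pt_zero F hp]
      exact (if_neg hp).symm

private theorem toM_sg (F : Frame V Z) [Fintype Z] (p q : V ⊕ Z) (s : ℝ) :
    toM F ((fr2 F).sg (Sum.inl p) (Sum.inl q) s) = F.sg p q s := by
  classical
  have hlin : ∀ y y' : (V ⊕ Z) ⊕ Empty → ℝ, toM F (fun c => (1 - s) * y c + s * y' c) =
      fun c => (1 - s) * toM F y c + s * toM F y' c := by
    intro y y'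
    funext c
    rcases c with v | z
    · simp only [toM, mul_add, Finset.mul_sum]
      have : ∀ z : Z, (if F.ρ z = v then (1 - s) * y (Sum.inl (Sum.inr z)) +
          s * y' (Sum.inl (Sum.inr z)) else 0) =
          ((1 - s) * if F.ρ z = v then y (Sum.inl (Sum.inr z)) else 0) +
          s * if F.ρ z = v then y' (Sum.inl (Sum.inr z)) else 0 := by
        intro z; split_ifs <;> ring
      simp only [this, Finset.sum_add_distrib]
      ring
    · rfl
  have h1 : (fr2 F).sg (Sum.inl p) (Sum.inl q) s = fun c => (1 - s) * (fr2 F).pt (Sum.inl p) c +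
      s * (fr2 F).pt (Sum.inl q) c := rfl
  rw [h1, hlin, toM_pt, toM_pt]
  rfl

theorem exists_reframe (F : Frame V Z) [Finite V] [Finite Z] :
    ∃ F2 : Frame (V ⊕ Z) Empty, F2.Full ∧ Nonempty (F.X ≃ₜ F2.X) := by
  have := Fintype.ofFinite Z
  refine ⟨fr2 F, fun v w h => h, ⟨?_⟩⟩
  refine (hom F).subtype fun x => ?_
  constructor
  · rintro ⟨p, q, h, s, hs, rfl⟩
    refine ⟨Sum.inl p, Sum.inl q, ?_, s, hs, ?_⟩
    · rcases h with rfl | h
      · exact Or.inl rfl
      · exact Or.inr h
    · rw [← toM_sg]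
      exact toL_toM F _
  · rintro ⟨p, q, h, s, hs, hx⟩
    rcases p with p | e
    · rcases q with q | e
      · refine ⟨p, q, ?_, s, hs, ?_⟩
        · rcases h with h | h
          · exact Or.inl (Sum.inl_injective h)
          · exact Or.inr h
        · rw [← toM_sg, ← hx]
          exact (toM_toL F x).symm
      · exact e.elim
    · exact e.elim

end Pool.Agent.Work.MP_e7996b_gt
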