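import Pool.Agent.Work.MP_e7996b_gt.Log

/-!
# ZFin (S-M): the last step, `T` has no edges

`finite_Z`: all edges of `Γ` are in `F.bad`, so there are finitely many.  Every `z` has a neighbour: otherwise the
coordinate `x ↦ x.1 (inr z)` has only the values 0 and 1 on `F.X`, so it is constant (`PC.preconnected`), but it is 1 at
`F.vx (inr z)` and 0 at `F.vx (inl (ρ z))`.  So `z ↦ (inr z, neighbour)` is an injection of `Z` into a finite set.
`base`: `Z` is empty, `F.Full`, `T` without edges: `Γ` has no edges, `F.X = {F.vx (inl v)}`; the coordinate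
`x.1 (inl v)` has only the values 0, 1, so it is constant; so `V` has at most one element and `F.X` is a singleton
(non-empty because `PC` contains a point `p`): contractible.
-/

set_option autoImplicit false
set_option linter.unusedSectionVars false

namespace Pool.Agent.Work.MP_e7996b_gt

open Set Topology Filter

variable {V Z : Type}

private theorem const01 {X : Type*} [TopologicalSpace X] [PreconnectedSpace X] {φ : X → ℝ}
    (hφ : Continuous φ) (h : ∀ x, φ x = 0 ∨ φ x = 1) (x y : X) : φ x = φ y := by
  have ho : IsOpen {x | φ x = 1} := by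
    have : {x | φ x = 1} = φ ⁻¹' Ioi (1 / 2) := by
      ext u
      show φ u = 1 ↔ 1 / 2 < φ u
      constructor
      · intro hu; rw [hu]; norm_num
      · intro hu
        rcases h u with h0 | h0
        · rw [h0] at hu; norm_num at hu
        · exact h0
    rw [this]
    exact isOpen_Ioi.preimage hφ
  have hcl : IsClopen {x | φ x = 1} := ⟨isClosed_eq hφ continuous_const, ho⟩
  rcases isClopen_iff.1 hcl with h0 | h0
  · have h1 : ∀ u, φ u = 0 := by
      intro u
      rcases h u with h2 | h2
      · exact h2
      · have : u ∈ {x | φ x = 1} := h2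
        rw [h0] at this
        exact this.elim
    rw [h1, h1]
  · have h1 : ∀ u, φ u = 1 := by
      intro u
      have : u ∈ {x | φ x = 1} := by rw [h0]; trivial
      exact this
    rw [h1, h1]

theorem finite_Z (F : Frame V Z) (h : PC F.X) (hT : ∀ v w, ¬ F.T.Adj v w) : Finite Z := by
  classical
  have hfin : {e : (V ⊕ Z) × (V ⊕ Z) | F.Γ.Adj e.1 e.2}.Finite := by
    refine F.bad.subset ?_
    intro e he
    exact ⟨he, hT _ _⟩
  have hcon := h.preconnected
  have hnb : ∀ z : Z, ∃ a, F.Γ.Adj (Sum.inr z) a := by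
    intro z
    by_contra hz
    push Not at hz
    have hval : ∀ x : F.X, x.1 (Sum.inr z) = 0 ∨ x.1 (Sum.inr z) = 1 := by
      intro x
      obtain ⟨p, q, hpq, s, hs, rfl⟩ := F.exists_emb x
      rw [Frame.emb_val]
      rcases hpq with rfl | hadj
      · rw [F.sg_self, F.pt_inr]
        split_ifs
        · exact Or.inr rfl
        · exact Or.inl rfl
      · left
        have hp : p ≠ Sum.inr z := by
          rintro rfl
          exact hz _ hadj
        have hq : q ≠ Sum.inr z := by
          rintro rfl
          exact hz _ hadj.symm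
        rw [F.sg_apply, F.pt_inr, F.pt_inr, if_neg hp, if_neg hq]
        ring
    have h1 := const01 (F.continuous_coord (Sum.inr z)) hval (F.vx (Sum.inr z))
      (F.vx (Sum.inl (F.ρ z)))
    simp only [Frame.vx_val] at h1
    rw [F.pt_inr, F.pt_inr, if_pos rfl, if_neg (by simp)] at h1
    exact one_ne_zero h1
  choose n hn using hnb
  have : Finite {e : (V ⊕ Z) × (V ⊕ Z) | F.Γ.Adj e.1 e.2} := hfin.to_subtype
  refine Finite.of_injective (fun z : Z => (⟨(Sum.inr z, n z), hn z⟩ :
    {e : (V ⊕ Z) × (V ⊕ Z) | F.Γ.Adj e.1 e.2})) ?_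
  intro z z' hzz
  have h1 := congrArg (fun e : {e : (V ⊕ Z) × (V ⊕ Z) | F.Γ.Adj e.1 e.2} => e.1.1) hzz
  exact Sum.inr_injective h1

theorem base (F : Frame V Z) [IsEmpty Z] (h : PC F.X) (hF : F.Full) (hT : ∀ v w, ¬ F.T.Adj v w) :
    ContractibleSpace F.X := by
  classical
  have hno : ∀ p q, ¬ F.Γ.Adj p q := by
    intro p q hpq
    cases p with
    | inr z => exact isEmptyElim z
    | inl v =>
      cases q with
      | inr z => exact isEmptyElim z
      | inl w => exact hT v w (hF v w hpq)
  have hx : ∀ x : F.X, ∃ v : V, x = F.vx (Sum.inl v) := by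
    intro x
    obtain ⟨p, q, hpq, s, hs, rfl⟩ := F.exists_emb x
    rcases hpq with rfl | hadj
    · cases p with
      | inr z => exact isEmptyElim z
      | inl v => exact ⟨v, F.emb_self _ hs⟩
    · exact (hno _ _ hadj).elim
  have hcon := h.preconnected
  obtain ⟨C, tC, cC, t2C, conC, a, b, p, H, hH⟩ := h
  obtain ⟨v0, hv0⟩ := hx p
  have hall : ∀ x : F.X, x = p := by
    intro x
    obtain ⟨u, hu⟩ := hx x
    have hval : ∀ y : F.X, y.1 (Sum.inl u) = 0 ∨ y.1 (Sum.inl u) = 1 := by
      intro y
      obtain ⟨t, ht⟩ := hx y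
      rw [ht, Frame.vx_val, F.pt_inl]
      split_ifs
      · exact Or.inr rfl
      · exact Or.inl rfl
    have h1 := const01 (F.continuous_coord (Sum.inl u)) hval x p
    rw [hu, hv0, Frame.vx_val, Frame.vx_val, F.pt_inl, F.pt_inl, F.r_inl, F.r_inl, if_pos rfl] at h1
    have h2 : v0 = u := by
      by_contra hne
      rw [if_neg hne] at h1
      exact one_ne_zero h1
    rw [hu, hv0, h2]
  let iu : Unique F.X := ⟨⟨p⟩, hall⟩
  infer_instance

end Pool.Agent.Work.MP_e7996b_gt
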