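import Pool.Agent.Work.MP_e7996b_gt.Choose
import Pool.Agent.Work.MP_e7996b_gt.Fib
import Pool.Agent.Work.MP_e7996b_gt.Homot
import Pool.Agent.Work.MP_e7996b_gt.HEq
import Pool.Agent.Work.MP_e7996b_gt.PCT
import Pool.Agent.Work.MP_e7996b_gt.ZFin
import Pool.Agent.Work.MP_e7996b_gt.Reframe

/-!
# Main (S-M): the theorem

`step`: `exists_col`, `exists_alpha`, `exists_homot`, `nonempty_homotopyEquiv` with `fib` and `alpha_St`
(`compactSpace_X`).
`main_empty` (induction on `Nat.card V`, for all `V`, `Z`): if `T` has no edge: `base`; otherwise `step`, `PC.of_homotopyEquiv`,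
induction, `ContinuousMap.HomotopyEquiv` transports contractibility (`ContinuousMap.HomotopyEquiv.contractibleSpace`).
`main`: if `T` has no edge: `finite_Z`, `exists_reframe`, `PC.of_homeo`, `main_empty`; otherwise `step`, induction.
-/

set_option autoImplicit false
set_option linter.unusedSectionVars false

namespace Pool.Agent.Work.MP_e7996b_gt

open Set Topology Filter

variable {V Z : Type}

theorem step (F : Frame V Z) [Finite V] (h : PC F.X) (hT : ∃ v w, F.T.Adj v w) :
    ∃ (V' Z' : Type) (_ : Finite V') (F' : Frame V' Z'), Nat.card V' < Nat.card V ∧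
      Nonempty (ContinuousMap.HomotopyEquiv F.X F'.X) ∧
      (IsEmpty Z → F.Full → IsEmpty Z' ∧ F'.Full) := by
  obtain ⟨v, w, S, m, hc⟩ := exists_col F h hT
  obtain ⟨α, hα, hs, hαe⟩ := hc.exists_alpha
  obtain ⟨f, hf, hf0, hfS, hf1⟩ := hc.exists_homot
  have := F.compactSpace_X
  refine ⟨{x : V // x ≠ v}, {z : Z // z ∉ S}, inferInstance, hc.frame, ?_, ?_, ?_⟩
  · exact Finite.card_subtype_lt (x := v) (by simp)
  · refine nonempty_homotopyEquiv hα hs hf hf0 ?_ ?_
    · intro x x' e
      rcases hc.fib h hαe e with rfl | ⟨a, h1, h2⟩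
      · rfl
      · rw [hf1 a x h1, hf1 a x' h2]
    · intro x x' t e
      rcases hc.fib h hαe e with rfl | ⟨a, h1, h2⟩
      · rfl
      · rw [hc.alpha_St hαe (hfS a x h1 t), hc.alpha_St hαe (hfS a x' h2 t)]
  · intro hZ hF
    exact ⟨⟨fun z => hZ.elim z.1⟩, hc.full hZ hF⟩

private theorem main_empty_aux (n : ℕ) : ∀ (V Z : Type) (F : Frame V Z) [Finite V] [IsEmpty Z],
    Nat.card V = n → F.Full → PC F.X → ContractibleSpace F.X := by
  induction n using Nat.strong_induction_on with
  | _ n ih =>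
    intro V Z F _ hZ hn hF h
    by_cases hT : ∃ v w, F.T.Adj v w
    · obtain ⟨V', Z', _, F', hlt, ⟨e⟩, himp⟩ := step F h hT
      obtain ⟨hZ', hF'⟩ := himp hZ hF
      have := ih _ (hn ▸ hlt) V' Z' F' rfl hF' (h.of_homotopyEquiv e)
      exact e.contractibleSpace
    · exact base F h hF fun v w hvw => hT ⟨v, w, hvw⟩

theorem main_empty (F : Frame V Z) [Finite V] [IsEmpty Z] (hF : F.Full) (h : PC F.X) :
    ContractibleSpace F.X := main_empty_aux _ V Z F rfl hF h

private theorem main_aux (n : ℕ) : ∀ (V Z : Type) (F : Frame V Z) [Finite V],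
    Nat.card V = n → PC F.X → ContractibleSpace F.X := by
  induction n using Nat.strong_induction_on with
  | _ n ih =>
    intro V Z F _ hn h
    by_cases hT : ∃ v w, F.T.Adj v w
    · obtain ⟨V', Z', _, F', hlt, ⟨e⟩, _⟩ := step F h hT
      have := ih _ (hn ▸ hlt) V' Z' F' rfl (h.of_homotopyEquiv e)
      exact e.contractibleSpace
    · have := finite_Z F h fun v w hvw => hT ⟨v, w, hvw⟩
      obtain ⟨F2, hF2, ⟨e⟩⟩ := exists_reframe F
      have := main_empty F2 hF2 (h.of_homeo e)
      exact e.contractibleSpace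

theorem main (F : Frame V Z) [Finite V] (h : PC F.X) : ContractibleSpace F.X :=
  main_aux _ V Z F rfl h

end Pool.Agent.Work.MP_e7996b_gt
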