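import Pool.Agent.Work.MP_e7996b_gt.Unif

/-!
# StepA (M): at every vertex `w` some direction is possible for almost all sheets

Suppose not: for every neighbour `v` of `w` (in `T`) the set `N v` of all `z` over `w` without neighbour over `v` is
infinite.  `h`: `C, a, b, p, H`.  Take `K` from `unif` with `ε = 1/4`.  For every neighbour `v` of `w` choose
`zz v ∈ N v` outside of the finite sets `K`, `{z | (inr z) is an end of an edge in F.bad}` (so that all edges at
`inr (zz v)` are mapped to edges of `T`) and `{z | 3/4 < p.1 (inr z)}` (finite: a point of `X` has at most two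
nonzero coordinates in `Z`; the coordinates of `p`: `F.exists_emb`).
All points `F.vx (inr (zz v))` have the same coordinates in `V` and coordinates 0 in `K`.
Let `D = {c | ∀ v, T.Adj w v → 3/4 < (H (F.vx (inr (zz v)), c)).1 (inr (zz v))}`.  It is open (finite intersection)
and contains `a`.  It is closed: it is equal to the set with `3/4 ≤` : let `c` satisfy the weak inequalities.  For
every neighbour `v` the point `x = H (F.vx (inr (zz v)), c)` has coordinate `≥ 3/4 > 0` at `inr (zz v)`, so it is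
`F.emb` of a pair `(inr (zz v), q)`, with `q = inr (zz v)` or `q` adjacent to it (`F.exists_emb`, `F.sg_symm`);
so `x.1 (inl v) = 0` [`r q ≠ v`, `w ≠ v`].  Let `v` be a neighbour with coordinate `α ≤ 3/4` at `inr (zz v)`, i.e.
`x = (1-s) P + s P_q`, `s ≥ 1/4`, `q` adjacent to `inr (zz v)`, not bad, so `v' = r q` is a neighbour of `w`; then
`x.1 (inl v') = s ≥ 1/4`, but `(H (F.vx (inr (zz v')), c)).1 (inl v') = 0`: contradiction to `unif`.
So `D = univ` and `c = b`, any neighbour `v` (`hw`): `3/4 < p.1 (inr (zz v))`, contradiction.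
-/

set_option autoImplicit false
set_option linter.unusedSectionVars false

namespace Pool.Agent.Work.MP_e7996b_gt

open Set Topology Filter

variable {V Z : Type}

private theorem sa_rep (F : Frame V Z) (x : F.X) (z : Z) (h : 0 < x.1 (Sum.inr z)) :
    ∃ (q : V ⊕ Z) (s : ℝ), s ∈ Icc (0 : ℝ) 1 ∧ F.Nb (Sum.inr z) q ∧
      x.1 = F.sg (Sum.inr z) q s := by
  classical
  obtain ⟨p0, q0, hpq, s, hs, rfl⟩ := F.exists_emb x
  rw [F.emb_val, F.sg_apply, F.pt_inr, F.pt_inr] at h
  by_cases h1 : p0 = Sum.inr z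
  · subst h1
    exact ⟨q0, s, hs, hpq, rfl⟩
  · by_cases h2 : q0 = Sum.inr z
    · subst h2
      refine ⟨p0, 1 - s, ⟨by linarith [hs.2], by linarith [hs.1]⟩, hpq.symm, ?_⟩
      rw [F.emb_val]
      exact (F.sg_symm p0 (Sum.inr z) s).symm
    · rw [if_neg h1, if_neg h2] at h
      simp at h

private theorem sa_fin (F : Frame V Z) (x : F.X) : {z | 3 / 4 < x.1 (Sum.inr z)}.Finite := by
  classical
  obtain ⟨p0, q0, hpq, s, hs, rfl⟩ := F.exists_emb x
  have h1 : ∀ c : V ⊕ Z, {z : Z | c = Sum.inr z}.Finite := by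
    intro c
    refine Set.Subsingleton.finite fun z hz z' hz' => ?_
    have h2 : c = Sum.inr z := hz
    have h3 : c = Sum.inr z' := hz'
    exact Sum.inr_injective (h2.symm.trans h3)
  refine ((h1 p0).union (h1 q0)).subset ?_
  intro z hz
  by_contra hnot
  rw [Set.mem_union, not_or] at hnot
  have hz' : 3 / 4 < (F.emb hpq hs).1 (Sum.inr z) := hz
  have n1 : ¬ p0 = Sum.inr z := hnot.1
  have n2 : ¬ q0 = Sum.inr z := hnot.2
  rw [F.emb_val, F.sg_apply, F.pt_inr, F.pt_inr, if_neg n1, if_neg n2] at hz'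
  norm_num at hz'

theorem stepA (F : Frame V Z) [Finite V] (h : PC F.X) (w : V) (hw : ∃ v, F.T.Adj w v) :
    ∃ v, F.T.Adj w v ∧
      {z | F.ρ z = w ∧ ∀ a, F.Γ.Adj (Sum.inr z) a → F.r a ≠ v}.Finite := by
  classical
  by_contra hcon
  push Not at hcon
  obtain ⟨C, _, _, _, _, a, b, p, H, hH⟩ := h
  obtain ⟨K, hK, hu⟩ := unif F hH.cont (show (0 : ℝ) < 1 / 4 by norm_num)
  have hB : {z : Z | ∃ c, ((Sum.inr z, c) : (V ⊕ Z) × (V ⊕ Z)) ∈
      {e : (V ⊕ Z) × (V ⊕ Z) | F.Γ.Adj e.1 e.2 ∧ ¬ F.T.Adj (pr F.ρ e.1) (pr F.ρ e.2)}}.Finite := by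
    refine ((F.bad.image Prod.fst).preimage (Sum.inr_injective.injOn)).subset ?_
    rintro z ⟨c, hc⟩
    exact ⟨_, hc, rfl⟩
  have hch : ∀ v, F.T.Adj w v → ∃ z, F.ρ z = w ∧ (∀ c, F.Γ.Adj (Sum.inr z) c → F.r c ≠ v) ∧
      z ∉ K ∧ (∀ c, F.Γ.Adj (Sum.inr z) c → F.T.Adj w (F.r c)) ∧ p.1 (Sum.inr z) ≤ 3 / 4 := by
    intro v hv
    obtain ⟨z, ⟨⟨hz1, hz2⟩, hz3⟩⟩ :=
      (Set.Infinite.sdiff (hcon v hv) ((hK.union hB).union (sa_fin F p))).nonempty
    rw [Set.mem_union, Set.mem_union, not_or, not_or] at hz3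
    refine ⟨z, hz1, hz2, hz3.1.1, fun c hc => ?_, not_lt.1 hz3.2⟩
    by_contra hnot
    refine hz3.1.2 ⟨c, hc, fun h2 => hnot ?_⟩
    have h3 : F.T.Adj (F.r (Sum.inr z)) (F.r c) := h2
    rw [F.r_inr, hz1] at h3
    exact h3
  have hZ : Nonempty Z := by
    obtain ⟨v, hv⟩ := hw
    obtain ⟨z, -⟩ := hch v hv
    exact ⟨z⟩
  choose! zz hz using hch
  have hcl : ∀ v, F.T.Adj w v → ∀ v', F.T.Adj w v' → ∀ c u,
      |(H (F.vx (Sum.inr (zz v)), c)).1 (Sum.inl u) -
        (H (F.vx (Sum.inr (zz v')), c)).1 (Sum.inl u)| < 1 / 4 := by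
    intro v hv v' hv' c u
    refine hu _ _ ?_ ?_ c u
    · intro u'
      rw [F.vx_val, F.vx_val, F.pt_inl, F.pt_inl, F.r_inr, F.r_inr, (hz v hv).1, (hz v' hv').1]
    · intro z hzK
      have h1 : ∀ v, F.T.Adj w v → F.pt (Sum.inr (zz v)) (Sum.inr z) = 0 := by
        intro v hv
        rw [F.pt_inr, if_neg]
        intro h2
        rw [← Sum.inr_injective h2] at hzK
        exact (hz v hv).2.2.1 hzK
      rw [F.vx_val, F.vx_val, h1 v hv, h1 v' hv']
  have hzero : ∀ v, F.T.Adj w v → ∀ c, 3 / 4 ≤ (H (F.vx (Sum.inr (zz v)), c)).1 (Sum.inr (zz v)) →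
      (H (F.vx (Sum.inr (zz v)), c)).1 (Sum.inl v) = 0 := by
    intro v hv c hc
    obtain ⟨q, s, hs, hq, he⟩ := sa_rep F (H (F.vx (Sum.inr (zz v)), c)) (zz v) (by linarith)
    rw [he, F.sg_apply, F.pt_inl, F.pt_inl, F.r_inr, (hz v hv).1, if_neg hv.ne, if_neg]
    · ring
    · rcases hq with hq | hq
      · rw [← hq, F.r_inr, (hz v hv).1]
        exact hv.ne
      · exact (hz v hv).2.1 q hq
  let D : Set C := ⋂ v, ⋂ (_ : F.T.Adj w v),
    {c | 3 / 4 < (H (F.vx (Sum.inr (zz v)), c)).1 (Sum.inr (zz v))}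
  let D' : Set C := ⋂ v, ⋂ (_ : F.T.Adj w v),
    {c | 3 / 4 ≤ (H (F.vx (Sum.inr (zz v)), c)).1 (Sum.inr (zz v))}
  have hcoord : ∀ v, Continuous fun c => (H (F.vx (Sum.inr (zz v)), c)).1 (Sum.inr (zz v)) := by
    intro v
    exact (F.continuous_coord _).comp (hH.cont.comp (by fun_prop))
  have hopen : IsOpen D :=
    isOpen_iInter_of_finite fun v => isOpen_iInter_of_finite fun _ =>
      isOpen_lt continuous_const (hcoord v)
  have hclosed : IsClosed D' :=
    isClosed_iInter fun v => isClosed_iInter fun _ => isClosed_le continuous_const (hcoord v)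
  have hDD : D = D' := by
    apply Set.Subset.antisymm
    · intro c hc
      simp only [D, D', Set.mem_iInter, Set.mem_setOf_eq] at hc ⊢
      exact fun v hv => (hc v hv).le
    · intro c hc
      simp only [D, D', Set.mem_iInter, Set.mem_setOf_eq] at hc ⊢
      intro v hv
      refine lt_of_le_of_ne (hc v hv) fun heq => ?_
      obtain ⟨q, s, hs, hq, he⟩ := sa_rep F (H (F.vx (Sum.inr (zz v)), c)) (zz v)
        (by rw [← heq]; norm_num)
      have hq' : Sum.inr (zz v) ≠ q := by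
        intro h1
        rw [he, ← h1, F.sg_self, F.pt_inr, if_pos rfl] at heq
        norm_num at heq
      have hadj : F.Γ.Adj (Sum.inr (zz v)) q := hq.resolve_left hq'
      have hT := (hz v hv).2.2.2.1 q hadj
      have h2 : s = 1 / 4 := by
        rw [he, F.sg_apply, F.pt_inr, F.pt_inr, if_pos rfl, if_neg hq'.symm] at heq
        linarith
      have h3 : (H (F.vx (Sum.inr (zz v)), c)).1 (Sum.inl (F.r q)) = 1 / 4 := by
        rw [he, F.sg_apply, F.pt_inl, F.pt_inl, F.r_inr, (hz v hv).1, if_neg hT.ne, if_pos rfl, h2]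
        norm_num
      have h4 := hzero _ hT c (hc _ hT)
      have h5 := hcl v hv _ hT c (F.r q)
      rw [h3, h4] at h5
      norm_num at h5
  have hclopen : IsClopen D := ⟨by rw [hDD]; exact hclosed, hopen⟩
  have haD : a ∈ D := by
    simp only [D, Set.mem_iInter, Set.mem_setOf_eq]
    intro v hv
    rw [hH.ha, F.vx_val, F.pt_inr, if_pos rfl]
    norm_num
  have huniv : D = univ := hclopen.eq_univ ⟨a, haD⟩
  have hbD : b ∈ D := by rw [huniv]; trivial
  simp only [D, Set.mem_iInter, Set.mem_setOf_eq] at hbD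
  obtain ⟨v, hv⟩ := hw
  have h1 := hbD v hv
  rw [hH.hb] at h1
  exact absurd h1 (not_lt.2 (hz v hv).2.2.2.2)

end Pool.Agent.Work.MP_e7996b_gt
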