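import Pool.Agent.Work.MP_e7996b_gt.Basic

/-!
# Ultra (M): ultrafilters of flags; `X` is compact

`Fl`: pairs `(p, q)`, equal or adjacent, with a parameter `s ∈ [0,1]`.
`ultra`: `[0,1]` is compact, so the parameter converges along `U` to some `s`.  If `f.1 = e` eventually for some `e`:
first alternative.  Otherwise `f.1 ≠ e` eventually for every `e`, so `f.1 ∉ K` eventually for every finite `K`.  By
`F.bad` eventually `f.1` is a pair `(p, p)` or `T.Adj (r p) (r q)`.  `V × V` is finite, so eventually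
`(r p, r q)` is a constant `(v, w)` (`Ultrafilter.finite_biUnion_mem_iff` or `Ultrafilter.eventually_or`, induction);
`v = w` or `T.Adj v w`, so `Nb (inl v) (inl w)` (`F.sub`).  Convergence of `F.ofFl f`: in every coordinate
(`tendsto_subtype_rng`, `tendsto_pi_nhds`): coordinate `inl u`: eventually
`(1-s_f) [r p = u] + s_f [r q = u] = (1-s_f) [v = u] + s_f [w = u]`; coordinate `inr z`: the set of pairs with
`p = inr z` or `q = inr z` is finite by `F.deg`, so eventually the coordinate is 0, and it is 0 in the limit.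
`compactSpace_X`: every ultrafilter `U` on `X` is the image of an ultrafilter on `F.Fl` (`F.ofFl` is surjective:
`Ultrafilter.comap`/`Filter.map_comap_of_surjective` and `Ultrafilter.exists_le`), which converges: in
the first alternative `F.ofFl f = F.emb e.2 _` with parameter `f.2 → s`, `continuous_emb`.
-/

set_option autoImplicit false
set_option linter.unusedSectionVars false

namespace Pool.Agent.Work.MP_e7996b_gt

open Set Topology Filter

variable {V Z : Type}

namespace Frame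

/-- flags -/
abbrev Fl (F : Frame V Z) : Type := {e : (V ⊕ Z) × (V ⊕ Z) // F.Nb e.1 e.2} × Icc (0 : ℝ) 1

/-- the point of a flag -/
noncomputable def ofFl (F : Frame V Z) (f : F.Fl) : F.X := F.emb f.1.2 f.2.2

theorem ultra (F : Frame V Z) [Finite V] (U : Ultrafilter F.Fl) :
    ∃ s : Icc (0 : ℝ) 1, Tendsto (fun f : F.Fl => f.2) U (𝓝 s) ∧
      ((∃ e, ∀ᶠ f in (U : Filter F.Fl), f.1 = e) ∨
        ∃ (v w : V) (h : F.Nb (Sum.inl v) (Sum.inl w)),
          (∀ᶠ f in (U : Filter F.Fl), F.r f.1.1.1 = v ∧ F.r f.1.1.2 = w) ∧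
          (∀ K : Set {e : (V ⊕ Z) × (V ⊕ Z) // F.Nb e.1 e.2}, K.Finite →
            ∀ᶠ f in (U : Filter F.Fl), f.1 ∉ K) ∧
          Tendsto F.ofFl U (𝓝 (F.emb h s.2))) := by
  classical
  obtain ⟨s, -, hs⟩ := isCompact_iff_ultrafilter_le_nhds.1
    (isCompact_univ : IsCompact (univ : Set (Icc (0 : ℝ) 1))) (U.map fun f : F.Fl => f.2) (by simp)
  have hs' : Tendsto (fun f : F.Fl => f.2) U (𝓝 s) := hs
  refine ⟨s, hs', ?_⟩
  by_cases he : ∃ e, ∀ᶠ f in (U : Filter F.Fl), f.1 = e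
  · exact Or.inl he
  right
  push Not at he
  have hne : ∀ e, ∀ᶠ f in (U : Filter F.Fl), f.1 ≠ e := he
  have hK : ∀ K : Set {e : (V ⊕ Z) × (V ⊕ Z) // F.Nb e.1 e.2}, K.Finite →
      ∀ᶠ f in (U : Filter F.Fl), f.1 ∉ K := by
    intro K hK
    have h1 := (Filter.eventually_all_finite (l := (U : Filter F.Fl))
      (p := fun e (f : F.Fl) => f.1 ≠ e) hK).2 fun e _ => hne e
    filter_upwards [h1] with f hf hfK
    exact hf f.1 hfK rfl
  obtain ⟨⟨v, w⟩, hvw⟩ := (U.map fun f : F.Fl => (F.r f.1.1.1, F.r f.1.1.2)).eq_pure_of_finite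
  have hr : ∀ᶠ f in (U : Filter F.Fl), F.r f.1.1.1 = v ∧ F.r f.1.1.2 = w := by
    have h1 : ∀ᶠ x in ((U.map fun f : F.Fl => (F.r f.1.1.1, F.r f.1.1.2) : Ultrafilter (V × V)) :
        Filter (V × V)), x = (v, w) := by
      rw [hvw]
      exact rfl
    have h2 : ∀ᶠ f in (U : Filter F.Fl), (F.r f.1.1.1, F.r f.1.1.2) = (v, w) := h1
    filter_upwards [h2] with f hf
    exact ⟨congrArg Prod.fst hf, congrArg Prod.snd hf⟩
  have hbad : ∀ᶠ f in (U : Filter F.Fl), f.1 ∉ {e : {e : (V ⊕ Z) × (V ⊕ Z) // F.Nb e.1 e.2} |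
      F.Γ.Adj e.1.1 e.1.2 ∧ ¬ F.T.Adj (pr F.ρ e.1.1) (pr F.ρ e.1.2)} :=
    hK _ (F.bad.preimage Subtype.val_injective.injOn)
  have h : F.Nb (Sum.inl v) (Sum.inl w) := by
    obtain ⟨f, hf1, hf2⟩ := (hr.and hbad).exists
    rcases f.1.2 with h1 | h1
    · left
      rw [← hf1.1, ← hf1.2, h1]
    · right
      have h2 : F.T.Adj (pr F.ρ f.1.1.1) (pr F.ρ f.1.1.2) := by
        by_contra h3
        exact hf2 ⟨h1, h3⟩
      have h3 : F.T.Adj v w := by
        rw [← hf1.1, ← hf1.2]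
        exact h2
      exact F.sub v w h3
  refine ⟨v, w, h, hr, hK, ?_⟩
  have hval : Tendsto (fun f : F.Fl => (F.ofFl f).1) U (𝓝 (F.emb h s.2).1) := by
    rw [tendsto_pi_nhds]
    intro c
    have hsr : Tendsto (fun f : F.Fl => (f.2 : ℝ)) U (𝓝 (s : ℝ)) :=
      (continuous_subtype_val.tendsto s).comp hs'
    cases c with
    | inl u =>
      have h1 : Tendsto (fun f : F.Fl => (1 - (f.2 : ℝ)) * F.pt (Sum.inl v) (Sum.inl u) +
          (f.2 : ℝ) * F.pt (Sum.inl w) (Sum.inl u)) U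
          (𝓝 ((1 - (s : ℝ)) * F.pt (Sum.inl v) (Sum.inl u) +
            (s : ℝ) * F.pt (Sum.inl w) (Sum.inl u))) :=
        ((tendsto_const_nhds.sub hsr).mul_const _).add (hsr.mul_const _)
      refine h1.congr' ?_
      filter_upwards [hr] with f hf
      show _ = F.sg f.1.1.1 f.1.1.2 f.2 (Sum.inl u)
      rw [F.sg_apply]
      have e1 : F.pt f.1.1.1 (Sum.inl u) = F.pt (Sum.inl v) (Sum.inl u) := by
        rw [F.pt_inl, F.pt_inl, hf.1, F.r_inl]
      have e2 : F.pt f.1.1.2 (Sum.inl u) = F.pt (Sum.inl w) (Sum.inl u) := by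
        rw [F.pt_inl, F.pt_inl, hf.2, F.r_inl]
      rw [e1, e2]
    | inr z =>
      have hfin : {e : {e : (V ⊕ Z) × (V ⊕ Z) // F.Nb e.1 e.2} |
          e.1.1 = Sum.inr z ∨ e.1.2 = Sum.inr z}.Finite := by
        have h1 : (insert (Sum.inr z) {a | F.Γ.Adj (Sum.inr z) a}).Finite := (F.deg z).insert _
        have h2 : ((insert (Sum.inr z) {a | F.Γ.Adj (Sum.inr z) a}) ×ˢ
            (insert (Sum.inr z) {a | F.Γ.Adj (Sum.inr z) a}) : Set ((V ⊕ Z) × (V ⊕ Z))).Finite :=
          h1.prod h1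
        refine (h2.preimage (f := Subtype.val) Subtype.val_injective.injOn).subset ?_
        rintro ⟨⟨p, q⟩, hpq⟩ hz
        rcases hz with hz | hz
        · have hz' : p = Sum.inr z := hz
          subst hz'
          refine ⟨Or.inl rfl, ?_⟩
          rcases hpq with h3 | h3
          · exact Or.inl h3.symm
          · exact Or.inr h3
        · have hz' : q = Sum.inr z := hz
          subst hz'
          refine ⟨?_, Or.inl rfl⟩
          rcases hpq with h3 | h3
          · exact Or.inl h3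
          · exact Or.inr h3.symm
      have h1 : (F.emb h s.2).1 (Sum.inr z) = 0 := by
        show F.sg (Sum.inl v) (Sum.inl w) s (Sum.inr z) = 0
        rw [F.sg_apply, F.pt_inr, F.pt_inr]
        simp
      rw [h1]
      refine tendsto_const_nhds.congr' ?_
      filter_upwards [hK _ hfin] with f hf
      have h2 : ¬ (f.1.1.1 = Sum.inr z ∨ f.1.1.2 = Sum.inr z) := hf
      push Not at h2
      show (0 : ℝ) = F.sg f.1.1.1 f.1.1.2 f.2 (Sum.inr z)
      rw [F.sg_apply, F.pt_inr, F.pt_inr, if_neg h2.1, if_neg h2.2]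
      ring
  exact tendsto_subtype_rng.2 hval

theorem compactSpace_X (F : Frame V Z) [Finite V] : CompactSpace F.X := by
  refine ⟨isCompact_iff_ultrafilter_le_nhds.2 fun U _ => ?_⟩
  have hsurj : Function.Surjective F.ofFl := by
    intro x
    obtain ⟨p, q, h, s, hs, rfl⟩ := F.exists_emb x
    exact ⟨(⟨(p, q), h⟩, ⟨s, hs⟩), rfl⟩
  have hne : (comap F.ofFl (U : Filter F.X)).NeBot := NeBot.comap_of_surj U.neBot hsurj
  let W : Ultrafilter F.Fl := Ultrafilter.of (comap F.ofFl (U : Filter F.X))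
  have hW : (W : Filter F.Fl) ≤ comap F.ofFl (U : Filter F.X) := Ultrafilter.of_le _
  have hWU : W.map F.ofFl = U := Ultrafilter.coe_le_coe.1 (by
    rw [Ultrafilter.coe_map]
    exact map_le_iff_le_comap.2 hW)
  obtain ⟨s, hs, h1 | ⟨v, w, h, -, -, h1⟩⟩ := F.ultra W
  · obtain ⟨e, he⟩ := h1
    refine ⟨F.emb e.2 s.2, mem_univ _, ?_⟩
    rw [← hWU]
    have h2 : Tendsto (fun f : F.Fl => F.emb e.2 f.2.2) W (𝓝 (F.emb e.2 s.2)) :=
      ((F.continuous_emb e.2).tendsto s).comp hs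
    have h3 : Tendsto F.ofFl W (𝓝 (F.emb e.2 s.2)) := by
      refine h2.congr' ?_
      filter_upwards [he] with f hf
      obtain ⟨e', t⟩ := f
      have hf' : e' = e := hf
      subst hf'
      rfl
    exact h3
  · refine ⟨F.emb h s.2, mem_univ _, ?_⟩
    rw [← hWU]
    exact h1

end Frame

end Pool.Agent.Work.MP_e7996b_gt
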