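import Pool.Agent.Work.MP_e7996b_gt.EdgeRet
import Pool.Agent.Work.MP_e7996b_gt.TLog
import Pool.Agent.Work.MP_e7996b_gt.Coll

/-!
# Uniq (M): two edges with the same image are equal

Suppose not (`p = p'` and `q = q'`).  Note `hc.g p ≠ hc.g q`, `hc.g (mov x) = hc.g x`, `g_eq_iff`.
Case 1: `F.NotT p q`.  `l` from `edge_ret` for `(p, q)`: `l (vx p) = 0`, `l (vx q) = 1` (`emb_zero`, `emb_one`).  By
`edge_const` (with `s = 1`, `emb_one`) `l` has the same value at the ends of every pair in `Nb` other than `(p,q)`, `(q,p)`: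
`l (vx p) = l (vx (mov p)) = l (vx p') = l (vx q') = l (vx (mov q')) = l (vx q)`, where `mov p = mov p'`,
`mov q' = mov q`; the pairs `(p, mov p)`, `(p', mov p')`, `(p', q')`, `(q', mov q')`, `(q, mov q)` are different from
`(p, q)` and `(q, p)`: the first two because both ends have the image `hc.g p`, the last two because both ends
have the image `hc.g q`, and `(p', q')` because it is not `(p, q)` by assumption and not `(q, p)` because of the
images.  Contradiction.
Case 2: `F.NotT p' q'`: exchange the roles.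
Case 3: both are edges of `T`: `p = inl x`, `q = inl y`, `p' = inl x'`, `q' = inl y'`.  `mov (inl x) = mov (inl x')` gives
`x = x'` or `{x, x'} = {v, w}`; the same for `y, y'`.  Not both `x = x'` and `y = y'`; not both the other case (then
`hc.g p = hc.g q`).  So for example `{x, x'} = {v, w}`, `y = y'`: `y` is adjacent in `T` to `v` and `w` (and `T.Adj v w`).
`tedge_log` for `(v, w)`: `g w = g v + 1`, `g v = g y = g w`, contradiction.
-/

set_option autoImplicit false
set_option linter.unusedSectionVars false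

namespace Pool.Agent.Work.MP_e7996b_gt

open Set Topology Filter

variable {V Z : Type}

namespace Col

variable {F : Frame V Z} {v w : V} {S : Set Z} {m : Z → V ⊕ Z} (hc : Col F v w S m)

include hc in
private theorem tri_false [Finite V] (h : PC F.X) {x : V} (h1 : F.T.Adj x v) (h2 : F.T.Adj x w) :
    False := by
  obtain ⟨g, hg, hg'⟩ := tedge_log F h hc.adj
  have hvw : v ≠ w := hc.ne
  have hxv : x ≠ v := h1.ne
  have hxw : x ≠ w := h2.ne
  have e1 : g x = g v := hg' x v h1 (fun h => hxv h.1) (fun h => hxw h.1)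
  have e2 : g x = g w := hg' x w h2 (fun h => hxv h.1) (fun h => hxw h.1)
  rw [← e2, e1] at hg
  linarith

include hc in
private theorem mov_inl_eq {x x' : V} (h : mov v w S m (Sum.inl x) = mov v w S m (Sum.inl x')) :
    x = x' ∨ (x = v ∧ x' = w) ∨ (x = w ∧ x' = v) := by
  classical
  unfold mov at h
  by_cases h1 : x = v
  · by_cases h2 : x' = v
    · exact Or.inl (h1.trans h2.symm)
    · simp only [h1, if_true, h2, if_false, Sum.inl.injEq] at h
      exact Or.inr (Or.inl ⟨h1, h.symm⟩)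
  · by_cases h2 : x' = v
    · simp only [h1, if_true, h2, if_false, Sum.inl.injEq] at h
      exact Or.inr (Or.inr ⟨h, h2⟩)
    · simp only [h1, h2, if_false, Sum.inl.injEq] at h
      exact Or.inl h

private theorem mov_inl_vw {x : V} (h : x = v ∨ x = w) :
    mov v w S m (Sum.inl x) = Sum.inl w := by
  classical
  unfold mov
  by_cases h1 : x = v
  · simp [h1]
  · rcases h with h | h
    · exact absurd h h1
    · simp [h]

private theorem g_mov (x : V ⊕ Z) : hc.g (mov v w S m x) = hc.g x :=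
  (hc.g_eq_iff _ _).2 (hc.mov_mov x)

private theorem uniq_key [Finite V] (h : PC F.X) {p q p' q' : V ⊕ Z} (hpq : F.Γ.Adj p q)
    (hpq' : F.Γ.Adj p' q') (e : hc.g p = hc.g p') (e' : hc.g q = hc.g q') (ne : hc.g p ≠ hc.g q)
    (hT : F.NotT p q) : p = p' ∧ q = q' := by
  by_contra hn
  obtain ⟨l, hl, h1, h3, h2⟩ := edge_ret F h hpq hT
  have i0 : (0 : ℝ) ∈ Icc (0 : ℝ) 1 := ⟨le_rfl, zero_le_one⟩
  have i1 : (1 : ℝ) ∈ Icc (0 : ℝ) 1 := ⟨zero_le_one, le_rfl⟩
  have hp : l (F.vx p) = 0 := by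
    have := h3 0 i0
    rwa [F.emb_zero] at this
  have hq : l (F.vx q) = 1 := by
    have := h3 1 i1
    rwa [F.emb_one] at this
  have hcst : ∀ a b, F.Nb a b → ¬ (a = p ∧ b = q) → ¬ (a = q ∧ b = p) →
      l (F.vx b) = l (F.vx a) := by
    intro a b hab n1 n2
    have := edge_const F hpq hl h1 h2 hab n1 n2 i1
    rwa [F.emb_one] at this
  have hm : mov v w S m p = mov v w S m p' := (hc.g_eq_iff _ _).1 e
  have hm' : mov v w S m q = mov v w S m q' := (hc.g_eq_iff _ _).1 e'
  have c1 : l (F.vx (mov v w S m p)) = l (F.vx p) := by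
    refine hcst _ _ (hc.nb_mov p) ?_ ?_
    · rintro ⟨_, h5⟩
      exact ne (by rw [← h5, hc.g_mov])
    · rintro ⟨h5, _⟩
      exact ne (by rw [← h5])
  have c2 : l (F.vx (mov v w S m p')) = l (F.vx p') := by
    refine hcst _ _ (hc.nb_mov p') ?_ ?_
    · rintro ⟨_, h5⟩
      exact ne (by rw [← h5, hc.g_mov, e])
    · rintro ⟨h5, _⟩
      exact ne (by rw [← h5, e])
  have c3 : l (F.vx q') = l (F.vx p') := by
    refine hcst _ _ (Or.inr hpq') ?_ ?_
    · rintro ⟨h5, h6⟩
      exact hn ⟨h5.symm, h6.symm⟩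
    · rintro ⟨h5, _⟩
      exact ne (by rw [← h5, e])
  have c4 : l (F.vx (mov v w S m q')) = l (F.vx q') := by
    refine hcst _ _ (hc.nb_mov q') ?_ ?_
    · rintro ⟨h5, _⟩
      exact ne (by rw [← h5, e'])
    · rintro ⟨_, h5⟩
      exact ne (by rw [← h5, hc.g_mov, e'])
  have c5 : l (F.vx (mov v w S m q)) = l (F.vx q) := by
    refine hcst _ _ (hc.nb_mov q) ?_ ?_
    · rintro ⟨h5, _⟩
      exact ne (by rw [← h5])
    · rintro ⟨_, h5⟩
      exact ne (by rw [← h5, hc.g_mov])
  rw [hm, c2, ← c3, ← c4, ← hm', c5, hq, hp] at c1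
  exact one_ne_zero c1

theorem uniq_edge [Finite V] (h : PC F.X) {p q p' q' : V ⊕ Z} (hpq : F.Γ.Adj p q)
    (hpq' : F.Γ.Adj p' q') (e : hc.g p = hc.g p') (e' : hc.g q = hc.g q') (ne : hc.g p ≠ hc.g q) :
    p = p' ∧ q = q' := by
  by_cases hT : F.NotT p q
  · exact hc.uniq_key h hpq hpq' e e' ne hT
  by_cases hT' : F.NotT p' q'
  · have := hc.uniq_key h hpq' hpq e.symm e'.symm (by rwa [← e, ← e']) hT'
    exact ⟨this.1.symm, this.2.symm⟩
  unfold Frame.NotT at hT hT'
  push Not at hT hT'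
  obtain ⟨x, y, rfl, rfl, hxy⟩ := hT
  obtain ⟨x', y', rfl, rfl, hxy'⟩ := hT'
  have hm := (hc.g_eq_iff _ _).1 e
  have hm' := (hc.g_eq_iff _ _).1 e'
  have hne : ¬ ((x = v ∨ x = w) ∧ (y = v ∨ y = w)) := by
    rintro ⟨h1, h2⟩
    exact ne ((hc.g_eq_iff _ _).2 ((mov_inl_vw h1).trans (mov_inl_vw h2).symm))
  rcases hc.mov_inl_eq hm with h1 | h1 | h1
  · subst h1
    rcases hc.mov_inl_eq hm' with h2 | h2 | h2
    · subst h2
      exact ⟨rfl, rfl⟩
    · obtain ⟨rfl, rfl⟩ := h2
      exact (hc.tri_false h hxy hxy').elim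
    · obtain ⟨rfl, rfl⟩ := h2
      exact (hc.tri_false h hxy' hxy).elim
  · rcases hc.mov_inl_eq hm' with h2 | h2 | h2
    · subst h2
      obtain ⟨rfl, rfl⟩ := h1
      exact (hc.tri_false h hxy.symm hxy'.symm).elim
    · exact (hne ⟨Or.inl h1.1, Or.inl h2.1⟩).elim
    · exact (hne ⟨Or.inl h1.1, Or.inr h2.1⟩).elim
  · rcases hc.mov_inl_eq hm' with h2 | h2 | h2
    · subst h2
      obtain ⟨rfl, rfl⟩ := h1
      exact (hc.tri_false h hxy'.symm hxy.symm).elim
    · exact (hne ⟨Or.inr h1.1, Or.inl h2.1⟩).elim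
    · exact (hne ⟨Or.inr h1.1, Or.inr h2.1⟩).elim

end Col

end Pool.Agent.Work.MP_e7996b_gt
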